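import Pool.Agent.K9h78.LP.OpStm

/-!
# Leaf CPT (MP_41c25d_an): compactness
-/

set_option autoImplicit false

open MeasureTheory Filter Topology Matrix

namespace Pool.Agent.K9h78.LP

section

variable {H : Type} [NormedAddCommGroup H] [InnerProductSpace ℂ H] [CompleteSpace H]

/-- the partial sums of the expansion in the basis -/
noncomputable def cpt_P (b : HilbertBasis ℕ ℂ H) (n : ℕ) : H →L[ℂ] H :=
  ∑ l ∈ Finset.range n, (innerSL ℂ (b l)).smulRight (b l)

lemma cpt_P_apply (b : HilbertBasis ℕ ℂ H) (n : ℕ) (v : H) :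
    cpt_P b n v = ∑ l ∈ Finset.range n, b.repr v l • b l := by
  simp [cpt_P, b.repr_apply_apply]

lemma cpt_bound (b : HilbertBasis ℕ ℂ H) (W : H →L[ℂ] H)
    (hs : Summable (fun i => ‖W (b i)‖ ^ 2)) (n : ℕ) (v : H) :
    ‖W (v - cpt_P b n v)‖ ≤ ‖v‖ * √(∑' i, ‖W (b (i + n))‖ ^ 2) := by
  have h1 : HasSum (fun l => b.repr v l • W (b l)) (W v) := by
    have := (b.hasSum_repr v).mapL W
    simpa using this
  have h2 : Tendsto (fun m => (∑ l ∈ Finset.range (n + m), b.repr v l • W (b l)) -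
      ∑ l ∈ Finset.range n, b.repr v l • W (b l)) atTop (𝓝 (W (v - cpt_P b n v))) := by
    have h3 : W (v - cpt_P b n v) = W v - ∑ l ∈ Finset.range n, b.repr v l • W (b l) := by
      rw [map_sub, cpt_P_apply, map_sum]
      simp
    rw [h3]
    refine Tendsto.sub_const ?_ _
    have h4 := h1.tendsto_sum_nat
    refine h4.comp ?_
    exact tendsto_atTop_mono (fun m => Nat.le_add_left m n) tendsto_id
  refine le_of_tendsto h2.norm (Eventually.of_forall fun m => ?_)
  rw [Finset.sum_range_add, add_sub_cancel_left]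
  have hs' : Summable (fun i => ‖W (b (i + n))‖ ^ 2) := (summable_nat_add_iff n).2 hs
  calc ‖∑ x ∈ Finset.range m, b.repr v (n + x) • W (b (n + x))‖
      ≤ ∑ x ∈ Finset.range m, ‖b.repr v (n + x)‖ * ‖W (b (n + x))‖ := by
        refine (norm_sum_le _ _).trans (Finset.sum_le_sum fun x _ => ?_)
        rw [norm_smul]
    _ ≤ √(∑ x ∈ Finset.range m, ‖b.repr v (n + x)‖ ^ 2) *
        √(∑ x ∈ Finset.range m, ‖W (b (n + x))‖ ^ 2) :=
        Real.sum_mul_le_sqrt_mul_sqrt _ _ _
    _ ≤ ‖v‖ * √(∑' i, ‖W (b (i + n))‖ ^ 2) := by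
        gcongr
        · rw [Real.sqrt_le_left (norm_nonneg _)]
          have h5 := b.orthonormal.sum_inner_products_le (x := v) (s := Finset.range (n + m))
          refine le_trans ?_ h5
          rw [Finset.sum_range_add]
          refine le_add_of_nonneg_of_le (Finset.sum_nonneg fun _ _ => by positivity) ?_
          refine Finset.sum_le_sum fun x _ => ?_
          rw [b.repr_apply_apply]
        · simp only [add_comm n]
          exact hs'.sum_le_tsum _ fun _ _ => by positivity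

lemma cpt_norm (b : HilbertBasis ℕ ℂ H) (n : ℕ) (v : H) : ‖v - cpt_P b n v‖ ≤ ‖v‖ := by
  have h0 : (∑ i ∈ Finset.range n, (inner ℂ (b i) v) • b i) = cpt_P b n v := by
    rw [cpt_P_apply]
    refine Finset.sum_congr rfl fun i _ => ?_
    rw [b.repr_apply_apply]
  have horth : inner ℂ (cpt_P b n v) (v - cpt_P b n v) = 0 := by
    rw [← h0, sum_inner]
    refine Finset.sum_eq_zero fun i hi => ?_
    rw [inner_smul_left, inner_sub_right, inner_sum]
    have : ∑ j ∈ Finset.range n, inner ℂ (b i) ((inner ℂ (b j) v) • b j) = inner ℂ (b i) v := by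
      rw [Finset.sum_eq_single i]
      · rw [inner_smul_right, inner_self_eq_norm_sq_to_K, b.orthonormal.1 i]
        simp
      · intro j _ hj
        rw [inner_smul_right, b.orthonormal.2 hj.symm, mul_zero]
      · intro h; exact absurd hi h
    rw [this, sub_self, mul_zero]
  have h1 := norm_add_sq_eq_norm_sq_add_norm_sq_of_inner_eq_zero (𝕜 := ℂ) _ _ horth
  rw [add_sub_cancel] at h1
  have h2 : ‖v - cpt_P b n v‖ * ‖v - cpt_P b n v‖ ≤ ‖v‖ * ‖v‖ := by
    rw [h1]
    have := mul_self_nonneg ‖cpt_P b n v‖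
    linarith
  exact (mul_self_le_mul_self_iff (norm_nonneg _) (norm_nonneg _)).2 h2

lemma cpt_func (f : H →L[ℂ] ℂ) : IsCompactOperator f := by
  refine ⟨Metric.closedBall 0 1, isCompact_closedBall _ _, ?_⟩
  have h1 : Metric.closedBall (0 : ℂ) 1 ∈ 𝓝 (f 0) := by
    rw [map_zero]
    exact Metric.closedBall_mem_nhds _ one_pos
  exact f.continuous.continuousAt h1

lemma cpt_sum (M : H →L[ℂ] H) (b : HilbertBasis ℕ ℂ H) (n : ℕ) :
    IsCompactOperator (M ∘L cpt_P b n) := by
  induction n with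
  | zero =>
    have : M ∘L cpt_P b 0 = 0 := by
      unfold cpt_P; simp
    rw [this]
    exact isCompactOperator_zero
  | succ n ih =>
    have : M ∘L cpt_P b (n + 1) = M ∘L cpt_P b n +
        (ContinuousLinearMap.toSpanSingleton ℂ (M (b n))) ∘L (innerSL ℂ (b n)) := by
      ext v
      simp [cpt_P, Finset.sum_range_succ]
    rw [this]
    have h2 : IsCompactOperator
        ((ContinuousLinearMap.toSpanSingleton ℂ (M (b n))) ∘L (innerSL ℂ (b n))) :=
      IsCompactOperator.clm_comp (f := ((innerSL ℂ (b n) : H →L[ℂ] ℂ) : H →ₗ[ℂ] ℂ))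
        (cpt_func (innerSL ℂ (b n))) (ContinuousLinearMap.toSpanSingleton ℂ (M (b n)))
    exact ih.add h2

end

theorem cpt : S_CPT := by
  intro H _ _ _ b M W k hk hs hM
  refine isCompactOperator_of_tendsto (F := fun n => M ∘L cpt_P b n) (l := atTop) ?_
    (Eventually.of_forall fun n => cpt_sum M b n)
  rw [Metric.tendsto_atTop]
  intro ε hε
  have ht : Tendsto (fun n => √(∑' i, ‖W (b (i + n))‖ ^ 2)) atTop (𝓝 0) := by
    have := (tendsto_sum_nat_add (fun i => ‖W (b i)‖ ^ 2)).sqrt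
    simpa using this
  have h1 : ∀ᶠ n in atTop, √(∑' i, ‖W (b (i + n))‖ ^ 2) < (ε / 2) ^ k :=
    ht.eventually_lt_const (by positivity)
  obtain ⟨N, hN⟩ := eventually_atTop.1 h1
  refine ⟨N, fun n hn => ?_⟩
  rw [dist_comm, dist_eq_norm]
  refine lt_of_le_of_lt ?_ (half_lt_self hε)
  refine ContinuousLinearMap.opNorm_le_bound _ (by positivity) fun v => ?_
  have hunit : ∀ u : H, ‖u‖ = 1 → ‖M u - M (cpt_P b n u)‖ ≤ ε / 2 := by
    intro u hu
    rw [← map_sub]
    have h2 := hM (u - cpt_P b n u) ((cpt_norm b n u).trans hu.le)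
    have h3 := cpt_bound b W hs n u
    rw [hu, one_mul] at h3
    have h4 := hN n hn
    exact (lt_of_pow_lt_pow_left₀ k (by positivity) ((h2.trans h3).trans_lt h4)).le
  by_cases hv : v = 0
  · simp [hv]
  have hv0 : 0 < ‖v‖ := norm_pos_iff.2 hv
  have h5 := hunit ((‖v‖⁻¹ : ℂ) • v) (by
    rw [norm_smul, norm_inv, Complex.norm_real, norm_norm, inv_mul_cancel₀ hv0.ne'])
  rw [map_smul, map_smul, map_smul, ← smul_sub, norm_smul, norm_inv, Complex.norm_real,
    norm_norm] at h5
  have h6 : ‖M v - M (cpt_P b n v)‖ ≤ ε / 2 * ‖v‖ := by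
    rw [inv_mul_le_iff₀ hv0] at h5
    linarith
  simpa using h6

end Pool.Agent.K9h78.LP
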