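import Mathlib

/-! The explicit pair. -/

set_option autoImplicit false
open MeasureTheory Finset Matrix

namespace Pool.Agent.K9h78.LP

/-- the trace of `Xᴴ X`, `X = α A + B` -/
noncomputable def TT (z : ℂ) : ℝ := ‖z‖ ^ 2 + 2 * z.re + 4

/-- the larger eigenvalue of `Xᴴ X` -/
noncomputable def SS (z : ℂ) : ℝ := (TT z + Real.sqrt (TT z ^ 2 - 4 * ‖z‖ ^ 2)) / 2

theorem norm_sq_re_im (z : ℂ) : ‖z‖ ^ 2 = z.re ^ 2 + z.im ^ 2 := by
  rw [← Complex.normSq_eq_norm_sq, Complex.normSq_apply]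
  ring

theorem TT_ge (z : ℂ) : 3 ≤ TT z := by
  unfold TT
  rw [norm_sq_re_im]
  nlinarith [sq_nonneg (z.re + 1), sq_nonneg z.im]

theorem TT_ge' (z : ℂ) : 2 * ‖z‖ ≤ TT z := by
  unfold TT
  have h1 := Complex.abs_re_le_norm z
  have h2 := (abs_le.1 h1).1
  nlinarith [sq_nonneg (‖z‖ - 2)]

theorem TT_le (z : ℂ) : TT z ≤ (‖z‖ + 2) ^ 2 := by
  unfold TT
  have h1 := Complex.abs_re_le_norm z
  have h2 := (abs_le.1 h1).2
  nlinarith [norm_nonneg z]

theorem disc_nonneg (z : ℂ) : 0 ≤ TT z ^ 2 - 4 * ‖z‖ ^ 2 := by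
  have h1 := TT_ge' z
  have h2 := norm_nonneg z
  nlinarith

theorem SS_ge (z : ℂ) : 1 ≤ SS z := by
  unfold SS
  have h1 := TT_ge z
  have h2 := Real.sqrt_nonneg (TT z ^ 2 - 4 * ‖z‖ ^ 2)
  linarith

theorem SS_le (z : ℂ) : SS z ≤ (‖z‖ + 2) ^ 2 := by
  unfold SS
  have h1 := TT_ge z
  have h2 : Real.sqrt (TT z ^ 2 - 4 * ‖z‖ ^ 2) ≤ TT z := by
    rw [Real.sqrt_le_left (by linarith)]
    have : 0 ≤ ‖z‖ ^ 2 := by positivity
    linarith
  have h3 := TT_le z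
  linarith

theorem SS_quad (z : ℂ) : SS z * (TT z - SS z) = ‖z‖ ^ 2 := by
  have h1 := Real.sq_sqrt (disc_nonneg z)
  unfold SS
  nlinarith

theorem TT_cont : Continuous TT := by
  unfold TT
  fun_prop

theorem SS_cont : Continuous SS := by
  unfold SS
  have := TT_cont
  fun_prop

/-- `tr |M|^p` -/
noncomputable def trPow {n : ℕ} (p : ℝ) (M : Matrix (Fin n) (Fin n) ℂ) : ℝ :=
  ∑ i, (isHermitian_conjTranspose_mul_self M).eigenvalues i ^ (p / 2)

theorem tr_formula (p : ℝ) (z : ℂ) :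
    trPow p (z • (!![1, 0; 0, 0] : Matrix (Fin 2) (Fin 2) ℂ) + (1 : ℂ) • !![1, 1; 1, 1]) =
      SS z ^ (p / 2) + ‖z‖ ^ p * SS z ^ (-(p / 2)) := by
  set M : Matrix (Fin 2) (Fin 2) ℂ :=
    z • (!![1, 0; 0, 0] : Matrix (Fin 2) (Fin 2) ℂ) + (1 : ℂ) • !![1, 1; 1, 1] with hM
  have hMe : M = !![z + 1, 1; 1, 1] := by
    rw [hM]
    ext i j
    fin_cases i <;> fin_cases j <;> simp
  unfold trPow
  set hH := isHermitian_conjTranspose_mul_self M with hHdef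
  have htr := hH.trace_eq_sum_eigenvalues
  have hdet := hH.det_eq_prod_eigenvalues
  rw [Fin.sum_univ_two] at htr ⊢
  rw [Fin.prod_univ_two] at hdet
  set a := hH.eigenvalues 0
  set b := hH.eigenvalues 1
  have h1 : a + b = TT z := by
    have e1 : (Mᴴ * M).trace = ((TT z : ℝ) : ℂ) := by
      rw [hMe]
      simp only [Matrix.trace, Matrix.diag, Fin.sum_univ_two, Matrix.mul_apply,
        Matrix.conjTranspose_apply]
      simp
      unfold TT
      rw [← Complex.normSq_eq_norm_sq]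
      push_cast
      rw [Complex.normSq_eq_conj_mul_self]
      have : (2 : ℂ) * (z.re : ℂ) = z + (starRingEnd ℂ) z := by
        rw [Complex.add_conj]
        push_cast
        ring
      linear_combination -this
    rw [e1] at htr
    have : ((TT z : ℝ) : ℂ) = ((a + b : ℝ) : ℂ) := by
      rw [htr]
      push_cast
      rfl
    exact_mod_cast this.symm
  have h2 : a * b = ‖z‖ ^ 2 := by
    have e1 : (Mᴴ * M).det = ((‖z‖ ^ 2 : ℝ) : ℂ) := by
      rw [Matrix.det_mul, Matrix.det_conjTranspose, hMe]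
      simp only [Matrix.det_fin_two_of]
      rw [← Complex.normSq_eq_norm_sq, Complex.normSq_eq_conj_mul_self]
      simp
    rw [e1] at hdet
    have : ((‖z‖ ^ 2 : ℝ) : ℂ) = ((a * b : ℝ) : ℂ) := by
      rw [hdet]
      push_cast
      rfl
    exact_mod_cast this.symm
  have hS := SS_ge z
  have hq := SS_quad z
  have h3 : (a - SS z) * (TT z - a - SS z) = 0 := by
    have hb : b = TT z - a := by linarith
    rw [hb] at h2
    linear_combination h2 - hq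
  have h4 : TT z - SS z = ‖z‖ ^ 2 / SS z := by
    rw [eq_div_iff (by linarith)]
    linarith
  have h5 : (‖z‖ ^ 2 / SS z) ^ (p / 2) = ‖z‖ ^ p * SS z ^ (-(p / 2)) := by
    rw [Real.div_rpow (by positivity) (by linarith), Real.rpow_neg (by linarith), ← Real.rpow_natCast,
      ← Real.rpow_mul (norm_nonneg _), div_eq_mul_inv]
    congr 2
    push_cast
    ring
  rw [← h5, ← h4]
  rcases mul_eq_zero.1 h3 with h | h
  · have ha : a = SS z := by linarith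
    have hb : b = TT z - SS z := by linarith
    rw [ha, hb]
  · have ha : a = TT z - SS z := by linarith
    have hb : b = SS z := by linarith
    rw [ha, hb, add_comm]

theorem analytic_normSq : AnalyticAt ℝ (fun z : ℂ => ‖z‖ ^ 2) 0 := by
  have : (fun z : ℂ => ‖z‖ ^ 2) = fun z => (Complex.reCLM z) ^ 2 + (Complex.imCLM z) ^ 2 := by
    ext z
    simp [norm_sq_re_im]
  rw [this]
  exact ((Complex.reCLM.analyticAt 0).pow 2).add ((Complex.imCLM.analyticAt 0).pow 2)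

theorem analytic_TT : AnalyticAt ℝ TT 0 := by
  unfold TT
  exact (analytic_normSq.add (analyticAt_const.mul (Complex.reCLM.analyticAt 0))).add
    analyticAt_const

theorem analytic_rpow {f : ℂ → ℝ} (hf : AnalyticAt ℝ f 0) (h0 : 0 < f 0) (q : ℝ) :
    AnalyticAt ℝ (fun z => f z ^ q) 0 := by
  have hl : AnalyticAt ℝ (fun z => Real.log (f z)) 0 := (analyticAt_log h0).comp' hf
  have hm : AnalyticAt ℝ (fun z => Real.log (f z) * q) 0 := hl.mul analyticAt_const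
  have h1 : AnalyticAt ℝ (fun z => Real.exp (Real.log (f z) * q)) 0 := analyticAt_rexp.comp' hm
  refine h1.congr ?_
  filter_upwards [hf.continuousAt.eventually (lt_mem_nhds h0)] with z hz
  rw [Real.rpow_def_of_pos hz]

theorem TT_zero : TT 0 = 4 := by simp [TT]

theorem SS_zero : SS 0 = 4 := by
  unfold SS
  rw [TT_zero]
  have : Real.sqrt ((4:ℝ) ^ 2 - 4 * ‖(0:ℂ)‖ ^ 2) = 4 := by
    rw [norm_zero]
    rw [show (4:ℝ) ^ 2 - 4 * 0 ^ 2 = 4 ^ 2 by norm_num]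
    exact Real.sqrt_sq (by norm_num)
  rw [this]
  norm_num

theorem analytic_SS : AnalyticAt ℝ SS 0 := by
  have h1 : AnalyticAt ℝ (fun z => TT z ^ 2 - 4 * ‖z‖ ^ 2) 0 :=
    (analytic_TT.pow 2).sub (analyticAt_const.mul analytic_normSq)
  have h2 := analytic_rpow h1 (by rw [TT_zero]; norm_num) (1 / 2)
  have h3 : AnalyticAt ℝ (fun z => (TT z + (TT z ^ 2 - 4 * ‖z‖ ^ 2) ^ (1 / 2 : ℝ)) / 2) 0 :=
    (analytic_TT.add h2).div_const
  convert h3 using 1
  ext z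
  unfold SS
  rw [Real.sqrt_eq_rpow]

theorem analytic_SSpow (q : ℝ) : AnalyticAt ℝ (fun z => SS z ^ q) 0 :=
  analytic_rpow analytic_SS (by rw [SS_zero]; norm_num) q

/-- the derivative in the direction `1` does not vanish -/
theorem deriv_real (q : ℝ) : HasDerivAt (fun t : ℝ => SS (t : ℂ) ^ q) (2 * q * 4 ^ (q - 1)) 0 := by
  have e1 : ∀ t : ℝ, SS (t : ℂ) =
      (t ^ 2 + 2 * t + 4 + Real.sqrt ((t ^ 2 + 2 * t + 4) ^ 2 - 4 * t ^ 2)) / 2 := by
    intro t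
    unfold SS TT
    simp [Complex.norm_real]
  have h1 : HasDerivAt (fun t : ℝ => t ^ 2 + 2 * t + 4) 2 0 := by
    have h : HasDerivAt (fun t : ℝ => t ^ 2 + 2 * t + 4) (((2:ℕ) : ℝ) * 0 ^ (2 - 1) + 2 * 1) 0 :=
      ((hasDerivAt_pow 2 (0:ℝ)).add ((hasDerivAt_id (0:ℝ)).const_mul 2)).add_const (4:ℝ)
    exact h.congr_deriv (by norm_num)
  have h2 : HasDerivAt (fun t : ℝ => (t ^ 2 + 2 * t + 4) ^ 2 - 4 * t ^ 2) 16 0 := by
    have h : HasDerivAt (fun t : ℝ => (t ^ 2 + 2 * t + 4) ^ 2 - 4 * t ^ 2)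
        (((2:ℕ) : ℝ) * ((0:ℝ) ^ 2 + 2 * 0 + 4) ^ (2 - 1) * 2 - 4 * (((2:ℕ) : ℝ) * 0 ^ (2 - 1))) 0 :=
      (h1.pow 2).sub ((hasDerivAt_pow 2 (0:ℝ)).const_mul 4)
    exact h.congr_deriv (by norm_num)
  have hs4 : Real.sqrt (((0:ℝ) ^ 2 + 2 * 0 + 4) ^ 2 - 4 * 0 ^ 2) = 4 := by
    rw [show ((0:ℝ) ^ 2 + 2 * 0 + 4) ^ 2 - 4 * 0 ^ 2 = 4 ^ 2 by norm_num]
    exact Real.sqrt_sq (by norm_num)
  have h3 : HasDerivAt (fun t : ℝ => Real.sqrt ((t ^ 2 + 2 * t + 4) ^ 2 - 4 * t ^ 2)) 2 0 := by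
    have h := h2.sqrt (by norm_num)
    refine h.congr_deriv ?_
    rw [hs4]
    norm_num
  have h4 : HasDerivAt (fun t : ℝ => SS (t : ℂ)) 2 0 := by
    have h5 : HasDerivAt (fun t : ℝ =>
      (t ^ 2 + 2 * t + 4 + Real.sqrt ((t ^ 2 + 2 * t + 4) ^ 2 - 4 * t ^ 2)) / 2) ((2 + 2) / 2) 0 :=
      (h1.add h3).div_const 2
    have : (fun t : ℝ => SS (t : ℂ)) = fun t : ℝ =>
      (t ^ 2 + 2 * t + 4 + Real.sqrt ((t ^ 2 + 2 * t + 4) ^ 2 - 4 * t ^ 2)) / 2 := funext e1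
    rw [this]
    exact h5.congr_deriv (by norm_num)
  have h6 := h4.rpow_const (p := q) (Or.inl (by
    have := SS_ge ((0:ℝ) : ℂ)
    linarith))
  have h7 : SS ((0:ℝ) : ℂ) = 4 := by
    rw [Complex.ofReal_zero, SS_zero]
  rw [h7] at h6
  exact h6

end Pool.Agent.K9h78.LP
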