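import Pool.Agent.K9h78.LP.EX

/-! Expansion of the explicit pair at `α = 0`. -/

set_option autoImplicit false
open MeasureTheory Finset Asymptotics Filter Topology

namespace Pool.Agent.K9h78.LP

theorem glob {E : ℂ → ℝ} {τ C : ℝ} (hτ : 0 ≤ τ) (h1 : ∀ z, |E z| ≤ C * (1 + ‖z‖) ^ τ)
    (h2 : E =O[𝓝 0] fun z => ‖z‖ ^ τ) : ∃ C', ∀ z, |E z| ≤ C' * ‖z‖ ^ τ := by
  obtain ⟨c, hc⟩ := h2.bound
  obtain ⟨r, hr, hr'⟩ := Metric.eventually_nhds_iff.1 hc
  have hC : 0 ≤ C := by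
    have := (abs_nonneg _).trans (h1 0)
    simpa using this
  refine ⟨max c (C * (1 + 1 / r) ^ τ), fun z => ?_⟩
  have hz0 : 0 ≤ ‖z‖ ^ τ := by positivity
  rcases lt_or_ge ‖z‖ r with hz | hz
  · have h3 := @hr' z (by simpa using hz)
    rw [Real.norm_eq_abs, Real.norm_of_nonneg hz0] at h3
    exact h3.trans (mul_le_mul_of_nonneg_right (le_max_left _ _) hz0)
  · have h3 : 1 + ‖z‖ ≤ (1 + 1 / r) * ‖z‖ := by
      have : 1 ≤ 1 / r * ‖z‖ := by
        rw [one_div, inv_mul_eq_div, le_div_iff₀ hr]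
        linarith
      linarith
    calc |E z| ≤ C * (1 + ‖z‖) ^ τ := h1 z
      _ ≤ C * ((1 + 1 / r) * ‖z‖) ^ τ := by
          refine mul_le_mul_of_nonneg_left (Real.rpow_le_rpow (by positivity) h3 hτ) hC
      _ = (C * (1 + 1 / r) ^ τ) * ‖z‖ ^ τ := by
          rw [Real.mul_rpow (by positivity) (norm_nonneg _)]
          ring
      _ ≤ _ := mul_le_mul_of_nonneg_right (le_max_right _ _) hz0

/-- the norm function of the pair -/
noncomputable def MM (p : ℝ) (z : ℂ) : ℝ := SS z ^ (p / 2) + ‖z‖ ^ p * SS z ^ (-(p / 2))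

theorem SSpow_cont (q : ℝ) : Continuous fun z => SS z ^ q :=
  SS_cont.rpow_const fun z => Or.inl (by have := SS_ge z; linarith)

theorem normpow_cont {p : ℝ} (hp : 0 < p) : Continuous fun z : ℂ => ‖z‖ ^ p :=
  Continuous.rpow_const (by fun_prop) fun _ => Or.inr hp.le

theorem MM_cont {p : ℝ} (hp : 0 < p) : Continuous (MM p) := by
  unfold MM
  exact (SSpow_cont _).add ((normpow_cont hp).mul (SSpow_cont _))

theorem MM_bound {p : ℝ} (hp : 0 < p) (z : ℂ) : |MM p z| ≤ (2 ^ p + 1) * (1 + ‖z‖) ^ p := by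
  have hS := SS_ge z
  have h0 : 0 ≤ MM p z := by unfold MM; positivity
  rw [abs_of_nonneg h0]
  unfold MM
  have h1 : SS z ^ (p / 2) ≤ 2 ^ p * (1 + ‖z‖) ^ p := by
    calc SS z ^ (p / 2) ≤ ((‖z‖ + 2) ^ 2) ^ (p / 2) :=
          Real.rpow_le_rpow (by linarith) (SS_le z) (by positivity)
      _ = (‖z‖ + 2) ^ p := by
          rw [← Real.rpow_natCast, ← Real.rpow_mul (by positivity)]
          congr 1
          push_cast
          ring
      _ ≤ (2 * (1 + ‖z‖)) ^ p :=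
          Real.rpow_le_rpow (by positivity) (by linarith [norm_nonneg z]) hp.le
      _ = _ := Real.mul_rpow (by norm_num) (by positivity)
  have h2 : ‖z‖ ^ p * SS z ^ (-(p / 2)) ≤ (1 + ‖z‖) ^ p := by
    have h3 : SS z ^ (-(p / 2)) ≤ 1 := Real.rpow_le_one_of_one_le_of_nonpos hS (by linarith)
    have h4 : ‖z‖ ^ p ≤ (1 + ‖z‖) ^ p :=
      Real.rpow_le_rpow (norm_nonneg _) (by linarith) hp.le
    have h5 : 0 ≤ ‖z‖ ^ p := by positivity
    have h6 : 0 ≤ SS z ^ (-(p / 2)) := by positivity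
    calc _ ≤ ‖z‖ ^ p * 1 := mul_le_mul_of_nonneg_left h3 h5
      _ ≤ _ := by linarith
  linarith

theorem partialSum_bound (P : FormalMultilinearSeries ℝ ℂ ℝ) {N : ℕ} {τ : ℝ}
    (hN : ∀ n, n < N → (n : ℝ) ≤ τ) :
    ∃ C, 0 ≤ C ∧ ∀ z, |P.partialSum N z| ≤ C * (1 + ‖z‖) ^ τ := by
  refine ⟨∑ n ∈ range N, ‖P n‖, sum_nonneg fun _ _ => norm_nonneg _, fun z => ?_⟩
  unfold FormalMultilinearSeries.partialSum
  rw [sum_mul]
  refine (abs_sum_le_sum_abs _ _).trans (sum_le_sum fun n hn => ?_)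
  have h1 := (P n).le_opNorm (fun _ => z)
  rw [prod_const, card_univ, Fintype.card_fin] at h1
  rw [← Real.norm_eq_abs]
  refine h1.trans (mul_le_mul_of_nonneg_left ?_ (norm_nonneg _))
  calc ‖z‖ ^ n ≤ (1 + ‖z‖) ^ n := pow_le_pow_left₀ (norm_nonneg _) (by linarith) n
    _ = (1 + ‖z‖) ^ (n : ℝ) := (Real.rpow_natCast _ _).symm
    _ ≤ _ := Real.rpow_le_rpow_of_exponent_le (by linarith [norm_nonneg z])
        (hN n (mem_range.1 hn))

theorem expansion {p : ℝ} (hp : 0 < p) :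
    ∃ (N : ℕ) (P : FormalMultilinearSeries ℝ ℂ ℝ) (L : ℂ →L[ℝ] ℝ) (c τ C : ℝ),
      L 1 ≠ 0 ∧ p + 1 < τ ∧ τ < p + 2 ∧ (∀ n, n < N → (n : ℝ) ≤ p + 1) ∧
      ∀ z, |MM p z - P.partialSum N z - ‖z‖ ^ p * (c + L z)| ≤ C * ‖z‖ ^ τ := by
  obtain ⟨P, hP⟩ := analytic_SSpow (p / 2)
  obtain ⟨Q, hQ⟩ := analytic_SSpow (-(p / 2))
  set N := ⌊p⌋₊ + 2 with hN
  have hN1 : p + 1 < N := by
    have := Nat.lt_floor_add_one p
    rw [hN]
    push_cast
    linarith
  have hN2 : (N : ℝ) ≤ p + 2 := by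
    have := Nat.floor_le hp.le
    rw [hN]
    push_cast
    linarith
  set τ : ℝ := (p + 1 + N) / 2 with hτ
  have hτ1 : p + 1 < τ := by rw [hτ]; linarith
  have hτ2 : τ < p + 2 := by rw [hτ]; linarith
  have hτN : τ < N := by rw [hτ]; linarith
  set L : ℂ →L[ℝ] ℝ := continuousMultilinearCurryFin1 ℝ ℂ ℝ (Q 1) with hL
  have hLz : ∀ z, L z = Q 1 (fun _ => z) := by
    intro z
    rw [hL, continuousMultilinearCurryFin1_apply]
    congr 1
  set c : ℝ := Q 0 (fun _ => 0) with hc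
  have hQ2 : ∀ z, Q.partialSum 2 z = c + L z := by
    intro z
    unfold FormalMultilinearSeries.partialSum
    rw [sum_range_succ, sum_range_one, hLz, hc]
    congr 1
    congr 1
    exact Subsingleton.elim _ _
  have hPO := hP.isBigO_sub_partialSum_pow N
  have hQO := hQ.isBigO_sub_partialSum_pow 2
  simp only [zero_add] at hPO hQO
  have hL1 : L 1 ≠ 0 := by
    have h1 : HasFDerivAt (fun z => SS z ^ (-(p / 2))) L ((0 : ℝ) : ℂ) := by
      rw [Complex.ofReal_zero]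
      exact hQ.hasFDerivAt
    have h2 : HasDerivAt (fun t : ℝ => (t : ℂ)) 1 0 := Complex.ofRealCLM.hasDerivAt
    have h3 := h1.comp_hasDerivAt (0:ℝ) h2
    have h4 := h3.unique (deriv_real (-(p / 2)))
    rw [h4]
    have : (4:ℝ) ^ (-(p / 2) - 1) ≠ 0 := (Real.rpow_pos_of_pos (by norm_num) _).ne'
    have hp' : -(p / 2) ≠ 0 := by
      have : p / 2 ≠ 0 := by positivity
      simpa using this
    exact mul_ne_zero (mul_ne_zero two_ne_zero hp') this
  have hNp : ∀ n, n < N → (n : ℝ) ≤ p + 1 := by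
    intro n hn
    have : (n : ℝ) + 1 ≤ N := by exact_mod_cast hn
    linarith
  obtain ⟨C1, hC1, hC1'⟩ := partialSum_bound P (τ := τ) (fun n hn => (hNp n hn).trans hτ1.le)
  have hglob : ∃ C', ∀ z, |MM p z - P.partialSum N z - ‖z‖ ^ p * (c + L z)| ≤ C' * ‖z‖ ^ τ := by
    refine glob (C := (2 ^ p + 1) + C1 + (|c| + ‖L‖)) (by linarith) (fun z => ?_) ?_
    · have hz1 : 1 ≤ 1 + ‖z‖ := by linarith [norm_nonneg z]
      have a1 : |MM p z| ≤ (2 ^ p + 1) * (1 + ‖z‖) ^ τ :=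
        (MM_bound hp z).trans (mul_le_mul_of_nonneg_left
          (Real.rpow_le_rpow_of_exponent_le hz1 (by linarith)) (by positivity))
      have a2 := hC1' z
      have a3 : |‖z‖ ^ p * (c + L z)| ≤ (|c| + ‖L‖) * (1 + ‖z‖) ^ τ := by
        rw [abs_mul, abs_of_nonneg (by positivity)]
        have b1 : |c + L z| ≤ (|c| + ‖L‖) * (1 + ‖z‖) := by
          have := L.le_opNorm z
          rw [Real.norm_eq_abs] at this
          calc |c + L z| ≤ |c| + |L z| := abs_add_le _ _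
            _ ≤ |c| + ‖L‖ * ‖z‖ := by linarith
            _ ≤ _ := by nlinarith [abs_nonneg c, norm_nonneg L, norm_nonneg z,
                mul_nonneg (abs_nonneg c) (norm_nonneg z)]
        have b2 : ‖z‖ ^ p ≤ (1 + ‖z‖) ^ p :=
          Real.rpow_le_rpow (norm_nonneg _) (by linarith) hp.le
        calc ‖z‖ ^ p * |c + L z| ≤ (1 + ‖z‖) ^ p * ((|c| + ‖L‖) * (1 + ‖z‖)) :=
              mul_le_mul b2 b1 (abs_nonneg _) (by positivity)
          _ = (|c| + ‖L‖) * (1 + ‖z‖) ^ (p + 1) := by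
              rw [Real.rpow_add (by linarith), Real.rpow_one]
              ring
          _ ≤ _ := mul_le_mul_of_nonneg_left
              (Real.rpow_le_rpow_of_exponent_le hz1 (by linarith)) (by positivity)
      calc |MM p z - P.partialSum N z - ‖z‖ ^ p * (c + L z)|
          ≤ |MM p z| + |P.partialSum N z| + |‖z‖ ^ p * (c + L z)| := by
            refine (abs_sub _ _).trans ?_
            have := abs_sub (MM p z) (P.partialSum N z)
            linarith
        _ ≤ _ := by nlinarith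
    · have e1 : (fun z => MM p z - P.partialSum N z - ‖z‖ ^ p * (c + L z)) = fun z =>
          (SS z ^ (p / 2) - P.partialSum N z) +
            ‖z‖ ^ p * (SS z ^ (-(p / 2)) - Q.partialSum 2 z) := by
        ext z
        rw [hQ2]
        unfold MM
        ring
      rw [e1]
      have hle : ∀ᶠ z : ℂ in 𝓝 0, ‖z‖ ≤ 1 := by
        filter_upwards [Metric.closedBall_mem_nhds (0:ℂ) one_pos] with z hz
        simpa using hz
      have o1 : (fun z : ℂ => ‖z‖ ^ N) =O[𝓝 0] fun z => ‖z‖ ^ τ := by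
        refine IsBigO.of_bound 1 ?_
        filter_upwards [hle] with z hz
        rw [one_mul, Real.norm_of_nonneg (by positivity), Real.norm_of_nonneg (by positivity),
          ← Real.rpow_natCast]
        exact Real.rpow_le_rpow_of_exponent_ge' (norm_nonneg _) hz (by linarith) hτN.le
      have o2 : (fun z : ℂ => ‖z‖ ^ p * ‖z‖ ^ 2) =O[𝓝 0] fun z => ‖z‖ ^ τ := by
        refine IsBigO.of_bound 1 ?_
        filter_upwards [hle] with z hz
        rw [one_mul, Real.norm_of_nonneg (by positivity), Real.norm_of_nonneg (by positivity),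
          ← Real.rpow_natCast, ← Real.rpow_add_of_nonneg (norm_nonneg _) hp.le (by norm_num)]
        refine Real.rpow_le_rpow_of_exponent_ge' (norm_nonneg _) hz (by linarith) ?_
        push_cast
        exact hτ2.le
      refine (hPO.trans o1).add (IsBigO.trans ?_ o2)
      exact (isBigO_refl _ _).mul hQO
  obtain ⟨C', hC'⟩ := hglob
  exact ⟨N, P, L, c, τ, C', hL1, hτ1, hτ2, hNp, hC'⟩

end Pool.Agent.K9h78.LP
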