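import Pool.Agent.K9h78.LP.OpStm

/-!
# Spectral theorem for `M* M`, `M` compact
-/

set_option autoImplicit false

open Module.End

namespace Pool.Agent.K9h78.LP

theorem eig : S_EIG := by
  intro H _ _ _ M hM
  set T : H →L[ℂ] H := (ContinuousLinearMap.adjoint M) ∘L M with hTdef
  have hTa : ∀ x, T x = ContinuousLinearMap.adjoint M (M x) := fun x => rfl
  have hT : IsCompactOperator T := hM.clm_comp (ContinuousLinearMap.adjoint M)
  have hs : (T : H →ₗ[ℂ] H).IsSymmetric := by
    intro x y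
    change inner ℂ (ContinuousLinearMap.adjoint M (M x)) y =
      inner ℂ x (ContinuousLinearMap.adjoint M (M y))
    rw [ContinuousLinearMap.adjoint_inner_left, ContinuousLinearMap.adjoint_inner_right]
  have hE : ∀ μ : ℂ, CompleteSpace (eigenspace (T : Module.End ℂ H) μ) := by
    intro μ
    have h1 : IsClosed ((eigenspace (T : Module.End ℂ H) μ : Submodule ℂ H) : Set H) := by
      have h2 : ((eigenspace (T : Module.End ℂ H) μ : Submodule ℂ H) : Set H) =
          {x | T x = μ • x} := by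
        ext x
        exact mem_eigenspace_iff
      rw [h2]
      exact isClosed_eq T.continuous (continuous_const_smul μ)
    exact h1.completeSpace_coe
  have hb : ∀ μ : ℂ, ∃ (w : Set (eigenspace (T : Module.End ℂ H) μ))
      (b : HilbertBasis w ℂ (eigenspace (T : Module.End ℂ H) μ)), ⇑b = ((↑) : w → _) := by
    intro μ
    haveI := hE μ
    exact exists_hilbertBasis ℂ (eigenspace (T : Module.End ℂ H) μ)
  choose w b _ using hb
  have hon : Orthonormal ℂ (fun a : Σ μ : ℂ, w μ =>
      ((b a.1 a.2 : eigenspace (T : Module.End ℂ H) a.1) : H)) :=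
    hs.orthogonalFamily_eigenspaces.orthonormal_sigma_orthonormal (fun μ => (b μ).orthonormal)
  have hsp : (Submodule.span ℂ (Set.range (fun a : Σ μ : ℂ, w μ =>
      ((b a.1 a.2 : eigenspace (T : Module.End ℂ H) a.1) : H))))ᗮ = ⊥ := by
    rw [eq_bot_iff]
    intro x hx
    rw [← ContinuousLinearMap.orthogonalComplement_iSup_eigenspaces_eq_bot hT hs,
      Submodule.mem_orthogonal']
    have h1 : (⨆ μ, eigenspace (T : Module.End ℂ H) μ) ≤ LinearMap.ker (innerSL ℂ x).toLinearMap := by
      refine iSup_le fun μ u hu => ?_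
      rw [LinearMap.mem_ker]
      have h2 := ((innerSL ℂ x) ∘L (eigenspace (T : Module.End ℂ H) μ).subtypeL).hasSum
        ((b μ).hasSum_repr ⟨u, hu⟩)
      have h3 : ∀ i, ((innerSL ℂ x) ∘L (eigenspace (T : Module.End ℂ H) μ).subtypeL)
          ((b μ).repr ⟨u, hu⟩ i • (b μ) i) = 0 := by
        intro i
        rw [map_smul]
        have h4 : inner ℂ x ((b μ i : eigenspace (T : Module.End ℂ H) μ) : H) = 0 := by
          refine (Submodule.mem_orthogonal' _ _).1 hx _ (Submodule.subset_span ⟨⟨μ, i⟩, rfl⟩)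
        change _ • inner ℂ x ((b μ i : eigenspace (T : Module.End ℂ H) μ) : H) = 0
        rw [h4, smul_zero]
      have h6 : HasSum (fun i => ((innerSL ℂ x) ∘L (eigenspace (T : Module.End ℂ H) μ).subtypeL)
          ((b μ).repr ⟨u, hu⟩ i • (b μ) i)) 0 := by
        rw [funext h3]
        exact hasSum_zero
      exact h2.unique h6
    intro u hu
    exact h1 hu
  refine ⟨Σ μ : ℂ, w μ, HilbertBasis.mkOfOrthogonalEqBot hon hsp,
    fun a => ‖M ((b a.1 a.2 : eigenspace (T : Module.End ℂ H) a.1) : H)‖ ^ 2, fun a => ?_⟩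
  rw [HilbertBasis.coe_mkOfOrthogonalEqBot]
  refine ⟨sq_nonneg _, ?_⟩
  have h1 : T ((b a.1 a.2 : eigenspace (T : Module.End ℂ H) a.1) : H) =
      a.1 • ((b a.1 a.2 : eigenspace (T : Module.End ℂ H) a.1) : H) :=
    mem_eigenspace_iff.1 (b a.1 a.2).2
  have h2 : ‖((b a.1 a.2 : eigenspace (T : Module.End ℂ H) a.1) : H)‖ = 1 := hon.1 a
  set v : H := ((b a.1 a.2 : eigenspace (T : Module.End ℂ H) a.1) : H) with hv
  have h3 : inner ℂ v (T v) = a.1 := by
    rw [h1, inner_smul_right, inner_self_eq_norm_sq_to_K, h2]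
    simp
  have h4 : inner ℂ v (T v) = ((‖M v‖ ^ 2 : ℝ) : ℂ) := by
    rw [hTa, ContinuousLinearMap.adjoint_inner_right, inner_self_eq_norm_sq_to_K]
    simp
  change T v = ((‖M v‖ ^ 2 : ℝ) : ℂ) • v
  rw [← h4, h3, h1]

end Pool.Agent.K9h78.LP
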