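import Mathlib

/-! Finite differences of powers. -/

set_option autoImplicit false
open MeasureTheory Finset fwdDiff

namespace Pool.Agent.K9h78.LP

/-- `q (q-1) ⋯ (q-k+1)` -/
noncomputable def ffr : ℝ → ℕ → ℝ
  | _, 0 => 1
  | q, k + 1 => q * ffr (q - 1) k

theorem ffr_ne_zero (k : ℕ) : ∀ q : ℝ, (∀ n : ℕ, q ≠ n) → ffr q k ≠ 0 := by
  induction k with
  | zero => intro q _; simp [ffr]
  | succ k ih =>
    intro q hq
    simp only [ffr]
    refine mul_ne_zero (by simpa using hq 0) (ih _ fun n hn => hq (n + 1) ?_)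
    push_cast
    linarith

theorem hasDeriv_fd (k : ℕ) (q : ℝ) {h : ℝ} (hh : 0 ≤ h) {x : ℝ} (hx : 0 < x) :
    HasDerivAt (fun y => ((fwdDiff h)^[k] (fun x : ℝ => x ^ q)) y)
      (q * ((fwdDiff h)^[k] (fun x : ℝ => x ^ (q - 1))) x) x := by
  simp_rw [fwdDiff_iter_eq_sum_shift]
  rw [mul_sum]
  refine HasDerivAt.fun_sum fun i _ => ?_
  have hpos : 0 < x + i • h := by
    have : 0 ≤ (i : ℕ) • h := nsmul_nonneg hh i
    linarith
  have h1 : HasDerivAt (fun y : ℝ => (y + i • h) ^ q) (q * (x + i • h) ^ (q - 1)) x := by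
    have h2 : HasDerivAt (fun y : ℝ => y + i • h) 1 x := (hasDerivAt_id x).add_const _
    have h3 := h2.rpow_const (p := q) (Or.inl hpos.ne')
    convert h3 using 1
    ring
  have h4 := h1.const_mul (((-1 : ℤ) ^ (k - i) * (k.choose i : ℤ) : ℤ) : ℝ)
  have e1 : (fun y : ℝ => ((-1 : ℤ) ^ (k - i) * (k.choose i : ℤ)) • (y + i • h) ^ q) =
      fun y => (((-1 : ℤ) ^ (k - i) * (k.choose i : ℤ) : ℤ) : ℝ) * (y + i • h) ^ q := by
    ext y
    rw [zsmul_eq_mul]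
  have e2 : q * ((-1 : ℤ) ^ (k - i) * (k.choose i : ℤ)) • (x + i • h) ^ (q - 1) =
      (((-1 : ℤ) ^ (k - i) * (k.choose i : ℤ) : ℤ) : ℝ) * (q * (x + i • h) ^ (q - 1)) := by
    rw [zsmul_eq_mul]
    ring
  rw [e1, e2]
  exact h4

theorem fd_mvt (k : ℕ) : ∀ (q : ℝ) {h t : ℝ}, 0 < h → 0 < t →
    ∃ ξ, t ≤ ξ ∧ ξ ≤ t + k * h ∧
      ((fwdDiff h)^[k] (fun x : ℝ => x ^ q)) t = h ^ k * ffr q k * ξ ^ (q - k) := by
  induction k with
  | zero =>
    intro q h t hh ht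
    exact ⟨t, le_rfl, by simp, by simp [ffr]⟩
  | succ k ih =>
    intro q h t hh ht
    rw [Function.iterate_succ_apply']
    obtain ⟨c, hc, hc'⟩ := exists_hasDerivAt_eq_slope
      (fun y => ((fwdDiff h)^[k] (fun x : ℝ => x ^ q)) y)
      (fun x => q * ((fwdDiff h)^[k] (fun x : ℝ => x ^ (q - 1))) x) (a := t) (b := t + h) (by linarith)
      (fun x hx => (hasDeriv_fd k q hh.le (ht.trans_le hx.1)).continuousAt.continuousWithinAt)
      (fun x hx => hasDeriv_fd k q hh.le (ht.trans hx.1))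
    obtain ⟨ξ, h1, h2, h3⟩ := ih (q - 1) hh (ht.trans hc.1)
    refine ⟨ξ, hc.1.le.trans h1, ?_, ?_⟩
    · push_cast
      linarith [hc.2]
    · have e1 : (fwdDiff h ((fwdDiff h)^[k] fun x : ℝ => x ^ q)) t =
          ((fwdDiff h)^[k] fun x : ℝ => x ^ q) (t + h) - ((fwdDiff h)^[k] fun x : ℝ => x ^ q) t := rfl
      rw [e1]
      have e2 : t + h - t = h := by ring
      rw [e2, eq_div_iff hh.ne'] at hc'
      rw [← hc', h3]
      simp only [ffr]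
      have e3 : q - ((k + 1 : ℕ) : ℝ) = q - 1 - k := by push_cast; ring
      rw [e3]
      ring

/-- the coefficients -/
def cf (k i : ℕ) : ℝ := (-1) ^ (k - i) * (k.choose i)

/-- the difference -/
noncomputable def dd (k : ℕ) (q u v : ℝ) : ℝ :=
  ∑ i ∈ range (k + 1), cf k i * ((1 + i) * u + v) ^ q

theorem dd_eq (k : ℕ) (q u v : ℝ) : dd k q u v = ((fwdDiff u)^[k] (fun x : ℝ => x ^ q)) (u + v) := by
  unfold dd cf
  rw [fwdDiff_iter_eq_sum_shift]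
  refine sum_congr rfl fun i _ => ?_
  rw [zsmul_eq_mul, nsmul_eq_mul]
  push_cast
  congr 2
  ring

theorem dd_mvt (k : ℕ) (q : ℝ) {u v : ℝ} (hu : 0 < u) (hv : 0 ≤ v) :
    ∃ ξ, u + v ≤ ξ ∧ dd k q u v = u ^ k * ffr q k * ξ ^ (q - k) := by
  obtain ⟨ξ, h1, _, h3⟩ := fd_mvt k q hu (by linarith : 0 < u + v)
  exact ⟨ξ, h1, by rw [dd_eq, h3]⟩

theorem cf_pow (k j : ℕ) (hj : j < k) : ∑ i ∈ range (k + 1), cf k i * (1 + (i : ℝ)) ^ j = 0 := by
  have h1 := congrFun (fwdDiff_iter_pow_eq_zero_of_lt (R := ℝ) hj) 1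
  rw [fwdDiff_iter_eq_sum_shift] at h1
  rw [Pi.zero_apply] at h1
  rw [← h1]
  refine sum_congr rfl fun i _ => ?_
  unfold cf
  rw [zsmul_eq_mul, nsmul_eq_mul]
  push_cast
  ring

theorem dd_zero (k : ℕ) (hk : 0 < k) (q v : ℝ) : dd k q 0 v = 0 := by
  unfold dd
  have h1 := cf_pow k 0 hk
  simp only [pow_zero, mul_one] at h1
  simp only [mul_zero, zero_add]
  rw [← sum_mul, h1, zero_mul]

theorem dd_sign (k : ℕ) (hk : 0 < k) (q : ℝ) {u v : ℝ} (hu : 0 ≤ u) (hv : 0 ≤ v) :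
    0 ≤ ffr q k * dd k q u v := by
  rcases hu.eq_or_lt with h | h
  · rw [← h, dd_zero k hk, mul_zero]
  · obtain ⟨ξ, h1, h2⟩ := dd_mvt k q h hv
    rw [h2]
    have : ffr q k * (u ^ k * ffr q k * ξ ^ (q - k)) = ffr q k ^ 2 * (u ^ k * ξ ^ (q - k)) := by
      ring
    rw [this]
    have hξ : 0 < ξ := by linarith
    positivity

theorem dd_pos (k : ℕ) {q : ℝ} (hq : ∀ n : ℕ, q ≠ n) {u v : ℝ} (hu : 0 < u) (hv : 0 ≤ v) :
    0 < ffr q k * dd k q u v := by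
  obtain ⟨ξ, h1, h2⟩ := dd_mvt k q hu hv
  rw [h2]
  have : ffr q k * (u ^ k * ffr q k * ξ ^ (q - k)) = ffr q k ^ 2 * (u ^ k * ξ ^ (q - k)) := by
    ring
  rw [this]
  have hξ : 0 < ξ := by linarith
  have := ffr_ne_zero k q hq
  positivity

/-- homogeneity -/
theorem dd_hom (k : ℕ) (q : ℝ) {c u v : ℝ} (hc : 0 ≤ c) (hu : 0 ≤ u) (hv : 0 ≤ v) :
    dd k q (c * u) (c * v) = c ^ q * dd k q u v := by
  unfold dd
  rw [mul_sum]
  refine sum_congr rfl fun i _ => ?_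
  have : (1 + (i : ℝ)) * (c * u) + c * v = c * ((1 + i) * u + v) := by ring
  rw [this, Real.mul_rpow hc (by positivity)]
  ring

/-- upper bound -/
theorem dd_bound (k : ℕ) {q : ℝ} (hq : q ≤ k) {v : ℝ} (hv : 0 ≤ v) :
    |dd k q 1 v| ≤ |ffr q k| * (1 + v) ^ (q - k) := by
  obtain ⟨ξ, h1, h2⟩ := dd_mvt k q one_pos hv
  rw [h2, one_pow, one_mul, abs_mul]
  have hξ : 0 < ξ := by linarith
  rw [abs_of_pos (Real.rpow_pos_of_pos hξ _)]
  exact mul_le_mul_of_nonneg_left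
    (Real.rpow_le_rpow_of_nonpos (by linarith) h1 (by linarith)) (abs_nonneg _)

end Pool.Agent.K9h78.LP
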