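import Pool.Agent.K9h78.LP.KI
import Pool.Agent.K9h78.LP.FD

/-! The test function and the functional. -/

set_option autoImplicit false
open MeasureTheory Finset

namespace Pool.Agent.K9h78.LP

theorem wt_nonneg (p : ℝ) {a : ℝ} (ha : 0 ≤ a) (z : ℂ) : 0 ≤ wt p a z := by
  unfold wt
  positivity

theorem wt_cont (p : ℝ) {a : ℝ} (ha : 0 < a) : Continuous (wt p a) := by
  unfold wt
  refine Continuous.rpow_const (by fun_prop) fun z => Or.inl ?_
  have : 0 ≤ ‖z‖ ^ 2 := by positivity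
  linarith

theorem wt_le {p a : ℝ} (hp : 0 < p) (ha : 1 ≤ a) (z : ℂ) :
    wt p a z ≤ 2 ^ (2 + p / 2) * (1 + ‖z‖) ^ (-(4 + p)) := by
  unfold wt
  have h1 : (1 + ‖z‖) ^ 2 / 2 ≤ a + ‖z‖ ^ 2 := by nlinarith [sq_nonneg (1 - ‖z‖)]
  have h2 : 0 < (1 + ‖z‖) ^ 2 / 2 := by positivity
  refine (Real.rpow_le_rpow_of_nonpos h2 h1 (by linarith)).trans (le_of_eq ?_)
  rw [Real.div_rpow (by positivity) (by norm_num), ← Real.rpow_natCast,
    ← Real.rpow_mul (by positivity), Real.rpow_neg (by norm_num : (0:ℝ) ≤ 2), div_inv_eq_mul,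
    mul_comm]
  congr 2
  push_cast
  ring

/-- integrability of `wt * G` -/
theorem int_wt {p a : ℝ} (hp : 0 < p) (ha : 1 ≤ a) {G : ℂ → ℝ} (hG : AEStronglyMeasurable G volume)
    {C τ : ℝ} (hτ : τ < p + 2) (hb : ∀ z, |G z| ≤ C * (1 + ‖z‖) ^ τ) :
    Integrable (fun z => wt p a z * G z) volume := by
  have h1 : Integrable (fun z : ℂ => (1 + ‖z‖) ^ (-(4 + p - τ))) volume :=
    integrable_one_add_norm (by rw [Complex.finrank_real_complex]; push_cast; linarith)
  refine (h1.const_mul (2 ^ (2 + p / 2) * C)).mono'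
    ((wt_cont p (by linarith)).aestronglyMeasurable.mul hG) (Filter.Eventually.of_forall fun z => ?_)
  rw [norm_mul, Real.norm_of_nonneg (wt_nonneg p (by linarith) z), Real.norm_eq_abs]
  have h2 : (1 + ‖z‖) ^ (-(4 + p - τ)) = (1 + ‖z‖) ^ (-(4 + p)) * (1 + ‖z‖) ^ τ := by
    rw [← Real.rpow_add (by positivity)]
    congr 1
    ring
  rw [h2]
  calc wt p a z * |G z| ≤ (2 ^ (2 + p / 2) * (1 + ‖z‖) ^ (-(4 + p))) * (C * (1 + ‖z‖) ^ τ) :=
        mul_le_mul (wt_le hp ha z) (hb z) (abs_nonneg _) (by positivity)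
    _ = _ := by ring

/-- the test function -/
noncomputable def ph (p : ℝ) (k : ℕ) (z : ℂ) : ℝ :=
  ∑ i ∈ range (k + 1), cf k i * (1 + (i : ℝ)) ^ (1 + p / 2) * wt p (1 + i) z

theorem ph_cont (p : ℝ) (k : ℕ) : Continuous (ph p k) := by
  unfold ph
  exact continuous_finset_sum _ fun i _ => continuous_const.mul (wt_cont p (by positivity))

theorem ph_neg (p : ℝ) (k : ℕ) (z : ℂ) : ph p k (-z) = ph p k z := by
  unfold ph wt
  simp only [norm_neg]

theorem ph_norm (p : ℝ) (k : ℕ) {z w : ℂ} (h : ‖z‖ = ‖w‖) : ph p k z = ph p k w := by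
  unfold ph wt
  simp only [h]

theorem int_ph {p : ℝ} (hp : 0 < p) (k : ℕ) {G : ℂ → ℝ} (hG : AEStronglyMeasurable G volume)
    {C τ : ℝ} (hτ : τ < p + 2) (hb : ∀ z, |G z| ≤ C * (1 + ‖z‖) ^ τ) :
    Integrable (fun z => ph p k z * G z) volume := by
  have : (fun z => ph p k z * G z) = fun z => ∑ i ∈ range (k + 1),
      cf k i * (1 + (i : ℝ)) ^ (1 + p / 2) * (wt p (1 + i) z * G z) := by
    ext z
    unfold ph
    rw [sum_mul]
    exact sum_congr rfl fun i _ => by ring
  rw [this]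
  exact integrable_finset_sum _ fun i _ =>
    (int_wt hp (by simp) hG hτ hb).const_mul _

theorem ph_sum {p : ℝ} (hp : 0 < p) (k : ℕ) {G : ℂ → ℝ} (hG : AEStronglyMeasurable G volume)
    {C τ : ℝ} (hτ : τ < p + 2) (hb : ∀ z, |G z| ≤ C * (1 + ‖z‖) ^ τ) :
    ∫ z, ph p k z * G z = ∑ i ∈ range (k + 1),
      cf k i * (1 + (i : ℝ)) ^ (1 + p / 2) * ∫ z, wt p (1 + i) z * G z := by
  have : (fun z => ph p k z * G z) = fun z => ∑ i ∈ range (k + 1),
      cf k i * (1 + (i : ℝ)) ^ (1 + p / 2) * (wt p (1 + i) z * G z) := by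
    ext z
    unfold ph
    rw [sum_mul]
    exact sum_congr rfl fun i _ => by ring
  rw [this, integral_finset_sum _ fun i _ => (int_wt hp (by simp) hG hτ hb).const_mul _]
  exact sum_congr rfl fun i _ => integral_const_mul _ _

theorem norm_le_one_add (z : ℂ) (f g : ℂ) : ‖z * f + g‖ ≤ (‖f‖ + ‖g‖) * (1 + ‖z‖) := by
  calc ‖z * f + g‖ ≤ ‖z‖ * ‖f‖ + ‖g‖ := by
        refine (norm_add_le _ _).trans ?_
        rw [norm_mul]
    _ ≤ _ := by nlinarith [norm_nonneg z, norm_nonneg f, norm_nonneg g,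
        mul_nonneg (norm_nonneg z) (norm_nonneg g)]

theorem pow_bound {p : ℝ} (hp : 0 < p) (f g z : ℂ) :
    |‖z * f + g‖ ^ p| ≤ (‖f‖ + ‖g‖) ^ p * (1 + ‖z‖) ^ p := by
  rw [abs_of_nonneg (by positivity), ← Real.mul_rpow (by positivity) (by positivity)]
  exact Real.rpow_le_rpow (norm_nonneg _) (norm_le_one_add z f g) hp.le

theorem pow_cont {p : ℝ} (hp : 0 < p) (f g : ℂ) : Continuous fun z : ℂ => ‖z * f + g‖ ^ p :=
  Continuous.rpow_const (by fun_prop) fun _ => Or.inr hp.le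

/-- the kernel of the functional -/
theorem ph_kernel {p : ℝ} (hp : 0 < p) (k : ℕ) (f g : ℂ) :
    ∫ z, ph p k z * ‖z * f + g‖ ^ p = cp p * dd k (p / 2) (‖f‖ ^ 2) (‖g‖ ^ 2) := by
  rw [ph_sum hp k (pow_cont hp f g).aestronglyMeasurable (by linarith : p < p + 2)
    (fun z => pow_bound hp f g z)]
  unfold dd
  rw [mul_sum]
  refine sum_congr rfl fun i _ => ?_
  have h1 := ki p f g hp (by positivity : (0:ℝ) < 1 + (i : ℝ))
  have h2 : ∫ z, wt p (1 + i) z * ‖z * f + g‖ ^ p = ∫ z, ‖z * f + g‖ ^ p * wt p (1 + i) z := by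
    congr 1
    ext z
    ring
  rw [h2, h1]
  have h3 : (1 + (i : ℝ)) ^ (1 + p / 2) * (1 + (i : ℝ)) ^ (-(1 + p / 2)) = 1 := by
    rw [← Real.rpow_add (by positivity)]
    simp
  calc _ = ((1 + (i : ℝ)) ^ (1 + p / 2) * (1 + (i : ℝ)) ^ (-(1 + p / 2))) *
        (cf k i * cp p * ((1 + i) * ‖f‖ ^ 2 + ‖g‖ ^ 2) ^ (p / 2)) := by ring
    _ = _ := by rw [h3]; ring

/-- homogeneous functions of small degree are killed -/
theorem ph_kill {p : ℝ} (hp : 0 < p) {k : ℕ} (hk : p + 2 ≤ 2 * k) {j : ℕ} (hj : (j : ℝ) < p + 2)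
    {u : ℂ → ℝ} (hu : Continuous u) (hom : ∀ (t : ℝ) (z : ℂ), u (t • z) = t ^ j * u z)
    {C τ : ℝ} (hτ : τ < p + 2) (hb : ∀ z, |u z| ≤ C * (1 + ‖z‖) ^ τ) :
    ∫ z, ph p k z * u z = 0 := by
  rcases Nat.even_or_odd j with hev | hodd
  · obtain ⟨l, hl⟩ := hev
    rw [ph_sum hp k hu.aestronglyMeasurable hτ hb]
    have h1 : ∀ i : ℕ, ∫ z, wt p (1 + i) z * u z =
        (1 + (i : ℝ)) ^ ((l : ℝ) - 1 - p / 2) * ∫ z, wt p 1 z * u z := by
      intro i
      have ha : (0:ℝ) < 1 + i := by positivity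
      have h2 := Measure.integral_comp_smul (volume : Measure ℂ)
        (fun z : ℂ => wt p (1 + i) z * u z) (Real.sqrt (1 + i))
      have h3 : ∀ z : ℂ, wt p (1 + i) (Real.sqrt (1 + i) • z) * u (Real.sqrt (1 + i) • z) =
          ((1 + (i : ℝ)) ^ (-(2 + p / 2)) * (1 + (i:ℝ)) ^ l) * (wt p 1 z * u z) := by
        intro z
        rw [wt_scale p ha, hom]
        have : Real.sqrt (1 + i) ^ j = (1 + (i:ℝ)) ^ l := by
          rw [hl, ← two_mul, pow_mul, Real.sq_sqrt ha.le]
        rw [this]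
        ring
      simp_rw [h3] at h2
      rw [integral_const_mul, Complex.finrank_real_complex, Real.sq_sqrt ha.le,
        abs_of_nonneg (by positivity), smul_eq_mul] at h2
      have h4 : ∫ z, wt p (1 + i) z * u z = (1 + (i:ℝ)) *
          ((1 + (i : ℝ)) ^ (-(2 + p / 2)) * (1 + (i:ℝ)) ^ l * ∫ z, wt p 1 z * u z) := by
        rw [h2, ← mul_assoc, mul_inv_cancel₀ ha.ne', one_mul]
      rw [h4]
      have h5 : (1 + (i:ℝ)) * ((1 + (i : ℝ)) ^ (-(2 + p / 2)) * (1 + (i:ℝ)) ^ l) =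
          (1 + (i : ℝ)) ^ ((l : ℝ) - 1 - p / 2) := by
        nth_rw 1 [← Real.rpow_one (1 + (i:ℝ))]
        rw [← Real.rpow_natCast (1 + (i:ℝ)) l, ← Real.rpow_add ha, ← Real.rpow_add ha]
        congr 1
        ring
      rw [← h5]
      ring
    have hlk : l < k := by
      have h6 : ((l + l : ℕ) : ℝ) < 2 * k := by
        rw [← hl]
        linarith
      push_cast at h6
      have : (l : ℝ) < k := by linarith
      exact_mod_cast this
    have h7 := cf_pow k l hlk
    have h8 : ∀ i ∈ range (k + 1), cf k i * (1 + (i : ℝ)) ^ (1 + p / 2) *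
        ∫ z, wt p (1 + i) z * u z = (cf k i * (1 + (i:ℝ)) ^ l) * ∫ z, wt p 1 z * u z := by
      intro i _
      rw [h1 i]
      have ha : (0:ℝ) < 1 + i := by positivity
      have h9 : (1 + (i : ℝ)) ^ (1 + p / 2) * (1 + (i : ℝ)) ^ ((l : ℝ) - 1 - p / 2) =
          (1 + (i:ℝ)) ^ l := by
        rw [← Real.rpow_add ha, ← Real.rpow_natCast]
        congr 1
        ring
      rw [← h9]
      ring
    rw [sum_congr rfl h8, ← sum_mul, h7, zero_mul]
  · have h1 := integral_neg_eq_self (fun z : ℂ => ph p k z * u z) volume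
    have h2 : ∀ z : ℂ, ph p k (-z) * u (-z) = -(ph p k z * u z) := by
      intro z
      rw [ph_neg]
      have := hom (-1) z
      rw [hodd.neg_one_pow] at this
      have e : (-1 : ℝ) • z = -z := by simp
      rw [e] at this
      rw [this]
      ring
    simp_rw [h2] at h1
    rw [integral_neg] at h1
    linarith

/-- shifted multilinear forms are killed -/
theorem ph_kill_multi {p : ℝ} (hp : 0 < p) {k : ℕ} (hk : p + 2 ≤ 2 * k) {n : ℕ}
    (hn : (n : ℝ) < p + 2) (m : ContinuousMultilinearMap ℝ (fun _ : Fin n => ℂ) ℝ) (ε : ℝ) (δ : ℂ) :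
    ∫ z, ph p k z * m (fun _ => ε • (z + δ)) = 0 := by
  classical
  set us : Finset (Fin n) → ℂ → ℝ := fun s z =>
    m (s.piecewise (fun _ => z) (fun _ => δ)) with hus
  have hcont : ∀ s, Continuous (us s) := by
    intro s
    refine m.cont.comp (continuous_pi fun i => ?_)
    by_cases hi : i ∈ s
    · simp only [Finset.piecewise, hi, if_true]
      exact continuous_id
    · simp only [Finset.piecewise, hi, if_false]
      exact continuous_const
  have hhom : ∀ s (t : ℝ) (z : ℂ), us s (t • z) = t ^ s.card * us s z := by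
    intro s t z
    have h1 := m.map_piecewise_smul (fun _ => t) (s.piecewise (fun _ => z) (fun _ => δ)) s
    rw [prod_const, smul_eq_mul] at h1
    rw [hus]
    simp only
    rw [← h1]
    congr 1
    ext i
    by_cases hi : i ∈ s
    · simp [Finset.piecewise, hi]
    · simp [Finset.piecewise, hi]
  have hbd : ∀ s (z : ℂ), |us s z| ≤ (‖m‖ * (1 + ‖δ‖) ^ n) * (1 + ‖z‖) ^ (n : ℝ) := by
    intro s z
    rw [hus, Real.rpow_natCast, ← Real.norm_eq_abs]
    refine (m.le_opNorm _).trans ?_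
    rw [mul_assoc, ← mul_pow]
    refine mul_le_mul_of_nonneg_left ?_ (norm_nonneg _)
    calc ∏ i, ‖(s.piecewise (fun _ => z) (fun _ => δ) : Fin n → ℂ) i‖
        ≤ ∏ _i : Fin n, ((1 + ‖δ‖) * (1 + ‖z‖)) := by
          refine prod_le_prod (fun i _ => norm_nonneg _) fun i _ => ?_
          by_cases hi : i ∈ s
          · simp only [Finset.piecewise, hi, if_true]
            nlinarith [norm_nonneg z, norm_nonneg δ, mul_nonneg (norm_nonneg z) (norm_nonneg δ)]
          · simp only [Finset.piecewise, hi, if_false]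
            nlinarith [norm_nonneg z, norm_nonneg δ, mul_nonneg (norm_nonneg z) (norm_nonneg δ)]
      _ = _ := by simp
  have h1 : ∀ z : ℂ, ph p k z * m (fun _ => ε • (z + δ)) =
      ∑ s : Finset (Fin n), ε ^ n * (ph p k z * us s z) := by
    intro z
    have h2 : m (fun _ : Fin n => ε • (z + δ)) = ε ^ n * m (fun _ => z + δ) := by
      have := m.map_smul_univ (fun _ => ε) (fun _ => z + δ)
      simpa using this
    have h3 : m (fun _ : Fin n => z + δ) = ∑ s : Finset (Fin n), us s z := by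
      have := m.map_add_univ (fun _ => z) (fun _ => δ)
      exact this
    rw [h2, h3, mul_sum, mul_sum]
    exact sum_congr rfl fun s _ => by ring
  simp_rw [h1]
  rw [integral_finset_sum _ fun s _ =>
    (int_ph hp k (hcont s).aestronglyMeasurable hn (hbd s)).const_mul _]
  refine sum_eq_zero fun s _ => ?_
  rw [integral_const_mul, ph_kill hp hk (j := s.card) ?_ (hcont s) (hhom s) hn (hbd s), mul_zero]
  have : s.card ≤ n := by simpa using Finset.card_le_univ s
  have : (s.card : ℝ) ≤ n := by exact_mod_cast this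
  linarith

end Pool.Agent.K9h78.LP
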