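import Pool.Agent.K9h78.LP.OpStm

/-!
# The Hilbert-Schmidt norm does not depend on the basis, uniqueness of `tr |M|^p`
-/

set_option autoImplicit false

open MeasureTheory Filter Topology Matrix

namespace Pool.Agent.K9h78.LP

/-- Parseval in `[0, ∞]` -/
theorem hsb_pars {H : Type} [NormedAddCommGroup H] [InnerProductSpace ℂ H] [CompleteSpace H]
    {κ : Type} (e : HilbertBasis κ ℂ H) (x : H) :
    ENNReal.ofReal (‖x‖ ^ 2) = ∑' j, ENNReal.ofReal (‖(inner ℂ (e j) x : ℂ)‖ ^ 2) := by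
  have h1 := e.hasSum_inner_mul_inner x x
  have h2 : ∀ i, inner ℂ x (e i) * inner ℂ (e i) x =
      ((‖(inner ℂ (e i) x : ℂ)‖ ^ 2 : ℝ) : ℂ) := by
    intro i
    rw [← inner_conj_symm x (e i), ← Complex.normSq_eq_conj_mul_self, Complex.normSq_eq_norm_sq]
  simp only [h2] at h1
  have h3 : inner ℂ x x = ((‖x‖ ^ 2 : ℝ) : ℂ) := by
    rw [inner_self_eq_norm_sq_to_K]
    norm_cast
  rw [h3] at h1
  have h4 : HasSum (fun i => ‖(inner ℂ (e i) x : ℂ)‖ ^ 2) (‖x‖ ^ 2) := by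
    exact_mod_cast h1
  rw [← h4.tsum_eq]
  exact ENNReal.ofReal_tsum_of_nonneg (fun _ => by positivity) h4.summable

theorem hsb_adj {H : Type} [NormedAddCommGroup H] [InnerProductSpace ℂ H] [CompleteSpace H]
    {ι κ : Type} (b : HilbertBasis ι ℂ H) (e : HilbertBasis κ ℂ H) (W : H →L[ℂ] H) :
    ∑' i, ENNReal.ofReal (‖W (b i)‖ ^ 2) =
      ∑' j, ENNReal.ofReal (‖(ContinuousLinearMap.adjoint W) (e j)‖ ^ 2) := by
  have h1 : ∀ i, ENNReal.ofReal (‖W (b i)‖ ^ 2) =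
      ∑' j, ENNReal.ofReal (‖(inner ℂ (e j) (W (b i)) : ℂ)‖ ^ 2) := fun i => hsb_pars e _
  have h2 : ∀ j, ENNReal.ofReal (‖(ContinuousLinearMap.adjoint W) (e j)‖ ^ 2) =
      ∑' i, ENNReal.ofReal (‖(inner ℂ (e j) (W (b i)) : ℂ)‖ ^ 2) := by
    intro j
    rw [hsb_pars b]
    congr 1
    ext i
    rw [← inner_conj_symm, ContinuousLinearMap.adjoint_inner_left, RCLike.norm_conj]
  simp only [h1, h2]
  exact ENNReal.tsum_comm

theorem hsb : S_HSB := by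
  intro H _ _ _ ι κ b e W
  rw [hsb_adj b e W, hsb_adj e e W]

theorem uni : S_UNI := by
  intro H _ _ _ p M t t' ⟨ι, e, s, hs, ht⟩ ⟨κ, e', s', hs', ht'⟩
  have hinner : ∀ i j, (inner ℂ (e i) (e' j) : ℂ) ≠ 0 → s i = s' j := by
    intro i j hne
    have h1 : inner ℂ (ContinuousLinearMap.adjoint M (M (e i))) (e' j) =
        (inner ℂ (e i) (ContinuousLinearMap.adjoint M (M (e' j))) : ℂ) := by
      rw [ContinuousLinearMap.adjoint_inner_left, ContinuousLinearMap.adjoint_inner_right]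
    rw [(hs i).2, (hs' j).2, inner_smul_left, inner_smul_right, Complex.conj_ofReal] at h1
    exact_mod_cast mul_right_cancel₀ hne h1
  have h1 : ∀ i, ENNReal.ofReal (s i ^ (p / 2)) = ∑' j, ENNReal.ofReal (s i ^ (p / 2)) *
      ENNReal.ofReal (‖(inner ℂ (e' j) (e i) : ℂ)‖ ^ 2) := by
    intro i
    rw [ENNReal.tsum_mul_left, ← hsb_pars, e.orthonormal.1 i]
    norm_num
  have h2 : ∀ j, ENNReal.ofReal (s' j ^ (p / 2)) = ∑' i, ENNReal.ofReal (s i ^ (p / 2)) *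
      ENNReal.ofReal (‖(inner ℂ (e' j) (e i) : ℂ)‖ ^ 2) := by
    intro j
    have h3 : ∀ i, ENNReal.ofReal (s i ^ (p / 2)) *
      ENNReal.ofReal (‖(inner ℂ (e' j) (e i) : ℂ)‖ ^ 2) = ENNReal.ofReal (s' j ^ (p / 2)) *
      ENNReal.ofReal (‖(inner ℂ (e i) (e' j) : ℂ)‖ ^ 2) := by
      intro i
      have h4 : ‖(inner ℂ (e' j) (e i) : ℂ)‖ = ‖(inner ℂ (e i) (e' j) : ℂ)‖ := by
        rw [← inner_conj_symm, RCLike.norm_conj]
      rw [h4]
      by_cases hne : (inner ℂ (e i) (e' j) : ℂ) = 0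
      · rw [hne]
        simp
      · rw [hinner i j hne]
    simp only [h3]
    rw [ENNReal.tsum_mul_left, ← hsb_pars, e'.orthonormal.1 j]
    norm_num
  have h3 : ∑' i, ENNReal.ofReal (s i ^ (p / 2)) = ∑' j, ENNReal.ofReal (s' j ^ (p / 2)) := by
    simp only [h2]
    rw [ENNReal.tsum_comm]
    exact tsum_congr fun i => h1 i
  have p1 : ∀ i, 0 ≤ s i ^ (p / 2) := fun i => Real.rpow_nonneg (hs i).1 _
  have p2 : ∀ j, 0 ≤ s' j ^ (p / 2) := fun j => Real.rpow_nonneg (hs' j).1 _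
  rw [← ENNReal.ofReal_tsum_of_nonneg p1 ht.summable,
    ← ENNReal.ofReal_tsum_of_nonneg p2 ht'.summable, ht.tsum_eq, ht'.tsum_eq,
    ENNReal.ofReal_eq_ofReal_iff (ht.nonneg p1) (ht'.nonneg p2)] at h3
  exact h3

end Pool.Agent.K9h78.LP
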