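import Mathlib

/-!
# Operators of the Schatten class `S_p` (MP_41c25d_an): definition and statements of the leaves
-/

set_option autoImplicit false

open MeasureTheory Filter Topology Matrix

namespace Pool.Agent.K9h78.LP

/-- `M` belongs to the Schatten class `S_p` and `tr |M|^p = t`: there is an orthonormal basis `e` of the
Hilbert space which consists of eigenvectors of `M* M`, with the eigenvalues `s i ≥ 0`, and the sum of the
`(s i) ^ (p / 2)` is `t`. -/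
def HasTr {H : Type} [NormedAddCommGroup H] [InnerProductSpace ℂ H] [CompleteSpace H]
    (p : ℝ) (M : H →L[ℂ] H) (t : ℝ) : Prop :=
  ∃ (ι : Type) (e : HilbertBasis ι ℂ H) (s : ι → ℝ),
    (∀ i, 0 ≤ s i ∧ ContinuousLinearMap.adjoint M (M (e i)) = (s i : ℂ) • e i) ∧
    HasSum (fun i => s i ^ (p / 2)) t

/-- LEAF UNI (Uni.lean, `theorem uni : S_UNI`). The value is unique. Proof: let `(e, s)`, `(e', s')` be
two bases for `M` and `T = M* M`. If `⟨e i, e' j⟩ ≠ 0` then `s i = s' j` (`s i ⟨e i, e' j⟩ = ⟨T e i, e' j⟩ =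
⟨e i, T e' j⟩ = s' j ⟨e i, e' j⟩`). So in `[0, ∞]`, `∑ i, (s i)^(p/2) = ∑ i, ∑ j, (s i)^(p/2) |⟨e i, e' j⟩|²
= ∑ j, ∑ i, (s' j)^(p/2) |⟨e i, e' j⟩|² = ∑ j, (s' j)^(p/2)` (Parseval, `ENNReal.tsum_comm`). Cf. `hpars`
in `Pool/Agent/K9h78/LP/Ops2.lean` for Parseval in `ENNReal`. -/
def S_UNI : Prop := ∀ (H : Type) [NormedAddCommGroup H] [InnerProductSpace ℂ H] [CompleteSpace H]
  (p : ℝ) (M : H →L[ℂ] H) (t t' : ℝ), HasTr p M t → HasTr p M t' → t = t'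

/-- LEAF HSB (Hsb.lean, `theorem hsb : S_HSB`). The Hilbert-Schmidt norm does not depend on the basis.
Proof: both sides are `∑ j, ‖W* (e j)‖²`: `∑ i ‖W (b i)‖² = ∑ i ∑ j |⟨e j, W (b i)⟩|² =
∑ j ∑ i |⟨W* (e j), b i⟩|² = ∑ j ‖W* (e j)‖²`; the same with `b` replaced by `e`. -/
def S_HSB : Prop := ∀ (H : Type) [NormedAddCommGroup H] [InnerProductSpace ℂ H] [CompleteSpace H]
  (ι κ : Type) (b : HilbertBasis ι ℂ H) (e : HilbertBasis κ ℂ H) (W : H →L[ℂ] H),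
  ∑' i, ENNReal.ofReal (‖W (b i)‖ ^ 2) = ∑' j, ENNReal.ofReal (‖W (e j)‖ ^ 2)

/-- LEAF CPT (Cpt.lean, `theorem cpt : S_CPT`). Compactness. Proof: let `P n y = ∑ l < n, ⟨b l, y⟩ b l`
(as a continuous linear map). For `‖v‖ ≤ 1` put `w = v - P n v`, `‖w‖ ≤ 1`; then `‖M v - M (P n v)‖^k =
‖M w‖^k ≤ ‖W w‖`, and `‖W w‖ ≤ ∑_{l ≥ n} |⟨b l, v⟩| ‖W (b l)‖ ≤ (∑_{l ≥ n} ‖W (b l)‖²)^(1/2)` (or:
`W w` is the sum of the series of the `⟨b l, v⟩ W (b l)`, `l ≥ n`). So `M ∘ P n → M` in norm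
(`isCompactOperator_of_tendsto`), and `M ∘ P n` has finite rank. -/
def S_CPT : Prop := ∀ (H : Type) [NormedAddCommGroup H] [InnerProductSpace ℂ H] [CompleteSpace H]
  (b : HilbertBasis ℕ ℂ H) (M W : H →L[ℂ] H) (k : ℕ), k ≠ 0 → Summable (fun i => ‖W (b i)‖ ^ 2) →
  (∀ v : H, ‖v‖ ≤ 1 → ‖M v‖ ^ k ≤ ‖W v‖) → IsCompactOperator M

/-- LEAF EIG (Eig.lean, `theorem eig : S_EIG`). Spectral theorem for `M* M`, `M` compact. Proof: `T = M* M`
is compact and symmetric; by Mathlib (`Mathlib/Analysis/InnerProductSpace/Spectrum.lean`, line 443) the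
orthogonal complement of the sum of the eigenspaces is zero. Take a Hilbert basis of every eigenspace
(`exists_hilbertBasis`; index type in `Type`), put them together (`OrthogonalFamily.orthonormal_sigma_orthonormal`,
`HilbertBasis.mkOfOrthogonalEqBot`). The eigenvalue of `e i` is `s i = ‖M (e i)‖²`. -/
def S_EIG : Prop := ∀ (H : Type) [NormedAddCommGroup H] [InnerProductSpace ℂ H] [CompleteSpace H]
  (M : H →L[ℂ] H), IsCompactOperator M → ∃ (ι : Type) (e : HilbertBasis ι ℂ H) (s : ι → ℝ),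
    ∀ i, 0 ≤ s i ∧ ContinuousLinearMap.adjoint M (M (e i)) = (s i : ℂ) • e i

/-- LEAF OPM (Opm.lean, `theorem opm : S_OPM`). Matrices as operators. Proof: `op X y = ∑ i j, X i j ⟨b j, y⟩
b i` (`i`, `j : Fin n`). Then `(op X)* = op Xᴴ`, `op X ∘ op Y = op (X Y)`. For `Z = Xᴴ X = U diag(l) Uᴴ`
(`ops_spec` in Ops2.lean, the `l` there are the eigenvalues of `isHermitian_conjTranspose_mul_self X`)
take the basis with the index type `Fin n ⊕ ℕ`: `v (inl k) = ∑ i, U i k b i`, `v (inr k) = b (n + k)`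
(`HilbertBasis.mkOfOrthogonalEqBot`), with the eigenvalues `l k` and `0`. -/
def S_OPM : Prop := ∀ (H : Type) [NormedAddCommGroup H] [InnerProductSpace ℂ H] [CompleteSpace H]
  (_ : HilbertBasis ℕ ℂ H) (n : ℕ), ∃ op : Matrix (Fin n) (Fin n) ℂ → (H →L[ℂ] H),
    (∀ (X Y : Matrix (Fin n) (Fin n) ℂ) (α β : ℂ), op (α • X + β • Y) = α • op X + β • op Y) ∧
    ∀ p : ℝ, 0 < p → ∀ X : Matrix (Fin n) (Fin n) ℂ,
      HasTr p (op X) (∑ i, (isHermitian_conjTranspose_mul_self X).eigenvalues i ^ (p / 2))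

/-- LEAF TWO (Two.lean, `theorem two : S_TWO`, import Ops1). Proof: put `N n α β = ∑ i < n, ∑ j < n,
|α ⟨b j, A (b i)⟩ + β ⟨b j, B (b i)⟩|²`; this is a finite sum of squares, and `N n → ∑ i, ‖(α A + β B) (b i)‖²` in
`[0, ∞]`. Apply `ops_lc` with `k = 1` (see `six_yes` in Ops3.lean, the same proof with `k = 3`). -/
def S_TWO : Prop := ∀ (H : Type) [NormedAddCommGroup H] [InnerProductSpace ℂ H] [CompleteSpace H]
  (b : HilbertBasis ℕ ℂ H) (A B : H →L[ℂ] H), Summable (fun i => ‖A (b i)‖ ^ 2) →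
  Summable (fun i => ‖B (b i)‖ ^ 2) → ∃ (m : ℕ) (u v : Fin m → ℂ), ∀ α β : ℂ,
    HasSum (fun i => ‖(α • A + β • B) (b i)‖ ^ 2) (∑ i, ‖α * u i + β * v i‖ ^ 2)

end Pool.Agent.K9h78.LP
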