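import Pool.Agent.K9h78.LP.MN1

/-! The final argument. -/

set_option autoImplicit false
open MeasureTheory Finset Filter Topology

namespace Pool.Agent.K9h78.LP

theorem comp_bound {G : ℂ → ℝ} {C τ : ℝ} (hτ : 0 ≤ τ) (hC : 0 ≤ C)
    (h : ∀ w, |G w| ≤ C * (1 + ‖w‖) ^ τ) (ε : ℝ) (δ : ℂ) (z : ℂ) :
    |G (ε • (z + δ))| ≤ (C * (1 + |ε| * (1 + ‖δ‖)) ^ τ) * (1 + ‖z‖) ^ τ := by
  refine (h _).trans ?_
  rw [mul_assoc, ← Real.mul_rpow (by positivity) (by positivity)]
  refine mul_le_mul_of_nonneg_left (Real.rpow_le_rpow (by positivity) ?_ hτ) hC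
  rw [norm_smul, Real.norm_eq_abs]
  have h1 : ‖z + δ‖ ≤ ‖z‖ + ‖δ‖ := norm_add_le _ _
  have h2 := abs_nonneg ε
  have h3 := norm_nonneg z
  have h4 := norm_nonneg δ
  nlinarith [mul_le_mul_of_nonneg_left h1 h2, mul_nonneg h2 h3, mul_nonneg (mul_nonneg h2 h3) h4,
    mul_nonneg h2 h4]

theorem partialSum_cont (P : FormalMultilinearSeries ℝ ℂ ℝ) (N : ℕ) :
    Continuous fun z => P.partialSum N z := by
  unfold FormalMultilinearSeries.partialSum
  refine continuous_finset_sum _ fun n _ => (P n).cont.comp (continuous_pi fun _ => continuous_id)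

theorem kill_partialSum {p : ℝ} (hp : 0 < p) {k : ℕ} (hk : p + 2 ≤ 2 * k)
    (P : FormalMultilinearSeries ℝ ℂ ℝ) {N : ℕ} (hN : ∀ n, n < N → (n : ℝ) ≤ p + 1) (ε : ℝ) (δ : ℂ) :
    ∫ z, ph p k z * P.partialSum N (ε • (z + δ)) = 0 := by
  unfold FormalMultilinearSeries.partialSum
  simp_rw [mul_sum]
  have hint : ∀ n ∈ range N, Integrable
      (fun z => ph p k z * P n (fun _ => ε • (z + δ))) volume := by
    intro n hn
    have hn' := hN n (mem_range.1 hn)
    have hG : ∀ w : ℂ, |P n (fun _ => w)| ≤ ‖P n‖ * (1 + ‖w‖) ^ (n : ℝ) := by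
      intro w
      have h1 := (P n).le_opNorm (fun _ => w)
      rw [prod_const, card_univ, Fintype.card_fin] at h1
      rw [← Real.norm_eq_abs, Real.rpow_natCast]
      exact h1.trans (mul_le_mul_of_nonneg_left
        (pow_le_pow_left₀ (norm_nonneg _) (by linarith) n) (norm_nonneg _))
    refine int_ph hp k ?_ (by linarith : (n : ℝ) < p + 2)
      (comp_bound (by positivity) (norm_nonneg _) hG ε δ)
    refine Continuous.aestronglyMeasurable ((P n).cont.comp (continuous_pi fun _ => ?_))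
    fun_prop
  rw [integral_finset_sum _ hint]
  exact sum_eq_zero fun n hn => ph_kill_multi hp hk
    (by have := hN n (mem_range.1 hn); linarith) (P n) ε δ

theorem star {p : ℝ} (hp : 0 < p) {k : ℕ} (hk : p + 2 ≤ 2 * k) {N : ℕ}
    {P : FormalMultilinearSeries ℝ ℂ ℝ} {L : ℂ →L[ℝ] ℝ} {c τ C : ℝ} (hτ1 : p + 1 < τ)
    (hτ2 : τ < p + 2) (hN : ∀ n, n < N → (n : ℝ) ≤ p + 1)
    (hE : ∀ z, |MM p z - P.partialSum N z - ‖z‖ ^ p * (c + L z)| ≤ C * ‖z‖ ^ τ) {ε : ℝ} (hε : 0 < ε)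
    (δ : ℂ) :
    |(∫ z, ph p k z * MM p (ε • (z + δ))) - c * cp p * ε ^ p * dd k (p / 2) 1 (‖δ‖ ^ 2) -
      ε ^ (p + 1) * TL p k L δ| ≤ C * ε ^ τ * ∫ z, |ph p k z| * ‖z + δ‖ ^ τ := by
  have hC : 0 ≤ C := by
    have := (abs_nonneg _).trans (hE 1)
    simpa using this
  have haff : Continuous fun z : ℂ => ε • (z + δ) := by fun_prop
  -- integrability
  have i1 : Integrable (fun z => ph p k z * MM p (ε • (z + δ))) volume :=
    int_ph hp k ((MM_cont hp).comp haff).aestronglyMeasurable (by linarith : p < p + 2)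
      (comp_bound hp.le (by positivity) (MM_bound hp) ε δ)
  have i2 : Integrable (fun z => ph p k z * P.partialSum N (ε • (z + δ))) volume := by
    obtain ⟨C1, hC1, hC1'⟩ := partialSum_bound P (τ := p + 1) hN
    exact int_ph hp k ((partialSum_cont P N).comp haff).aestronglyMeasurable
      (by linarith : p + 1 < p + 2) (comp_bound (by linarith) hC1 hC1' ε δ)
  have b3 : ∀ w : ℂ, |‖w‖ ^ p * c| ≤ |c| * (1 + ‖w‖) ^ p := by
    intro w
    rw [abs_mul, abs_of_nonneg (a := ‖w‖ ^ p) (by positivity), mul_comm]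
    exact mul_le_mul_of_nonneg_left
      (Real.rpow_le_rpow (norm_nonneg _) (by linarith) hp.le) (abs_nonneg _)
  have i3 : Integrable (fun z => ph p k z * (‖ε • (z + δ)‖ ^ p * c)) volume :=
    int_ph hp k (G := fun z => ‖ε • (z + δ)‖ ^ p * c)
      ((((normpow_cont hp).mul continuous_const).comp haff).aestronglyMeasurable)
      (by linarith : p < p + 2) (comp_bound hp.le (abs_nonneg c) b3 ε δ)
  have b4 : ∀ w : ℂ, |‖w‖ ^ p * L w| ≤ ‖L‖ * (1 + ‖w‖) ^ (p + 1) := by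
    intro w
    have h2 : |L w| ≤ ‖L‖ * ‖w‖ := by
      have := L.le_opNorm w
      rwa [Real.norm_eq_abs] at this
    rw [abs_mul, abs_of_nonneg (a := ‖w‖ ^ p) (by positivity), Real.rpow_add (by positivity),
      Real.rpow_one]
    have h3 : ‖w‖ ^ p ≤ (1 + ‖w‖) ^ p := Real.rpow_le_rpow (norm_nonneg _) (by linarith) hp.le
    calc ‖w‖ ^ p * |L w| ≤ (1 + ‖w‖) ^ p * (‖L‖ * (1 + ‖w‖)) :=
          mul_le_mul h3 (h2.trans (mul_le_mul_of_nonneg_left (by linarith) (norm_nonneg _)))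
            (abs_nonneg _) (by positivity)
      _ = _ := by ring
  have i4 : Integrable (fun z => ph p k z * (‖ε • (z + δ)‖ ^ p * L (ε • (z + δ)))) volume :=
    int_ph hp k (G := fun z => ‖ε • (z + δ)‖ ^ p * L (ε • (z + δ)))
      ((((normpow_cont hp).mul L.continuous).comp haff).aestronglyMeasurable)
      (by linarith : p + 1 < p + 2) (comp_bound (by linarith) (norm_nonneg L) b4 ε δ)
  -- values
  have v2 := kill_partialSum hp hk P hN ε δ
  have v3 : ∫ z, ph p k z * (‖ε • (z + δ)‖ ^ p * c) =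
      c * cp p * ε ^ p * dd k (p / 2) 1 (‖δ‖ ^ 2) := by
    have h1 := ph_kernel hp k (ε • (1 : ℂ)) ((ε • δ) * 1)
    rw [dd_atom hε.le, norm_one, Real.one_rpow] at h1
    have h2 : (fun z => ph p k z * (‖ε • (z + δ)‖ ^ p * c)) = fun z =>
        c * (ph p k z * ‖z * (ε • (1 : ℂ)) + (ε • δ) * 1‖ ^ p) := by
      ext z
      have : ε • (z + δ) = z * (ε • (1 : ℂ)) + (ε • δ) * 1 := by
        simp only [Complex.real_smul]
        ring
      rw [this]
      ring
    rw [h2, integral_const_mul, h1]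
    ring
  have v4 : ∫ z, ph p k z * (‖ε • (z + δ)‖ ^ p * L (ε • (z + δ))) =
      ε ^ (p + 1) * TL p k L δ := by
    unfold TL
    rw [← integral_const_mul]
    congr 1
    ext z
    rw [norm_smul, Real.norm_of_nonneg hε.le, Real.mul_rpow hε.le (norm_nonneg _), map_smul,
      smul_eq_mul, Real.rpow_add hε, Real.rpow_one]
    ring
  have hsub : (∫ z, ph p k z * MM p (ε • (z + δ))) - c * cp p * ε ^ p * dd k (p / 2) 1 (‖δ‖ ^ 2) -
      ε ^ (p + 1) * TL p k L δ = ∫ z, ph p k z * (MM p (ε • (z + δ)) -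
        P.partialSum N (ε • (z + δ)) - ‖ε • (z + δ)‖ ^ p * (c + L (ε • (z + δ)))) := by
    have i12 : Integrable (fun z => ph p k z * MM p (ε • (z + δ)) -
        ph p k z * P.partialSum N (ε • (z + δ))) volume := i1.sub i2
    have i123 : Integrable (fun z => ph p k z * MM p (ε • (z + δ)) -
        ph p k z * P.partialSum N (ε • (z + δ)) - ph p k z * (‖ε • (z + δ)‖ ^ p * c)) volume :=
      i12.sub i3
    have e : (fun z => ph p k z * (MM p (ε • (z + δ)) -
        P.partialSum N (ε • (z + δ)) - ‖ε • (z + δ)‖ ^ p * (c + L (ε • (z + δ))))) = fun z =>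
        ph p k z * MM p (ε • (z + δ)) -
        ph p k z * P.partialSum N (ε • (z + δ)) - ph p k z * (‖ε • (z + δ)‖ ^ p * c) -
        ph p k z * (‖ε • (z + δ)‖ ^ p * L (ε • (z + δ))) := by
      ext z
      ring
    rw [e, integral_sub i123 i4, integral_sub i12 i3, integral_sub i1 i2, v2, v3, v4]
    ring
  rw [hsub]
  have hbint : Integrable (fun z => |ph p k z| * ‖z + δ‖ ^ τ) volume := by
    have h1 : ∀ w : ℂ, |‖w‖ ^ τ| ≤ 1 * (1 + ‖w‖) ^ τ := by
      intro w
      rw [abs_of_nonneg (by positivity), one_mul]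
      exact Real.rpow_le_rpow (norm_nonneg _) (by linarith) (by linarith)
    have h2 : Integrable (fun z => ph p k z * ‖z + δ‖ ^ τ) volume := by
      have := int_ph hp k (G := fun z => ‖(1:ℝ) • (z + δ)‖ ^ τ)
        (((Continuous.rpow_const (f := fun w : ℂ => ‖w‖) (by fun_prop)
          fun _ => Or.inr (by linarith)).comp (by fun_prop : Continuous fun z : ℂ =>
            (1:ℝ) • (z + δ))).aestronglyMeasurable) hτ2
        (comp_bound (by linarith) zero_le_one h1 1 δ)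
      simpa using this
    refine h2.abs.congr (Eventually.of_forall fun z => ?_)
    simp only
    rw [abs_mul, abs_of_nonneg (a := ‖z + δ‖ ^ τ) (by positivity)]
  rw [← integral_const_mul, ← Real.norm_eq_abs]
  refine norm_integral_le_of_norm_le (hbint.const_mul _) (Eventually.of_forall fun z => ?_)
  rw [norm_mul, Real.norm_eq_abs, Real.norm_eq_abs]
  have h1 := hE (ε • (z + δ))
  rw [norm_smul ε (z + δ), Real.norm_of_nonneg hε.le, Real.mul_rpow (z := τ) hε.le (norm_nonneg _)] at h1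
  rw [norm_smul ε (z + δ), Real.norm_of_nonneg hε.le]
  calc _ ≤ |ph p k z| * (C * (ε ^ τ * ‖z + δ‖ ^ τ)) := mul_le_mul_of_nonneg_left h1 (abs_nonneg _)
    _ = _ := by ring

theorem main {p : ℝ} (hp : 1 ≤ p) (hne : ∀ n : ℕ, p ≠ 2 * n) {μ : Measure ℝ} [SFinite μ]
    {f g : ℝ → ℂ} (hf : MemLp f (ENNReal.ofReal p) μ) (hg : MemLp g (ENNReal.ofReal p) μ)
    (h : ∀ z : ℂ, MM p z = ∫ t, ‖z * f t + g t‖ ^ p ∂μ) : False := by
  have hp0 : 0 < p := by linarith
  have hq : ∀ n : ℕ, p / 2 ≠ n := fun n hn => hne n (by linarith)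
  set k : ℕ := ⌈p⌉₊ + 2 with hkdef
  have hk : p + 2 ≤ 2 * k := by
    have := Nat.le_ceil p
    rw [hkdef]
    push_cast
    linarith
  obtain ⟨N, P, L, c, τ, C, hL, hτ1, hτ2, hN, hE⟩ := expansion hp0
  set K := ffr (p / 2) k with hK
  have hKne : K ≠ 0 := ffr_ne_zero k _ hq
  have hcp := cp_pos hp0
  set W : ℝ → ℂ → ℝ := fun ε δ =>
    ∫ t, dd k (p / 2) (‖ε • f t‖ ^ 2) (‖(ε • δ) * f t + g t‖ ^ 2) ∂μ with hW
  set D : ℂ → ℝ := fun δ => dd k (p / 2) 1 (‖δ‖ ^ 2) with hD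
  set T : ℂ → ℝ := TL p k L with hT
  set B : ℂ → ℝ := fun δ => ∫ z, |ph p k z| * ‖z + δ‖ ^ τ with hB
  set ρ : ℝ := ∫ t, rho p f g t ∂μ with hρ
  have hstar : ∀ (ε : ℝ), 0 < ε → ∀ δ : ℂ,
      |cp p * W ε δ - c * cp p * ε ^ p * D δ - ε ^ (p + 1) * T δ| ≤ C * ε ^ τ * B δ := by
    intro ε hε δ
    have h1 := star hp0 hk hτ1 hτ2 hN hE hε δ
    have h2 : ∫ z, ph p k z * MM p (ε • (z + δ)) = cp p * W ε δ := by
      have h3 := lp_side hp hf hg k ε δ
      rw [integral_const_mul] at h3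
      rw [← h3]
      congr 1
      ext z
      rw [h]
    rwa [h2] at h1
  have hT0 : T 0 = 0 := by
    have := TL_neg p k L 0
    rw [neg_zero] at this
    have h2 : T 0 = -T 0 := this
    linarith
  -- the mass at zero is `c`
  have hD0 : D 0 = dd k (p / 2) 1 0 := by
    simp only [hD]
    rw [norm_zero, show (0:ℝ) ^ 2 = 0 by norm_num]
  have hD0ne : D 0 ≠ 0 := by
    have := dd_pos k hq one_pos (le_refl (0:ℝ))
    rw [hD0]
    intro h0
    rw [h0, mul_zero] at this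
    exact lt_irrefl _ this
  have hρc : ρ = c := by
    have l1 := (atom_lim hp hf hg hk).const_mul (cp p)
    have l2 : Tendsto (fun ε : ℝ => cp p * (ε ^ (-p) *
        ∫ t, dd k (p / 2) (‖ε • f t‖ ^ 2) (‖g t‖ ^ 2) ∂μ) - c * cp p * D 0) (𝓝[>] 0)
        (𝓝 (cp p * (dd k (p / 2) 1 0 * ρ) - c * cp p * D 0)) := l1.sub_const _
    have l3 : Tendsto (fun ε : ℝ => C * B 0 * ε ^ (τ - p)) (𝓝[>] 0) (𝓝 0) := by
      have : Tendsto (fun ε : ℝ => ε ^ (τ - p)) (𝓝 0) (𝓝 ((0:ℝ) ^ (τ - p))) :=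
        (Real.continuousAt_rpow_const 0 (τ - p) (Or.inr (by linarith))).tendsto
      rw [Real.zero_rpow (by linarith)] at this
      have h2 : Tendsto (fun ε : ℝ => C * B 0 * ε ^ (τ - p)) (𝓝[>] 0) (𝓝 (C * B 0 * 0)) :=
        (this.mono_left nhdsWithin_le_nhds).const_mul (C * B 0)
      rwa [mul_zero] at h2
    have l4 : Tendsto (fun ε : ℝ => cp p * (ε ^ (-p) *
        ∫ t, dd k (p / 2) (‖ε • f t‖ ^ 2) (‖g t‖ ^ 2) ∂μ) - c * cp p * D 0) (𝓝[>] 0) (𝓝 0) := by
      refine squeeze_zero_norm' ?_ l3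
      filter_upwards [self_mem_nhdsWithin] with ε hε
      have hε' : 0 < ε := hε
      have h1 := hstar ε hε' 0
      rw [hT0, mul_zero, sub_zero] at h1
      have e1 : W ε 0 = ∫ t, dd k (p / 2) (‖ε • f t‖ ^ 2) (‖g t‖ ^ 2) ∂μ := by
        simp only [hW, smul_zero, zero_mul, zero_add]
      rw [← e1, Real.norm_eq_abs]
      have e2 : ε ^ (-p) * ε ^ p = 1 := by
        rw [← Real.rpow_add hε']
        simp
      have e3 : cp p * (ε ^ (-p) * W ε 0) - c * cp p * D 0 =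
          ε ^ (-p) * (cp p * W ε 0 - c * cp p * ε ^ p * D 0) := by
        linear_combination (c * cp p * D 0) * e2
      rw [e3, abs_mul, abs_of_nonneg (by positivity)]
      calc ε ^ (-p) * |cp p * W ε 0 - c * cp p * ε ^ p * D 0| ≤ ε ^ (-p) * (C * ε ^ τ * B 0) :=
            mul_le_mul_of_nonneg_left h1 (by positivity)
        _ = C * B 0 * (ε ^ τ * ε ^ (-p)) := by ring
        _ = C * B 0 * ε ^ (τ - p) := by
            rw [← Real.rpow_add hε']
            rfl
    have l5 := tendsto_nhds_unique l2 l4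
    rw [← hD0] at l5
    have l6 : (cp p * D 0) * (ρ - c) = 0 := by linear_combination l5
    rcases mul_eq_zero.1 l6 with h0 | h0
    · exact absurd h0 (mul_ne_zero hcp.ne' hD0ne)
    · linarith
  -- sign of the first order term
  have hsign : ∀ δ, 0 ≤ K * T δ := by
    intro δ
    have key : ∀ ε : ℝ, 0 < ε → -(|K| * (C * B δ)) * ε ^ (τ - p - 1) ≤ K * T δ := by
      intro ε hε
      have h1 := hstar ε hε δ
      have h2 := atom_le hp hf hg hk hε.le δ
      rw [← hρ, hρc] at h2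
      have h2' : K * (ε ^ p * D δ * c) ≤ K * W ε δ := h2
      have h3 : K * (cp p * W ε δ - c * cp p * ε ^ p * D δ - ε ^ (p + 1) * T δ) ≤
          |K| * (C * ε ^ τ * B δ) := by
        calc _ ≤ |K * (cp p * W ε δ - c * cp p * ε ^ p * D δ - ε ^ (p + 1) * T δ)| := le_abs_self _
          _ = |K| * |cp p * W ε δ - c * cp p * ε ^ p * D δ - ε ^ (p + 1) * T δ| := abs_mul _ _
          _ ≤ _ := mul_le_mul_of_nonneg_left h1 (abs_nonneg _)
      have h4 : 0 ≤ cp p * (K * W ε δ - K * (ε ^ p * D δ * c)) :=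
        mul_nonneg hcp.le (by linarith)
      have h5 : -(|K| * (C * ε ^ τ * B δ)) ≤ ε ^ (p + 1) * (K * T δ) := by nlinarith
      have h6 : ε ^ (p + 1) * (-(|K| * (C * B δ)) * ε ^ (τ - p - 1)) =
          -(|K| * (C * ε ^ τ * B δ)) := by
        have : ε ^ (p + 1) * ε ^ (τ - p - 1) = ε ^ τ := by
          rw [← Real.rpow_add hε]
          congr 1
          ring
        rw [← this]
        ring
      rw [← h6] at h5
      exact le_of_mul_le_mul_left h5 (Real.rpow_pos_of_pos hε _)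
    have l3 : Tendsto (fun ε : ℝ => -(|K| * (C * B δ)) * ε ^ (τ - p - 1)) (𝓝[>] 0) (𝓝 0) := by
      have : Tendsto (fun ε : ℝ => ε ^ (τ - p - 1)) (𝓝 0) (𝓝 ((0:ℝ) ^ (τ - p - 1))) :=
        (Real.continuousAt_rpow_const 0 (τ - p - 1) (Or.inr (by linarith))).tendsto
      rw [Real.zero_rpow (by linarith)] at this
      have h2 : Tendsto (fun ε : ℝ => -(|K| * (C * B δ)) * ε ^ (τ - p - 1)) (𝓝[>] 0)
          (𝓝 (-(|K| * (C * B δ)) * 0)) :=
        (this.mono_left nhdsWithin_le_nhds).const_mul (-(|K| * (C * B δ)))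
      rwa [mul_zero] at h2
    refine le_of_tendsto l3 ?_
    filter_upwards [self_mem_nhdsWithin] with ε hε
    exact key ε hε
  have hTz : ∀ δ, T δ = 0 := by
    intro δ
    have h1 := hsign δ
    have h2 := hsign (-δ)
    have h3 : T (-δ) = -T δ := TL_neg p k L δ
    rw [h3] at h2
    have h4 : K * T δ = 0 := by linarith
    rcases mul_eq_zero.1 h4 with h0 | h0
    · exact absurd h0 hKne
    · exact h0
  have h1 := TL_deriv hp0 k L
  rw [DF_int hp0] at h1
  have h2 : (fun t : ℝ => TL p k L (t : ℂ)) = fun _ => 0 := by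
    ext t
    exact hTz t
  rw [h2] at h1
  have h3 := h1.unique (hasDerivAt_const (0:ℝ) (0:ℝ))
  have h4 : (1 + p / 2) * L 1 * (cp p * dd k (p / 2) 1 0) ≠ 0 := by
    rw [← hD0]
    exact mul_ne_zero (mul_ne_zero (by positivity) hL) (mul_ne_zero hcp.ne' hD0ne)
  exact h4 h3

end Pool.Agent.K9h78.LP
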