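import Pool.Agent.K9h78.LP.P7
import Pool.Agent.K9h78.LP.MN2
import Pool.Agent.R260.SC.FinalP

/-! The exponents for which all pairs of `2 × 2` matrices embed, given `S_TK`. -/

set_option autoImplicit false
open MeasureTheory Finset Matrix

namespace Pool.Agent.K9h78.LP

/-- embedding of the complex span -/
def Emb {n : ℕ} (p : ℝ) (A B : Matrix (Fin n) (Fin n) ℂ) : Prop :=
  ∃ f g : ℝ → ℂ, MemLp f (ENNReal.ofReal p) (volume.restrict (Set.Ioo (0:ℝ) 1)) ∧
    MemLp g (ENNReal.ofReal p) (volume.restrict (Set.Ioo (0:ℝ) 1)) ∧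
    ∀ α β : ℂ, trPow p (α • A + β • B) =
      ∫ t in Set.Ioo (0:ℝ) 1, ‖α * f t + β * g t‖ ^ p

theorem emb_of_tk (htk : S_TK) {p : ℝ} (hp : p = 2 ∨ p = 4 ∨ p = 6)
    (A B : Matrix (Fin 2) (Fin 2) ℂ) : Emb p A B := by
  have h0 : 0 < p := by rcases hp with rfl | rfl | rfl <;> norm_num
  exact embed_of_rep h0 (rep_of_tk htk A B hp)

theorem class_two (htk : S_TK) (p : ℝ) (hp : 1 ≤ p) :
    (∀ A B : Matrix (Fin 2) (Fin 2) ℂ, Emb p A B) ↔ p = 2 ∨ p = 4 ∨ p = 6 := by
  constructor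
  · intro hall
    have h1 : ¬ ∀ n : ℕ, p ≠ 2 * n := by
      intro hne
      obtain ⟨f, g, hf, hg, h⟩ := hall !![1, 0; 0, 0] !![1, 1; 1, 1]
      refine Pool.Agent.K9h78.LP.main hp hne hf hg fun z => ?_
      have h2 := h z 1
      have h3 : trPow p (z • (!![1, 0; 0, 0] : Matrix (Fin 2) (Fin 2) ℂ) +
          (1 : ℂ) • !![1, 1; 1, 1]) = Pool.Agent.K9h78.LP.MM p z :=
        Pool.Agent.K9h78.LP.tr_formula p z
      rw [h3] at h2
      rw [h2]
      simp only [one_mul]
    by_contra hcon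
    push Not at hcon h1
    obtain ⟨h2, h4, h6⟩ := hcon
    obtain ⟨n, hn⟩ := h1
    rcases lt_or_ge p 8 with h8 | h8
    · have hn4 : n < 4 := by
        have : (n : ℝ) < 4 := by linarith
        exact_mod_cast this
      interval_cases n
      · norm_num at hn
        linarith
      · norm_num at hn
        exact h2 hn
      · norm_num at hn
        exact h4 hn
      · norm_num at hn
        exact h6 hn
    · exact Pool.Agent.R260.SC.all_no p h8 (hall 1 !![0, 1; 0, 0])
  · intro h A B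
    exact emb_of_tk htk h A B

end Pool.Agent.K9h78.LP
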