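import Pool.Agent.K9h78.LP.Ops3
import Pool.Agent.K9h78.LP.OpStm
import Pool.Agent.K9h78.LP.Hsb
import Pool.Agent.K9h78.LP.P8
import Pool.Agent.R260.SC.FinalF

/-!
# The classification for operators of `S_p`, from the leaves
-/

set_option autoImplicit false

open MeasureTheory Filter Topology Matrix

namespace Pool.Agent.K9h78.LP

theorem full_hasSum {ι : Type*} {f : ι → ℝ} (hf : ∀ i, 0 ≤ f i) {t : ℝ} (ht : 0 ≤ t)
    (h : ∑' i, ENNReal.ofReal (f i) = ENNReal.ofReal t) : HasSum f t := by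
  have hs : Summable f := by
    have := ENNReal.summable_toReal (h ▸ ENNReal.ofReal_ne_top)
    refine this.congr (fun i => ?_)
    rw [ENNReal.toReal_ofReal (hf i)]
  rw [← ENNReal.ofReal_tsum_of_nonneg hf hs,
    ENNReal.ofReal_eq_ofReal_iff (tsum_nonneg hf) ht] at h
  rw [← h]
  exact hs.hasSum

/-- `tr |M|^p` as the Hilbert-Schmidt norm of an operator `W` (`M`, `M* M`, `M M* M` for `p = 2, 4, 6`) -/
theorem full_iff (hcpt : S_CPT) (heig : S_EIG) {H : Type} [NormedAddCommGroup H]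
    [InnerProductSpace ℂ H] [CompleteSpace H] (b : HilbertBasis ℕ ℂ H) (M W : H →L[ℂ] H) (p : ℝ)
    (k : ℕ) (hk : k ≠ 0)
    (h1 : ∀ (e : H) (s : ℝ), 0 ≤ s → ‖e‖ = 1 →
      ContinuousLinearMap.adjoint M (M e) = (s : ℂ) • e → ‖W e‖ ^ 2 = s ^ (p / 2))
    (h2 : ∀ v : H, ‖v‖ ≤ 1 → ‖M v‖ ^ k ≤ ‖W v‖) (t : ℝ) :
    HasTr p M t ↔ HasSum (fun i => ‖W (b i)‖ ^ 2) t := by
  constructor
  · rintro ⟨ι, e, s, hs, ht⟩
    have e1 : ∀ j, ‖W (e j)‖ ^ 2 = s j ^ (p / 2) := fun j =>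
      h1 (e j) (s j) (hs j).1 (e.orthonormal.1 j) (hs j).2
    have p1 : ∀ j, 0 ≤ s j ^ (p / 2) := fun j => Real.rpow_nonneg (hs j).1 _
    have e2 : ∑' i, ENNReal.ofReal (‖W (b i)‖ ^ 2) = ENNReal.ofReal t := by
      rw [hsb H ℕ ι b e W]
      simp only [e1]
      rw [← ENNReal.ofReal_tsum_of_nonneg p1 ht.summable, ht.tsum_eq]
    exact full_hasSum (fun _ => by positivity) (ht.nonneg p1) e2
  · intro ht
    have hM : IsCompactOperator M := hcpt H b M W k hk ht.summable h2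
    obtain ⟨ι, e, s, hs⟩ := heig H M hM
    refine ⟨ι, e, s, hs, ?_⟩
    have e1 : ∀ j, ‖W (e j)‖ ^ 2 = s j ^ (p / 2) := fun j =>
      h1 (e j) (s j) (hs j).1 (e.orthonormal.1 j) (hs j).2
    have p1 : ∀ j, 0 ≤ s j ^ (p / 2) := fun j => Real.rpow_nonneg (hs j).1 _
    have e2 : ∑' i, ENNReal.ofReal (s i ^ (p / 2)) = ENNReal.ofReal t := by
      simp only [← e1]
      rw [← hsb H ℕ ι b e W, ← ENNReal.ofReal_tsum_of_nonneg (fun _ => by positivity) ht.summable,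
        ht.tsum_eq]
    exact full_hasSum p1 (ht.nonneg fun _ => by positivity) e2

theorem full_eigen {H : Type} [NormedAddCommGroup H] [InnerProductSpace ℂ H] [CompleteSpace H]
    (M : H →L[ℂ] H) (e : H) (s : ℝ) (he : ‖e‖ = 1)
    (h : ContinuousLinearMap.adjoint M (M e) = (s : ℂ) • e) : ‖M e‖ ^ 2 = s := by
  have e1 : (‖M e‖ ^ 2 : ℝ) = (inner ℂ e ((ContinuousLinearMap.adjoint M) (M e)) : ℂ).re := by
    rw [ContinuousLinearMap.adjoint_inner_right, inner_self_eq_norm_sq_to_K]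
    norm_cast
  rw [e1, h, inner_smul_right, inner_self_eq_norm_sq_to_K, he]
  norm_num

theorem full_norm_smul {H : Type} [NormedAddCommGroup H] [InnerProductSpace ℂ H] (s : ℝ)
    (hs : 0 ≤ s) (x : H) : ‖(s : ℂ) • x‖ = s * ‖x‖ := by
  rw [norm_smul, Complex.norm_real, Real.norm_eq_abs, abs_of_nonneg hs]

section

variable (hcpt : S_CPT) (heig : S_EIG) {H : Type} [NormedAddCommGroup H] [InnerProductSpace ℂ H]
  [CompleteSpace H] (b : HilbertBasis ℕ ℂ H) (M : H →L[ℂ] H) (t : ℝ)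

include hcpt heig

theorem full_iff2 : HasTr 2 M t ↔ HasSum (fun i => ‖M (b i)‖ ^ 2) t := by
  refine full_iff hcpt heig b M M 2 1 one_ne_zero (fun e s _ he h => ?_) (fun v _ => ?_) t
  · rw [full_eigen M e s he h]
    norm_num
  · rw [pow_one]

theorem full_iff4 : HasTr 4 M t ↔
    HasSum (fun i => ‖(ContinuousLinearMap.adjoint M) (M (b i))‖ ^ 2) t := by
  refine full_iff hcpt heig b M ((ContinuousLinearMap.adjoint M).comp M) 4 2 two_ne_zero
    (fun e s hs he h => ?_) (fun v hv => ?_) t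
  · rw [ContinuousLinearMap.comp_apply, h, full_norm_smul s hs, he, mul_one,
      show (4 : ℝ) / 2 = ((2 : ℕ) : ℝ) by norm_num, Real.rpow_natCast]
  · rw [ContinuousLinearMap.comp_apply]
    have e1 : (‖M v‖ ^ 2 : ℝ) = (inner ℂ v ((ContinuousLinearMap.adjoint M) (M v)) : ℂ).re := by
      rw [ContinuousLinearMap.adjoint_inner_right, inner_self_eq_norm_sq_to_K]
      norm_cast
    rw [e1]
    calc (inner ℂ v ((ContinuousLinearMap.adjoint M) (M v)) : ℂ).re
        ≤ ‖(inner ℂ v ((ContinuousLinearMap.adjoint M) (M v)) : ℂ)‖ := Complex.re_le_norm _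
      _ ≤ ‖v‖ * ‖(ContinuousLinearMap.adjoint M) (M v)‖ := norm_inner_le_norm _ _
      _ ≤ 1 * ‖(ContinuousLinearMap.adjoint M) (M v)‖ :=
          mul_le_mul_of_nonneg_right hv (norm_nonneg _)
      _ = _ := one_mul _

theorem full_iff6 : HasTr 6 M t ↔
    HasSum (fun i => ‖M ((ContinuousLinearMap.adjoint M) (M (b i)))‖ ^ 2) t := by
  refine full_iff hcpt heig b M (M.comp ((ContinuousLinearMap.adjoint M).comp M)) 6 3
    three_ne_zero (fun e s hs he h => ?_) (fun v hv => ?_) t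
  · rw [ContinuousLinearMap.comp_apply, ContinuousLinearMap.comp_apply, h, map_smul,
      full_norm_smul s hs, mul_pow, full_eigen M e s he h,
      show (6 : ℝ) / 2 = ((3 : ℕ) : ℝ) by norm_num, Real.rpow_natCast]
    ring
  · rw [ContinuousLinearMap.comp_apply, ContinuousLinearMap.comp_apply]
    have h1 := ops_jensen M v hv
    have h2 : (‖M v‖ ^ 3) ^ 2 ≤ ‖M ((ContinuousLinearMap.adjoint M) (M v))‖ ^ 2 := by
      rw [← pow_mul]
      exact h1
    exact le_of_sq_le_sq h2 (norm_nonneg _)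

end

/-- the property of Q1 for the exponent `p` and the Hilbert space `H` -/
def AllEmbed (H : Type) [NormedAddCommGroup H] [InnerProductSpace ℂ H] [CompleteSpace H]
    (p : ℝ) : Prop :=
  ∀ A B : H →L[ℂ] H, (∃ t, HasTr p A t) → (∃ t, HasTr p B t) →
    ∃ f g : ℝ → ℂ, MemLp f (ENNReal.ofReal p) (volume.restrict (Set.Ioo (0:ℝ) 1)) ∧
      MemLp g (ENNReal.ofReal p) (volume.restrict (Set.Ioo (0:ℝ) 1)) ∧
      ∀ α β : ℂ, HasTr p (α • A + β • B) (∫ t in Set.Ioo (0:ℝ) 1, ‖α * f t + β * g t‖ ^ p)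

theorem full_if (hcpt : S_CPT) (heig : S_EIG) (htwo : S_TWO) (hfin : FIN6) {H : Type}
    [NormedAddCommGroup H] [InnerProductSpace ℂ H] [CompleteSpace H] (b : HilbertBasis ℕ ℂ H)
    (p : ℝ) (hp : p = 2 ∨ p = 4 ∨ p = 6) : AllEmbed H p := by
  rintro A B ⟨t, hA⟩ ⟨t', hB⟩
  rcases hp with rfl | rfl | rfl
  · rw [full_iff2 hcpt heig b] at hA hB
    obtain ⟨m, u, v, h⟩ := htwo H b A B hA.summable hB.summable
    have hrep : Rep 2 (fun α β => ∑ i, ‖α * u i + β * v i‖ ^ 2) :=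
      ⟨m, u, v, fun α β => Finset.sum_congr rfl fun i _ => by
        exact_mod_cast (Real.rpow_natCast (‖α * u i + β * v i‖) 2).symm⟩
    obtain ⟨F, G, hF, hG, hFG⟩ := embed_of_rep (by norm_num : (0 : ℝ) < 2) hrep
    refine ⟨F, G, hF, hG, fun α β => ?_⟩
    rw [full_iff2 hcpt heig b, ← hFG]
    exact h α β
  · rw [full_iff4 hcpt heig b] at hA hB
    obtain ⟨F, G, hF, hG, h⟩ := Pool.Agent.R260.SC.four_yes b A B hA.summable hB.summable
    have h4 : ENNReal.ofReal 4 = 4 := by norm_num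
    refine ⟨F, G, ?_, ?_, fun α β => ?_⟩
    · rw [h4]; exact hF
    · rw [h4]; exact hG
    · rw [full_iff4 hcpt heig b]
      exact h α β
  · rw [full_iff6 hcpt heig b] at hA hB
    obtain ⟨m, u, v, h⟩ := six_yes hfin b A B hA.summable hB.summable
    have hrep : Rep 6 (fun α β => ∑ i, ‖α * u i + β * v i‖ ^ 6) :=
      ⟨m, u, v, fun α β => Finset.sum_congr rfl fun i _ => by
        exact_mod_cast (Real.rpow_natCast (‖α * u i + β * v i‖) 6).symm⟩
    obtain ⟨F, G, hF, hG, hFG⟩ := embed_of_rep (by norm_num : (0 : ℝ) < 6) hrep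
    refine ⟨F, G, hF, hG, fun α β => ?_⟩
    rw [full_iff6 hcpt heig b, ← hFG]
    exact h α β

theorem full_only (hopm : S_OPM) {H : Type} [NormedAddCommGroup H] [InnerProductSpace ℂ H]
    [CompleteSpace H] (b : HilbertBasis ℕ ℂ H) (p : ℝ) (hp : 1 ≤ p) (hall : AllEmbed H p) :
    p = 2 ∨ p = 4 ∨ p = 6 := by
  have hp0 : 0 < p := by linarith
  have hm : ∀ (n : ℕ) (A B : Matrix (Fin n) (Fin n) ℂ), ∃ f g : ℝ → ℂ,
      MemLp f (ENNReal.ofReal p) (volume.restrict (Set.Ioo (0:ℝ) 1)) ∧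
      MemLp g (ENNReal.ofReal p) (volume.restrict (Set.Ioo (0:ℝ) 1)) ∧
      ∀ α β : ℂ, ∑ i, (isHermitian_conjTranspose_mul_self (α • A + β • B)).eigenvalues i ^ (p / 2) =
        ∫ t in Set.Ioo (0:ℝ) 1, ‖α * f t + β * g t‖ ^ p := by
    intro n A B
    obtain ⟨op, hlin, hop⟩ := hopm H b n
    obtain ⟨f, g, hf, hg, h⟩ := hall (op A) (op B) ⟨_, hop p hp0 A⟩ ⟨_, hop p hp0 B⟩
    refine ⟨f, g, hf, hg, fun α β => ?_⟩
    have h1 := h α β
    rw [← hlin] at h1
    exact uni H p _ _ _ (hop p hp0 _) h1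
  -- the examples
  have h1 : ¬ ∀ n : ℕ, p ≠ 2 * n := by
    intro hne
    obtain ⟨f, g, hf, hg, h⟩ := hm 2 !![1, 0; 0, 0] !![1, 1; 1, 1]
    refine Pool.Agent.K9h78.LP.main hp hne hf hg fun z => ?_
    have h2 := h z 1
    have h3 : trPow p (z • (!![1, 0; 0, 0] : Matrix (Fin 2) (Fin 2) ℂ) +
        (1 : ℂ) • !![1, 1; 1, 1]) = Pool.Agent.K9h78.LP.MM p z :=
      Pool.Agent.K9h78.LP.tr_formula p z
    unfold trPow at h3
    rw [h3] at h2
    rw [h2]
    simp only [one_mul]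
  by_contra hcon
  push Not at hcon h1
  obtain ⟨h2, h4, h6⟩ := hcon
  obtain ⟨n, hn⟩ := h1
  rcases lt_or_ge p 8 with h8 | h8
  · have hn4 : n < 4 := by
      have : (n : ℝ) < 4 := by linarith
      exact_mod_cast this
    interval_cases n
    · norm_num at hn
      linarith
    · norm_num at hn
      exact h2 hn
    · norm_num at hn
      exact h4 hn
    · norm_num at hn
      exact h6 hn
  · exact Pool.Agent.R260.SC.all_no p h8 (hm 2 1 !![0, 1; 0, 0])

theorem full (hcpt : S_CPT) (heig : S_EIG) (htwo : S_TWO) (hopm : S_OPM) (hfin : FIN6) {H : Type}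
    [NormedAddCommGroup H] [InnerProductSpace ℂ H] [CompleteSpace H] (b : HilbertBasis ℕ ℂ H)
    (p : ℝ) (hp : 1 ≤ p) : AllEmbed H p ↔ p = 2 ∨ p = 4 ∨ p = 6 :=
  ⟨full_only hopm b p hp, full_if hcpt heig htwo hfin b p⟩

end Pool.Agent.K9h78.LP
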