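import Pool.Agent.K9h78.LP.OpStm

/-!
# Leaf OPM (MP_41c25d_an): matrices as operators
-/

set_option autoImplicit false

open MeasureTheory Filter Topology Matrix

namespace Pool.Agent.K9h78.LP

/-- The isometry of `ℂⁿ` onto the span of the first `n` vectors of a Hilbert basis. -/
theorem opm_J (H : Type) [NormedAddCommGroup H] [InnerProductSpace ℂ H] [CompleteSpace H]
    (b : HilbertBasis ℕ ℂ H) (n : ℕ) : ∃ J : EuclideanSpace ℂ (Fin n) →L[ℂ] H,
      (∀ x, ContinuousLinearMap.adjoint J (J x) = x) ∧
      (∀ k, ContinuousLinearMap.adjoint J (b (n + k)) = 0) ∧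
      (∀ x, ContinuousLinearMap.adjoint J x = 0 → (∀ k, inner ℂ (b (n + k)) x = 0) → x = 0) := by
  classical
  set e := EuclideanSpace.basisFun (Fin n) ℂ with he
  have hb : Orthonormal ℂ (fun i : Fin n => b i) :=
    b.orthonormal.comp (fun i : Fin n => (i : ℕ)) Fin.val_injective
  set J0 : EuclideanSpace ℂ (Fin n) →ₗ[ℂ] H := e.toBasis.constr ℂ (fun i : Fin n => b i) with hJ0
  have hJe : ∀ i, J0 (e i) = b i := by
    intro i
    have := Module.Basis.constr_basis e.toBasis ℂ (fun i : Fin n => b i) i
    rw [← hJ0, OrthonormalBasis.coe_toBasis] at this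
    exact this
  have hc : (J0 ∘ e.toBasis) = fun i : Fin n => b i := by
    funext i
    rw [Function.comp_apply, OrthonormalBasis.coe_toBasis]
    exact hJe i
  let J1 : EuclideanSpace ℂ (Fin n) →ₗᵢ[ℂ] H :=
    J0.isometryOfOrthonormal (v := e.toBasis) (by rw [OrthonormalBasis.coe_toBasis]; exact e.orthonormal)
      (by rw [hc]; exact hb)
  have hJ1 : ∀ x, J1 x = J0 x := fun x => rfl
  refine ⟨J1.toContinuousLinearMap, ?_, ?_, ?_⟩
  · intro x
    refine ext_inner_left ℂ fun y => ?_
    rw [ContinuousLinearMap.adjoint_inner_right]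
    exact J1.inner_map_map y x
  · intro k
    ext i
    have h1 : inner ℂ (e i) (ContinuousLinearMap.adjoint J1.toContinuousLinearMap (b (n + k))) = 0 := by
      rw [ContinuousLinearMap.adjoint_inner_right]
      have : J1.toContinuousLinearMap (e i) = b i := hJe i
      rw [this]
      have := b.orthonormal.2 (i := (i : ℕ)) (j := n + k) (by have := i.2; omega)
      exact this
    rw [he, EuclideanSpace.basisFun_inner] at h1
    exact h1
  · intro x hx hk
    have h1 : ∀ m, inner ℂ (b m) x = 0 := by
      intro m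
      by_cases hm : m < n
      · have : J1.toContinuousLinearMap (e ⟨m, hm⟩) = b m := hJe ⟨m, hm⟩
        rw [← this, ← ContinuousLinearMap.adjoint_inner_right, hx, inner_zero_right]
      · obtain ⟨k, rfl⟩ := Nat.exists_eq_add_of_le (not_lt.mp hm)
        exact hk k
    have h2 : b.repr x = 0 := by
      ext m
      rw [HilbertBasis.repr_apply_apply, h1 m]
      simp
    simpa using h2

/-- The eigenvector equation for `Xᴴ X`. -/
theorem opm_eig (n : ℕ) (X : Matrix (Fin n) (Fin n) ℂ) (k : Fin n) :
    ContinuousLinearMap.adjoint (toEuclideanCLM (n := Fin n) (𝕜 := ℂ) X)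
      (toEuclideanCLM (n := Fin n) (𝕜 := ℂ) X
        ((isHermitian_conjTranspose_mul_self X).eigenvectorBasis k)) =
    (((isHermitian_conjTranspose_mul_self X).eigenvalues k : ℝ) : ℂ) •
      (isHermitian_conjTranspose_mul_self X).eigenvectorBasis k := by
  have h1 : ContinuousLinearMap.adjoint (toEuclideanCLM (n := Fin n) (𝕜 := ℂ) X) =
      toEuclideanCLM (n := Fin n) (𝕜 := ℂ) Xᴴ := by
    have := map_star (toEuclideanCLM (n := Fin n) (𝕜 := ℂ)) X
    rw [← ContinuousLinearMap.star_eq_adjoint, ← this, star_eq_conjTranspose]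
  rw [h1]
  apply WithLp.ofLp_injective
  rw [ofLp_toEuclideanCLM, ofLp_toEuclideanCLM, mulVec_mulVec]
  have h2 := (isHermitian_conjTranspose_mul_self X).mulVec_eigenvectorBasis k
  rw [h2]
  ext i
  simp

theorem opm : S_OPM := by
  intro H _ _ _ b n
  classical
  obtain ⟨J, hJ1, hJ2, hJ3⟩ := opm_J H b n
  refine ⟨fun X => J ∘L (toEuclideanCLM (n := Fin n) (𝕜 := ℂ) X) ∘L
    ContinuousLinearMap.adjoint J, ?_, ?_⟩
  · intro X Y α β
    have h : toEuclideanCLM (n := Fin n) (𝕜 := ℂ) (α • X + β • Y) =
        α • toEuclideanCLM (n := Fin n) (𝕜 := ℂ) X + β • toEuclideanCLM (n := Fin n) (𝕜 := ℂ) Y := by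
      rw [map_add, map_smul, map_smul]
    ext x
    change J (toEuclideanCLM (n := Fin n) (𝕜 := ℂ) (α • X + β • Y) _) = _
    rw [h]
    simp
  · intro p hp X
    set hG := isHermitian_conjTranspose_mul_self X with hGdef
    set T := toEuclideanCLM (n := Fin n) (𝕜 := ℂ) X with hT
    have hadj : ∀ y, ContinuousLinearMap.adjoint (J ∘L T ∘L ContinuousLinearMap.adjoint J)
        ((J ∘L T ∘L ContinuousLinearMap.adjoint J) y) =
        J (ContinuousLinearMap.adjoint T (T (ContinuousLinearMap.adjoint J y))) := by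
      intro y
      rw [ContinuousLinearMap.adjoint_comp, ContinuousLinearMap.adjoint_comp,
        ContinuousLinearMap.adjoint_adjoint]
      simp [hJ1]
    let v : Fin n ⊕ ℕ → H := Sum.elim (fun k => J (hG.eigenvectorBasis k)) (fun k => b (n + k))
    have hv : Orthonormal ℂ v := by
      rw [orthonormal_iff_ite]
      have hor := orthonormal_iff_ite.mp hG.eigenvectorBasis.orthonormal
      have hbo := orthonormal_iff_ite.mp b.orthonormal
      rintro (i | i) (j | j)
      · change inner ℂ (J (hG.eigenvectorBasis i)) (J (hG.eigenvectorBasis j)) = _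
        rw [← ContinuousLinearMap.adjoint_inner_right, hJ1, hor i j]
        simp
      · change inner ℂ (J (hG.eigenvectorBasis i)) (b (n + j)) = _
        rw [← ContinuousLinearMap.adjoint_inner_right, hJ2]
        simp
      · change inner ℂ (b (n + i)) (J (hG.eigenvectorBasis j)) = _
        rw [← ContinuousLinearMap.adjoint_inner_left, hJ2]
        simp
      · change inner ℂ (b (n + i)) (b (n + j)) = _
        rw [hbo]
        simp
    have hsp : (Submodule.span ℂ (Set.range v))ᗮ = ⊥ := by
      rw [Submodule.eq_bot_iff]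
      intro x hx
      have hx' : ∀ i, inner ℂ (v i) x = 0 := fun i =>
        (Submodule.mem_orthogonal _ x).mp hx _ (Submodule.subset_span ⟨i, rfl⟩)
      refine hJ3 x ?_ fun k => hx' (Sum.inr k)
      rw [← hG.eigenvectorBasis.sum_repr' (ContinuousLinearMap.adjoint J x)]
      refine Finset.sum_eq_zero fun k _ => ?_
      rw [ContinuousLinearMap.adjoint_inner_right]
      have : inner ℂ (J (hG.eigenvectorBasis k)) x = 0 := hx' (Sum.inl k)
      rw [this, zero_smul]
    refine ⟨Fin n ⊕ ℕ, HilbertBasis.mkOfOrthogonalEqBot hv hsp,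
      Sum.elim hG.eigenvalues (fun _ => 0), ?_, ?_⟩
    · intro i
      rw [HilbertBasis.coe_mkOfOrthogonalEqBot]
      rcases i with k | k
      · refine ⟨eigenvalues_conjTranspose_mul_self_nonneg X k, ?_⟩
        change ContinuousLinearMap.adjoint (J ∘L T ∘L ContinuousLinearMap.adjoint J)
          ((J ∘L T ∘L ContinuousLinearMap.adjoint J) (J (hG.eigenvectorBasis k))) =
          ((hG.eigenvalues k : ℝ) : ℂ) • J (hG.eigenvectorBasis k)
        rw [hadj, hJ1, opm_eig n X k, map_smul]
      · refine ⟨le_rfl, ?_⟩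
        change ContinuousLinearMap.adjoint (J ∘L T ∘L ContinuousLinearMap.adjoint J)
          ((J ∘L T ∘L ContinuousLinearMap.adjoint J) (b (n + k))) =
          ((0 : ℝ) : ℂ) • b (n + k)
        rw [hadj, hJ2]
        simp
    · have hs := hasSum_sum_of_ne_finset_zero
        (f := fun i : Fin n ⊕ ℕ => (Sum.elim hG.eigenvalues (fun _ => (0 : ℝ)) i) ^ (p / 2))
        (s := Finset.univ.map (Function.Embedding.inl : Fin n ↪ Fin n ⊕ ℕ))
        (L := SummationFilter.unconditional _) (by
          rintro (k | k) hk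
          · exact absurd (by simp) hk
          · simp only [Sum.elim_inr]
            exact Real.zero_rpow (by positivity))
      rw [Finset.sum_map] at hs
      simpa using hs

end Pool.Agent.K9h78.LP
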