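import Pool.Agent.K9h78.LP.OpStm

/-!
# The case `p = 2` for operators: completing the square
-/

set_option autoImplicit false

open Filter Topology ComplexConjugate

namespace Pool.Agent.K9h78.LP

theorem two_key {H : Type} [NormedAddCommGroup H] [InnerProductSpace ℂ H]
    (x y : H) (α β : ℂ) : ‖α • x + β • y‖ ^ 2 =
      ‖α‖ ^ 2 * ‖x‖ ^ 2 + ‖β‖ ^ 2 * ‖y‖ ^ 2 + 2 * (conj β * α * inner ℂ y x).re := by
  have h := norm_add_sq (𝕜 := ℂ) (β • y) (α • x)
  rw [inner_smul_left, inner_smul_right, norm_smul, norm_smul, mul_pow, mul_pow, add_comm (β • y),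
    ← mul_assoc] at h
  rw [h]
  simp only [RCLike.re_to_complex]
  ring

theorem two : S_TWO := by
  intro H _ _ _ b A B hA hB
  obtain ⟨a, ha⟩ : ∃ a : ℝ, a = ∑' i, ‖A (b i)‖ ^ 2 := ⟨_, rfl⟩
  obtain ⟨d, hd⟩ : ∃ d : ℝ, d = ∑' i, ‖B (b i)‖ ^ 2 := ⟨_, rfl⟩
  obtain ⟨γ, hγ⟩ : ∃ γ : ℂ, γ = ∑' i, inner ℂ (B (b i)) (A (b i)) := ⟨_, rfl⟩
  have hs : Summable (fun i => inner ℂ (B (b i)) (A (b i))) := by
    refine Summable.of_norm_bounded (hA.add hB) fun i => ?_
    refine (norm_inner_le_norm _ _).trans ?_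
    nlinarith [sq_nonneg (‖A (b i)‖ - ‖B (b i)‖), sq_nonneg (‖A (b i)‖), sq_nonneg (‖B (b i)‖)]
  have hA' : HasSum (fun i => ‖A (b i)‖ ^ 2) a := ha ▸ hA.hasSum
  have hB' : HasSum (fun i => ‖B (b i)‖ ^ 2) d := hd ▸ hB.hasSum
  have hs' : HasSum (fun i => inner ℂ (B (b i)) (A (b i))) γ := hγ ▸ hs.hasSum
  have key : ∀ α β : ℂ, HasSum (fun i => ‖(α • A + β • B) (b i)‖ ^ 2)
      (‖α‖ ^ 2 * a + ‖β‖ ^ 2 * d + 2 * (conj β * α * γ).re) := by
    intro α β
    have h1 : (fun i => ‖(α • A + β • B) (b i)‖ ^ 2) = fun i =>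
        ‖α‖ ^ 2 * ‖A (b i)‖ ^ 2 + ‖β‖ ^ 2 * ‖B (b i)‖ ^ 2 +
          2 * (conj β * α * inner ℂ (B (b i)) (A (b i))).re := by
      funext i
      rw [ContinuousLinearMap.add_apply, ContinuousLinearMap.smul_apply,
        ContinuousLinearMap.smul_apply]
      exact two_key _ _ _ _
    rw [h1]
    exact ((hA'.mul_left _).add (hB'.mul_left _)).add
      ((Complex.reCLM.hasSum (hs'.mul_left (conj β * α))).mul_left 2)
  have ha0 : 0 ≤ a := by rw [ha]; exact tsum_nonneg fun _ => by positivity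
  have hd0 : 0 ≤ d := by rw [hd]; exact tsum_nonneg fun _ => by positivity
  rcases eq_or_lt_of_le ha0 with h0 | h0
  · -- `A = 0` on the basis
    have hz : ∀ i, A (b i) = 0 := by
      intro i
      have h1 : ‖A (b i)‖ ^ 2 ≤ a := by
        rw [ha]
        exact hA.le_tsum i fun _ _ => by positivity
      rw [← h0] at h1
      have h2 : ‖A (b i)‖ ^ 2 = 0 := le_antisymm h1 (by positivity)
      exact norm_eq_zero.mp (pow_eq_zero_iff two_ne_zero |>.mp h2)
    have hγ0 : γ = 0 := by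
      rw [hγ]
      simp [hz]
    refine ⟨1, fun _ => 0, fun _ => (Real.sqrt d : ℂ), fun α β => ?_⟩
    have h1 := key α β
    rw [← h0, hγ0] at h1
    convert h1 using 1
    rw [Fin.sum_univ_one]
    rw [mul_zero, zero_add, norm_mul, mul_pow, Complex.norm_real,
      Real.norm_of_nonneg (Real.sqrt_nonneg d), Real.sq_sqrt hd0]
    simp
  · have hsa : Real.sqrt a ≠ 0 := (Real.sqrt_pos.mpr h0).ne'
    have hsac : (Real.sqrt a : ℂ) ≠ 0 := by exact_mod_cast hsa
    have hac : (a : ℂ) ≠ 0 := by exact_mod_cast h0.ne'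
    have hsq : (Real.sqrt a : ℂ) * (Real.sqrt a : ℂ) = a := by
      exact_mod_cast Real.mul_self_sqrt ha0
    have hγγ : conj γ * γ = ((‖γ‖ ^ 2 : ℝ) : ℂ) := by
      rw [← Complex.normSq_eq_conj_mul_self, Complex.normSq_eq_norm_sq]
    have hnn : 0 ≤ d - ‖γ‖ ^ 2 / a := by
      have h1 := (key (-(conj γ) / a) 1).nonneg (fun i => by positivity)
      have h2 : ‖(-(conj γ) / (a : ℂ))‖ ^ 2 * a = ‖γ‖ ^ 2 / a := by
        rw [norm_div, norm_neg, RCLike.norm_conj, Complex.norm_real, Real.norm_of_nonneg ha0]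
        field_simp
      have h3 : (conj (1 : ℂ) * (-(conj γ) / (a : ℂ)) * γ).re = -(‖γ‖ ^ 2 / a) := by
        have h4 : conj (1 : ℂ) * (-(conj γ) / (a : ℂ)) * γ = ((-(‖γ‖ ^ 2 / a) : ℝ) : ℂ) := by
          rw [map_one, one_mul, neg_div, neg_mul, div_mul_eq_mul_div, hγγ]
          push_cast
          ring
        rw [h4, Complex.ofReal_re]
      rw [h2, h3, norm_one] at h1
      linarith
    refine ⟨2, ![(Real.sqrt a : ℂ), 0], ![conj γ / (Real.sqrt a : ℂ),
      (Real.sqrt (d - ‖γ‖ ^ 2 / a) : ℂ)], fun α β => ?_⟩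
    convert key α β using 1
    rw [Fin.sum_univ_two]
    simp only [Matrix.cons_val_zero, Matrix.cons_val_one, mul_zero, zero_add]
    have e1 := two_key (Real.sqrt a : ℂ) (conj γ / (Real.sqrt a : ℂ)) α β
    simp only [smul_eq_mul] at e1
    rw [e1, norm_mul, mul_pow, Complex.norm_real, Complex.norm_real,
      Real.norm_of_nonneg (Real.sqrt_nonneg _), Real.norm_of_nonneg (Real.sqrt_nonneg _),
      Real.sq_sqrt ha0, Real.sq_sqrt hnn, norm_div, Complex.norm_real,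
      Real.norm_of_nonneg (Real.sqrt_nonneg _), RCLike.norm_conj, div_pow, Real.sq_sqrt ha0]
    have e2 : conj β * α * inner ℂ (conj γ / (Real.sqrt a : ℂ)) (Real.sqrt a : ℂ) =
        conj β * α * γ := by
      congr 1
      rw [RCLike.inner_apply, map_div₀, Complex.conj_conj, Complex.conj_ofReal]
      field_simp
    rw [e2]
    ring

end Pool.Agent.K9h78.LP
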