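import Pool.Agent.K9h78.LP.Full
import Pool.Agent.K9h78.LP.Cpt
import Pool.Agent.K9h78.LP.Eig
import Pool.Agent.K9h78.LP.Two
import Pool.Agent.K9h78.LP.Opm
import Pool.Agent.K9h78.S6.Fin

/-!
# The classification for operators of `S_p` (eigenbasis form)
-/

set_option autoImplicit false

open MeasureTheory Filter Topology Matrix

namespace Pool.Agent.K9h78.LP

theorem full_fin6 : FIN6 := by
  intro n A B
  obtain ⟨m, x, y, h⟩ := Pool.Agent.K9h78.S6.fin6 n A B
  refine ⟨m, fun i => (x i, y i), fun α β => ?_⟩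
  rw [h α β, Complex.ofReal_re]

theorem full_answer {H : Type} [NormedAddCommGroup H] [InnerProductSpace ℂ H] [CompleteSpace H]
    (b : HilbertBasis ℕ ℂ H) (p : ℝ) (hp : 1 ≤ p) : AllEmbed H p ↔ p = 2 ∨ p = 4 ∨ p = 6 :=
  full cpt eig two opm full_fin6 b p hp

end Pool.Agent.K9h78.LP
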