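import Pool.Agent.K9h78.LP.TKS

/-! # Simultaneous diagonalisation of a Hermitian and a quadratic form (leaf TK) -/

set_option autoImplicit false
namespace Pool.Agent.K9h78.LP

open ComplexConjugate

/-- a unimodular square root of the phase of `-m` or `m` -/
theorem phase (m : ℂ) : ∃ w : ℂ, ‖w‖ = 1 ∧ (‖m‖ : ℂ) * w ^ 2 = m := by
  by_cases hm : m = 0
  · exact ⟨1, by simp, by simp [hm]⟩
  · have hm' : (‖m‖ : ℂ) ≠ 0 := by simpa using hm
    obtain ⟨w, hw⟩ := IsAlgClosed.exists_pow_nat_eq (m / (‖m‖ : ℂ)) (n := 2) (by norm_num)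
    refine ⟨w, ?_, ?_⟩
    · have h1 : ‖w‖ ^ 2 = 1 := by
        rw [← norm_pow, hw, norm_div, Complex.norm_real, norm_norm,
          div_self (norm_ne_zero_iff.mpr hm)]
      have h2 : 0 ≤ ‖w‖ := norm_nonneg w
      nlinarith
    · rw [hw]
      field_simp

/-- a coneigenvector of a symmetric matrix -/
theorem coneigen (A B C : ℂ) : ∃ (u0 u1 : ℂ) (s : ℝ), (u0 ≠ 0 ∨ u1 ≠ 0) ∧
    A * u0 + B * u1 = s * conj u0 ∧ B * u0 + C * u1 = s * conj u1 := by
  let H : Matrix (Fin 2) (Fin 2) ℂ :=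
    !![conj A * A + conj B * B, conj A * B + conj B * C;
       conj B * A + conj C * B, conj B * B + conj C * C]
  obtain ⟨c, hc⟩ := Module.End.exists_eigenvalue (Matrix.toLin' H)
  obtain ⟨w, hw⟩ := hc.exists_hasEigenvector
  have hw1 : H.mulVec w = c • w := by
    have := hw.apply_eq_smul
    rwa [Matrix.toLin'_apply] at this
  have hw0 : w ≠ 0 := hw.2
  have e0 := congrFun hw1 0
  have e1 := congrFun hw1 1
  simp only [H, Matrix.mulVec, dotProduct, Fin.sum_univ_two, Matrix.of_apply, Matrix.cons_val',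
    Matrix.cons_val_zero, Matrix.cons_val_one, Pi.smul_apply, smul_eq_mul,
    Matrix.cons_val_fin_one] at e0 e1
  generalize hx0 : w 0 = x0 at e0 e1
  generalize hx1 : w 1 = x1 at e0 e1
  have hne : x0 ≠ 0 ∨ x1 ≠ 0 := by
    by_contra hcon
    push Not at hcon
    apply hw0
    funext i
    fin_cases i
    · exact hx0.trans hcon.1
    · exact hx1.trans hcon.2
  -- `c` is a nonnegative real number
  obtain ⟨m0, hm0⟩ : ∃ m0, m0 = A * x0 + B * x1 := ⟨_, rfl⟩
  obtain ⟨m1, hm1⟩ : ∃ m1, m1 = B * x0 + C * x1 := ⟨_, rfl⟩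
  have f0 : conj A * m0 + conj B * m1 = c * x0 := by rw [hm0, hm1, ← e0]; ring
  have f1 : conj B * m0 + conj C * m1 = c * x1 := by rw [hm0, hm1, ← e1]; ring
  have hcm : c * ((‖x0‖ : ℂ) ^ 2 + (‖x1‖ : ℂ) ^ 2) = (‖m0‖ : ℂ) ^ 2 + (‖m1‖ : ℂ) ^ 2 := by
    rw [← Complex.mul_conj', ← Complex.mul_conj', ← Complex.mul_conj', ← Complex.mul_conj']
    have g0 : conj m0 = conj A * conj x0 + conj B * conj x1 := by rw [hm0]; simp
    have g1 : conj m1 = conj B * conj x0 + conj C * conj x1 := by rw [hm1]; simp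
    rw [g0, g1]
    linear_combination (-conj x0) * f0 - conj x1 * f1
  have hpos : 0 < ‖x0‖ ^ 2 + ‖x1‖ ^ 2 := by
    rcases hne with h | h
    · have := norm_pos_iff.mpr h
      positivity
    · have := norm_pos_iff.mpr h
      positivity
  obtain ⟨l, hl0, hl⟩ : ∃ l : ℝ, 0 ≤ l ∧ c = ((l ^ 2 : ℝ) : ℂ) := by
    refine ⟨Real.sqrt ((‖m0‖ ^ 2 + ‖m1‖ ^ 2) / (‖x0‖ ^ 2 + ‖x1‖ ^ 2)), Real.sqrt_nonneg _, ?_⟩
    rw [Real.sq_sqrt (by positivity)]
    have hne' : ((‖x0‖ : ℂ) ^ 2 + (‖x1‖ : ℂ) ^ 2) ≠ 0 := by exact_mod_cast hpos.ne'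
    push_cast
    rw [eq_div_iff hne']
    exact hcm
  rw [hl] at f0 f1
  push_cast at f0 f1
  by_cases hu : conj m0 + l * x0 = 0 ∧ conj m1 + l * x1 = 0
  · refine ⟨Complex.I * x0, Complex.I * x1, l, ?_, ?_, ?_⟩
    · rcases hne with h | h
      · exact Or.inl (mul_ne_zero Complex.I_ne_zero h)
      · exact Or.inr (mul_ne_zero Complex.I_ne_zero h)
    · have h1 := congrArg conj hu.1
      simp only [map_add, map_mul, Complex.conj_conj, Complex.conj_ofReal, map_zero] at h1
      simp only [map_mul, Complex.conj_I]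
      rw [hm0] at h1
      linear_combination Complex.I * h1
    · have h1 := congrArg conj hu.2
      simp only [map_add, map_mul, Complex.conj_conj, Complex.conj_ofReal, map_zero] at h1
      simp only [map_mul, Complex.conj_I]
      rw [hm1] at h1
      linear_combination Complex.I * h1
  · refine ⟨conj m0 + l * x0, conj m1 + l * x1, l, ?_, ?_, ?_⟩
    · by_contra hcon
      push Not at hcon
      exact hu hcon
    · have h1 := congrArg conj f0
      simp only [map_add, map_mul, Complex.conj_conj, Complex.conj_ofReal, map_pow] at h1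
      simp only [map_add, map_mul, Complex.conj_conj, Complex.conj_ofReal]
      linear_combination h1 - (l : ℂ) * hm0
    · have h1 := congrArg conj f1
      simp only [map_add, map_mul, Complex.conj_conj, Complex.conj_ofReal, map_pow] at h1
      simp only [map_add, map_mul, Complex.conj_conj, Complex.conj_ofReal]
      linear_combination h1 - (l : ℂ) * hm1

/-- the square of the norm -/
theorem nsq (z : ℂ) : ((‖z‖ ^ 2 : ℝ) : ℂ) = z * conj z := by
  rw [Complex.mul_conj']; push_cast; ring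

/-- Takagi factorisation in two variables -/
theorem std (A B C : ℂ)
    (hbd : ∀ x y : ℂ, ‖A * x ^ 2 + 2 * B * (x * y) + C * y ^ 2‖ ≤ (‖x‖ ^ 2 + ‖y‖ ^ 2) / 2) :
    ∃ (a b c d : ℂ) (s r : ℝ), 0 ≤ s ∧ s ≤ 1 / 2 ∧ 0 ≤ r ∧ r ≤ 1 / 2 ∧ ∀ x y : ℂ,
      ‖x‖ ^ 2 + ‖y‖ ^ 2 = ‖a * x + b * y‖ ^ 2 + ‖c * x + d * y‖ ^ 2 ∧
      A * x ^ 2 + 2 * B * (x * y) + C * y ^ 2 =
        (s : ℂ) * (a * x + b * y) ^ 2 - (r : ℂ) * (c * x + d * y) ^ 2 := by
  obtain ⟨u0, u1, l, hne, h0, h1⟩ := coneigen A B C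
  have hpos : 0 < ‖u0‖ ^ 2 + ‖u1‖ ^ 2 := by
    rcases hne with h | h
    · have := norm_pos_iff.mpr h
      positivity
    · have := norm_pos_iff.mpr h
      positivity
  obtain ⟨N, hN0, hN⟩ : ∃ N : ℝ, 0 < N ∧ N ^ 2 = ‖u0‖ ^ 2 + ‖u1‖ ^ 2 :=
    ⟨Real.sqrt _, Real.sqrt_pos.mpr hpos, Real.sq_sqrt hpos.le⟩
  have hNc : (N : ℂ) ≠ 0 := by exact_mod_cast hN0.ne'
  obtain ⟨v0, hv0⟩ : ∃ v0 : ℂ, u0 = N * v0 := ⟨u0 / N, by field_simp⟩
  obtain ⟨v1, hv1⟩ : ∃ v1 : ℂ, u1 = N * v1 := ⟨u1 / N, by field_simp⟩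
  have hunit : ‖v0‖ ^ 2 + ‖v1‖ ^ 2 = 1 := by
    rw [hv0, hv1, norm_mul, norm_mul, Complex.norm_real, Real.norm_of_nonneg hN0.le] at hN
    have h2 : N ^ 2 * (‖v0‖ ^ 2 + ‖v1‖ ^ 2) = N ^ 2 * 1 := by linarith
    exact mul_left_cancel₀ (by positivity) h2
  have hunit' : v0 * conj v0 + v1 * conj v1 = 1 := by
    rw [← nsq, ← nsq, ← Complex.ofReal_add, hunit, Complex.ofReal_one]
  have k0 : A * v0 + B * v1 = l * conj v0 := by
    rw [hv0, hv1, map_mul, Complex.conj_ofReal] at h0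
    apply mul_left_cancel₀ hNc
    linear_combination h0
  have k1 : B * v0 + C * v1 = l * conj v1 := by
    rw [hv0, hv1, map_mul, Complex.conj_ofReal] at h1
    apply mul_left_cancel₀ hNc
    linear_combination h1
  -- the second value
  obtain ⟨m, hm⟩ : ∃ m, m = A * (-conj v1) ^ 2 + 2 * B * ((-conj v1) * conj v0) + C * (conj v0) ^ 2 :=
    ⟨_, rfl⟩
  obtain ⟨m', hm'⟩ : ∃ m', m' = A * v0 ^ 2 + 2 * B * (v0 * v1) + C * v1 ^ 2 := ⟨_, rfl⟩
  have hmb : ‖m‖ ≤ 1 / 2 := by
    have h2 := hbd (-conj v1) (conj v0)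
    rw [← hm, norm_neg, RCLike.norm_conj, RCLike.norm_conj] at h2
    linarith
  have hmb' : ‖m'‖ ≤ 1 / 2 := by
    have h2 := hbd v0 v1
    rw [← hm'] at h2
    linarith
  obtain ⟨w', hw', hww'⟩ := phase m'
  obtain ⟨w, hw, hww⟩ := phase (-m)
  rw [norm_neg] at hww
  refine ⟨w' * conj v0, w' * conj v1, w * (-v1), w * v0, ‖m'‖, ‖m‖, norm_nonneg _, hmb',
    norm_nonneg _, hmb, fun x y => ⟨?_, ?_⟩⟩
  · have e1 : w' * conj v0 * x + w' * conj v1 * y = w' * (conj v0 * x + conj v1 * y) := by ring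
    have e2 : w * (-v1) * x + w * v0 * y = w * (-v1 * x + v0 * y) := by ring
    rw [e1, e2, norm_mul, norm_mul, hw, hw', one_mul, one_mul]
    have : (((‖x‖ ^ 2 + ‖y‖ ^ 2 : ℝ)) : ℂ) =
        ((‖conj v0 * x + conj v1 * y‖ ^ 2 + ‖-v1 * x + v0 * y‖ ^ 2 : ℝ) : ℂ) := by
      rw [Complex.ofReal_add, Complex.ofReal_add, nsq, nsq, nsq, nsq]
      simp only [map_add, map_mul, Complex.conj_conj, map_neg]
      linear_combination (-(x * conj x) - y * conj y) * hunit'
    exact_mod_cast this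
  · have hx : x = (conj v0 * x + conj v1 * y) * v0 - (-v1 * x + v0 * y) * conj v1 := by
      linear_combination (-x) * hunit'
    have hy : y = (conj v0 * x + conj v1 * y) * v1 + (-v1 * x + v0 * y) * conj v0 := by
      linear_combination (-y) * hunit'
    generalize hX : conj v0 * x + conj v1 * y = X at hx hy
    generalize hY : -v1 * x + v0 * y = Y at hx hy
    have e1 : w' * conj v0 * x + w' * conj v1 * y = w' * X := by rw [← hX]; ring
    have e2 : w * (-v1) * x + w * v0 * y = w * Y := by rw [← hY]; ring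
    rw [e1, e2]
    have e3 : (‖m'‖ : ℂ) * (w' * X) ^ 2 - (‖m‖ : ℂ) * (w * Y) ^ 2 = m' * X ^ 2 + m * Y ^ 2 := by
      linear_combination X ^ 2 * hww' - Y ^ 2 * hww
    rw [e3, hx, hy, hm, hm']
    linear_combination 2 * X * Y * (-conj v1) * k0 + 2 * X * Y * conj v0 * k1

theorem tk : S_TK := by
  intro t11 t22 t12 q11 q12 q22 hb
  have hT : ∀ α β : ℂ, 0 ≤ TF t11 t22 t12 α β := by
    intro α β
    have := (norm_nonneg _).trans (hb α β)
    linarith
  have ht11 : 0 ≤ t11 := by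
    have := hT 1 0
    simpa [TF] using this
  have ht22 : 0 ≤ t22 := by
    have := hT 0 1
    simpa [TF] using this
  have hq11 : ‖q11‖ ≤ t11 / 2 := by
    have := hb 1 0
    simpa [TF, QF] using this
  have hq22 : ‖q22‖ ≤ t22 / 2 := by
    have := hb 0 1
    simpa [TF, QF] using this
  rcases ht11.eq_or_lt with h0 | hpos
  · -- `t11 = 0`
    have hq : q11 = 0 := by
      rw [← h0] at hq11
      exact norm_le_zero_iff.mp (by linarith)
    have ht : t12 = 0 := by
      by_contra hne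
      have := hT (-((t22 + 1 : ℝ) : ℂ) / (2 * t12)) 1
      have e1 : -((t22 + 1 : ℝ) : ℂ) / (2 * t12) * (starRingEnd ℂ) 1 * t12 =
          ((-(t22 + 1) / 2 : ℝ) : ℂ) := by
        rw [map_one]
        push_cast
        field_simp
      unfold TF at this
      rw [e1, Complex.ofReal_re, ← h0] at this
      simp only [norm_one] at this
      linarith
    have hq12 : q12 = 0 := by
      by_contra hne
      have := hb ((((t22 + 1 : ℝ) : ℂ) - q22) / q12) 1
      have e1 : QF q11 q12 q22 ((((t22 + 1 : ℝ) : ℂ) - q22) / q12) 1 = ((t22 + 1 : ℝ) : ℂ) := by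
        unfold QF
        rw [hq]
        field_simp
        ring
      rw [e1, Complex.norm_real, Real.norm_of_nonneg (by linarith)] at this
      unfold TF at this
      rw [ht, ← h0] at this
      simp at this
      linarith
    by_cases ht0 : t22 = 0
    · have hq22' : q22 = 0 := by
        rw [ht0] at hq22
        exact norm_le_zero_iff.mp (by linarith)
      refine ⟨0, 0, 0, 0, 0, 0, le_rfl, by norm_num, le_rfl, by norm_num, fun α β => ⟨?_, ?_⟩⟩
      · simp [TF, ← h0, ht0, ht]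
      · simp [QF, hq, hq12, hq22']
    · have ht22' : 0 < t22 := lt_of_le_of_ne ht22 (Ne.symm ht0)
      refine ⟨0, (Real.sqrt t22 : ℝ), 0, 0, ‖q22‖ / t22, 0, by positivity, ?_, le_rfl, by norm_num,
        fun α β => ⟨?_, ?_⟩⟩
      · rw [div_le_iff₀ ht22']
        linarith
      · simp only [TF, ← h0, ht, zero_mul, zero_add, mul_zero, Complex.zero_re, add_zero, norm_zero,
          norm_mul, Complex.norm_real, Real.norm_of_nonneg (Real.sqrt_nonneg _)]
        rw [mul_pow, Real.sq_sqrt ht22]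
        ring
      · simp only [QF, hq, hq12, zero_mul, zero_add, mul_zero, sub_zero, norm_mul, norm_pow,
          Complex.norm_real, Real.norm_of_nonneg (Real.sqrt_nonneg _), Complex.ofReal_zero,
          add_zero, mul_pow, Real.sq_sqrt ht22, norm_div, norm_norm,
          Real.norm_of_nonneg ht22]
        field_simp
  · -- `t11 > 0`
    obtain ⟨k, hk⟩ : ∃ k : ℂ, k = conj t12 / t11 := ⟨_, rfl⟩
    have ht11c : (t11 : ℂ) ≠ 0 := by exact_mod_cast hpos.ne'
    have hk1 : t11 * k = conj t12 := by rw [hk]; field_simp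
    have hk2 : t11 * conj k = t12 := by
      have := congrArg conj hk1
      simpa using this
    obtain ⟨δ, hδ⟩ : ∃ δ : ℝ, δ = t22 - t11 * ‖k‖ ^ 2 := ⟨_, rfl⟩
    have hTF : ∀ α β : ℂ, TF t11 t22 t12 α β = t11 * ‖α + k * β‖ ^ 2 + δ * ‖β‖ ^ 2 := by
      intro α β
      have e1 : ‖α + k * β‖ ^ 2 = ‖α‖ ^ 2 + ‖k‖ ^ 2 * ‖β‖ ^ 2 + 2 * (α * conj (k * β)).re := by
        rw [← Complex.normSq_eq_norm_sq, Complex.normSq_add, Complex.normSq_eq_norm_sq,
          Complex.normSq_eq_norm_sq, norm_mul, mul_pow]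
      rw [e1, hδ]
      unfold TF
      have e2 : (α * conj β * t12).re = t11 * (α * conj (k * β)).re := by
        rw [← hk2, ← Complex.re_ofReal_mul]
        congr 1
        rw [map_mul]
        ring
      rw [e2]
      ring
    have hδ0 : 0 ≤ δ := by
      have := hT (-k) 1
      rw [hTF] at this
      simpa using this
    rcases hδ0.eq_or_lt with hδz | hδp
    · -- degenerate
      have hQ1 : QF q11 q12 q22 (-k) 1 = 0 := by
        have := hb (-k) 1
        rw [hTF, ← hδz] at this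
        simp only [mul_one, neg_add_cancel, norm_zero, ne_eq, OfNat.ofNat_ne_zero,
          not_false_eq_true, zero_pow, mul_zero, zero_mul, add_zero, zero_div] at this
        exact norm_le_zero_iff.mp this
      have hQ2 : ∀ α β : ℂ, QF q11 q12 q22 α β =
          q11 * (α + k * β) ^ 2 + (q12 - 2 * q11 * k) * ((α + k * β) * β) := by
        intro α β
        unfold QF at hQ1 ⊢
        linear_combination β ^ 2 * hQ1
      have hz : q12 - 2 * q11 * k = 0 := by
        by_contra hne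
        obtain ⟨β, hβ⟩ : ∃ β : ℂ, (q12 - 2 * q11 * k) * β = t11 - q11 :=
          ⟨(t11 - q11) / (q12 - 2 * q11 * k), by field_simp⟩
        have := hb (1 - k * β) β
        rw [hTF, hQ2, ← hδz] at this
        have e1 : (1 - k * β + k * β : ℂ) = 1 := by ring
        rw [e1, one_mul, hβ] at this
        have e2 : q11 * 1 ^ 2 + (t11 - q11) = (t11 : ℂ) := by ring
        rw [e2, Complex.norm_real, Real.norm_of_nonneg hpos.le] at this
        simp at this
        linarith
      refine ⟨(Real.sqrt t11 : ℝ), (Real.sqrt t11 : ℝ) * k, 0, 0, ‖q11‖ / t11, 0, by positivity, ?_,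
        le_rfl, by norm_num, fun α β => ⟨?_, ?_⟩⟩
      · rw [div_le_iff₀ hpos]
        linarith
      · rw [hTF, ← hδz]
        have e1 : ((Real.sqrt t11 : ℝ) : ℂ) * α + (Real.sqrt t11 : ℝ) * k * β =
            (Real.sqrt t11 : ℝ) * (α + k * β) := by ring
        rw [e1, norm_mul, mul_pow, Complex.norm_real, Real.norm_of_nonneg (Real.sqrt_nonneg _),
          Real.sq_sqrt hpos.le]
        simp
      · rw [hQ2, hz]
        have e1 : ((Real.sqrt t11 : ℝ) : ℂ) * α + (Real.sqrt t11 : ℝ) * k * β =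
            (Real.sqrt t11 : ℝ) * (α + k * β) := by ring
        rw [e1]
        simp only [zero_mul, add_zero, Complex.ofReal_zero, sub_zero, norm_mul, norm_pow,
          Complex.norm_real, Real.norm_of_nonneg (Real.sqrt_nonneg _), mul_pow,
          Real.sq_sqrt hpos.le, norm_div, norm_norm, Real.norm_of_nonneg hpos.le]
        field_simp
    · -- positive definite
      obtain ⟨p, hp0, hp⟩ : ∃ p : ℝ, 0 < p ∧ p ^ 2 = t11 :=
        ⟨_, Real.sqrt_pos.mpr hpos, Real.sq_sqrt hpos.le⟩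
      obtain ⟨r, hr0, hr⟩ : ∃ r : ℝ, 0 < r ∧ r ^ 2 = δ :=
        ⟨_, Real.sqrt_pos.mpr hδp, Real.sq_sqrt hδp.le⟩
      have hpc : (p : ℂ) ≠ 0 := by exact_mod_cast hp0.ne'
      have hrc : (r : ℂ) ≠ 0 := by exact_mod_cast hr0.ne'
      have hTF2 : ∀ α β : ℂ, TF t11 t22 t12 α β = ‖p * (α + k * β)‖ ^ 2 + ‖r * β‖ ^ 2 := by
        intro α β
        rw [hTF, norm_mul, norm_mul, mul_pow, mul_pow, Complex.norm_real, Complex.norm_real,
          Real.norm_of_nonneg hp0.le, Real.norm_of_nonneg hr0.le, hp, hr]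
      obtain ⟨A, hA⟩ : ∃ A : ℂ, A * p ^ 2 = q11 := ⟨q11 / p ^ 2, by field_simp⟩
      obtain ⟨B, hB⟩ : ∃ B : ℂ, 2 * B * (p * r) = q12 - 2 * q11 * k :=
        ⟨(q12 - 2 * q11 * k) / (2 * (p * r)), by field_simp⟩
      obtain ⟨C, hC⟩ : ∃ C : ℂ, C * r ^ 2 = q22 - q12 * k + q11 * k ^ 2 :=
        ⟨(q22 - q12 * k + q11 * k ^ 2) / r ^ 2, by field_simp⟩
      have hQ : ∀ α β : ℂ, QF q11 q12 q22 α β =
          A * (p * (α + k * β)) ^ 2 + 2 * B * ((p * (α + k * β)) * (r * β)) + C * (r * β) ^ 2 := by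
        intro α β
        unfold QF
        linear_combination (-(α + k * β) ^ 2) * hA - (α + k * β) * β * hB - β ^ 2 * hC
      obtain ⟨a, b, c, d, s, s', hs, hs1, hs', hs1', hall⟩ := std A B C (by
        intro x y
        have := hb (x / p - k * (y / r)) (y / r)
        rw [hQ, hTF2] at this
        have e1 : (p : ℂ) * (x / p - k * (y / r) + k * (y / r)) = x := by
          rw [sub_add_cancel]
          field_simp
        have e2 : (r : ℂ) * (y / r) = y := by field_simp
        rw [e1, e2] at this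
        exact this)
      refine ⟨a * p, a * p * k + b * r, c * p, c * p * k + d * r, s, s', hs, hs1, hs', hs1',
        fun α β => ?_⟩
      obtain ⟨h1, h2⟩ := hall (p * (α + k * β)) (r * β)
      have e1 : a * p * α + (a * p * k + b * r) * β = a * (p * (α + k * β)) + b * (r * β) := by ring
      have e2 : c * p * α + (c * p * k + d * r) * β = c * (p * (α + k * β)) + d * (r * β) := by ring
      rw [e1, e2]
      exact ⟨by rw [hTF2, h1], by rw [hQ, h2]⟩

end Pool.Agent.K9h78.LP
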