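import Pool.Agent.K9h78.LP.FullA
import Pool.Agent.K9h78.LP.TK

/-!
# All `n × n` matrices: `p = 2, 4, 6` from the operator theorem
-/

set_option autoImplicit false

open MeasureTheory Filter Topology Matrix

namespace Pool.Agent.K9h78.LP

/-- every pair of `n × n` matrices embeds for `p = 2, 4, 6` -/
theorem fullm_if (p : ℝ) (hp : p = 2 ∨ p = 4 ∨ p = 6) (n : ℕ) (A B : Matrix (Fin n) (Fin n) ℂ) :
    Emb p A B := by
  have hp0 : 0 < p := by rcases hp with rfl | rfl | rfl <;> norm_num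
  let b : HilbertBasis ℕ ℂ (lp (fun _ : ℕ => ℂ) 2) := ⟨LinearIsometryEquiv.refl ℂ _⟩
  have hall : AllEmbed (lp (fun _ : ℕ => ℂ) 2) p := full_if cpt eig two full_fin6 b p hp
  obtain ⟨op, hlin, hop⟩ := opm (lp (fun _ : ℕ => ℂ) 2) b n
  obtain ⟨f, g, hf, hg, h⟩ := hall (op A) (op B) ⟨_, hop p hp0 A⟩ ⟨_, hop p hp0 B⟩
  refine ⟨f, g, hf, hg, fun α β => ?_⟩
  have h1 := h α β
  rw [← hlin] at h1
  exact uni _ p _ _ _ (hop p hp0 _) h1

/-- the classification for matrices of all sizes -/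
theorem fullm (p : ℝ) (hp : 1 ≤ p) :
    (∀ (n : ℕ) (A B : Matrix (Fin n) (Fin n) ℂ), Emb p A B) ↔ p = 2 ∨ p = 4 ∨ p = 6 := by
  constructor
  · intro h
    exact (class_two tk p hp).1 fun A B => h 2 A B
  · intro h n A B
    exact fullm_if p h n A B

/-- the classification for matrices of every fixed size `n ≥ 2`, one direction -/
theorem fullm_size (p : ℝ) (h : p = 2 ∨ p = 4 ∨ p = 6) (n : ℕ) :
    ∀ A B : Matrix (Fin n) (Fin n) ℂ, Emb p A B := fun A B => fullm_if p h n A B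

end Pool.Agent.K9h78.LP
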