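import Pool.Agent.K9h78.LP.P8

set_option autoImplicit false
open Matrix Polynomial

namespace Pool.Agent.K9h78.LP

theorem pad6_roots {n : ℕ} (p : ℝ) (M : Matrix (Fin n) (Fin n) ℂ) :
    trPow p M = (((Mᴴ * M).charpoly.roots).map (fun z : ℂ => z.re ^ (p / 2))).sum := by
  rw [(isHermitian_conjTranspose_mul_self M).roots_charpoly_eq_eigenvalues, Multiset.map_map]
  unfold trPow
  rfl

theorem pad6 (n : ℕ) (hn : 2 ≤ n) (p : ℝ) (hp : 0 < p) :
    ∃ L : Matrix (Fin 2) (Fin 2) ℂ → Matrix (Fin n) (Fin n) ℂ,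
    (∀ (α β : ℂ) (A B : Matrix (Fin 2) (Fin 2) ℂ), L (α • A + β • B) = α • L A + β • L B) ∧
    ∀ M, trPow p (L M) = trPow p M := by
  classical
  let V : Matrix (Fin n) (Fin 2) ℂ := fun i j => if (i : ℕ) = (j : ℕ) then 1 else 0
  have hV : Vᴴ * V = 1 := by
    ext i j
    rw [Matrix.mul_apply, Matrix.one_apply]
    have h1 : ∀ k : Fin n, Vᴴ i k * V k j = if k = Fin.castLE hn i then (if i = j then 1 else 0)
        else 0 := by
      intro k
      rw [Matrix.conjTranspose_apply]
      simp only [V]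
      by_cases h : k = Fin.castLE hn i
      · subst h
        simp [Fin.ext_iff]
      · have h2 : ¬ (k : ℕ) = (i : ℕ) := fun h3 => h (Fin.ext h3)
        simp [h, h2]
    simp only [h1]
    simp
  refine ⟨fun M => V * M * Vᴴ, fun α β A B => ?_, fun M => ?_⟩
  · simp only [Matrix.mul_add, Matrix.add_mul, Matrix.mul_smul, Matrix.smul_mul]
  · rw [pad6_roots, pad6_roots]
    have h1 : (V * M * Vᴴ)ᴴ * (V * M * Vᴴ) = V * ((Mᴴ * M) * Vᴴ) := by
      simp only [Matrix.conjTranspose_mul, Matrix.conjTranspose_conjTranspose]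
      calc V * (Mᴴ * Vᴴ) * (V * M * Vᴴ) = V * (Mᴴ * (Vᴴ * V) * M * Vᴴ) := by
            simp only [Matrix.mul_assoc]
        _ = _ := by rw [hV, Matrix.mul_one]
    have h2 : ((Mᴴ * M) * Vᴴ) * V = Mᴴ * M := by rw [Matrix.mul_assoc, hV, Matrix.mul_one]
    have h3 := Matrix.charpoly_mul_comm' V ((Mᴴ * M) * Vᴴ)
    rw [h2, ← h1] at h3
    have h4 := congrArg Polynomial.roots h3
    rw [Polynomial.roots_mul, Polynomial.roots_mul] at h4
    · simp only [Polynomial.roots_X_pow, Fintype.card_fin] at h4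
      have h5 := congrArg (fun s : Multiset ℂ => (s.map (fun z : ℂ => z.re ^ (p / 2))).sum) h4
      simp only [Multiset.map_add, Multiset.sum_add, Multiset.map_nsmul, Multiset.map_singleton,
        Multiset.sum_nsmul, Multiset.sum_singleton, Complex.zero_re,
        Real.zero_rpow (by positivity : p / 2 ≠ 0), smul_zero, zero_add] at h5
      exact h5
    · exact mul_ne_zero (pow_ne_zero _ X_ne_zero) (Matrix.charpoly_monic _).ne_zero
    · exact mul_ne_zero (pow_ne_zero _ X_ne_zero) (Matrix.charpoly_monic _).ne_zero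

end Pool.Agent.K9h78.LP
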