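import Pool.Agent.K9h78.LP.FullM
import Pool.Agent.K9h78.LP.Pad6

/-!
# The classification for `n × n` matrices, for every fixed `n ≥ 2`
-/

set_option autoImplicit false

open MeasureTheory Filter Topology Matrix

namespace Pool.Agent.K9h78.LP

theorem fulln (n : ℕ) (hn : 2 ≤ n) (p : ℝ) (hp : 1 ≤ p) :
    (∀ A B : Matrix (Fin n) (Fin n) ℂ, Emb p A B) ↔ p = 2 ∨ p = 4 ∨ p = 6 := by
  constructor
  · intro h
    obtain ⟨L, hL, hLp⟩ := pad6 n hn p (by linarith)
    refine (class_two tk p hp).1 fun A B => ?_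
    obtain ⟨f, g, hf, hg, hfg⟩ := h (L A) (L B)
    refine ⟨f, g, hf, hg, fun α β => ?_⟩
    rw [← hLp, hL]
    exact hfg α β
  · intro h A B
    exact fullm_if p h n A B

end Pool.Agent.K9h78.LP
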