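import Mathlib

/-! The kernel identity
`∫ ‖z f + g‖^p (a + ‖z‖²)^(-(2+p/2)) dz = C_p a^(-(1+p/2)) (a ‖f‖² + ‖g‖²)^(p/2)`. -/

set_option autoImplicit false
open MeasureTheory

namespace Pool.Agent.K9h78.LP

/-- the weight -/
noncomputable def wt (p a : ℝ) (z : ℂ) : ℝ := (a + ‖z‖ ^ 2) ^ (-(2 + p / 2))

theorem det_aux (d : ℂ) :
    ((ContinuousLinearMap.toSpanSingleton ℂ d).restrictScalars ℝ : ℂ →L[ℝ] ℂ).det = ‖d‖ ^ 2 := by
  simp [ContinuousLinearMap.det, LinearMap.det_restrictScalars,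
      Algebra.norm_complex_eq, Complex.normSq_eq_norm_sq]

theorem mobius (p : ℝ) (f g : ℂ) (h : ‖f‖ ^ 2 + ‖g‖ ^ 2 = 1) :
    ∫ z : ℂ, ‖z * f + g‖ ^ p * wt p 1 z = ∫ z : ℂ, wt p 1 z := by
  have hfg : (starRingEnd ℂ) f * f + (starRingEnd ℂ) g * g = 1 := by
    rw [← Complex.normSq_eq_conj_mul_self, ← Complex.normSq_eq_conj_mul_self,
      Complex.normSq_eq_norm_sq, Complex.normSq_eq_norm_sq]
    exact_mod_cast h
  set s : Set ℂ := {z | z * f + g ≠ 0} with hs
  set φ : ℂ → ℂ := fun z => ((starRingEnd ℂ) g * z - (starRingEnd ℂ) f) / (z * f + g) with hφ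
  have hsm : MeasurableSet s := (isOpen_ne_fun (by fun_prop) (by fun_prop)).measurableSet
  have hder : ∀ z ∈ s, HasFDerivWithinAt φ
      ((ContinuousLinearMap.toSpanSingleton ℂ (1 / (z * f + g) ^ 2)).restrictScalars ℝ) s z := by
    intro z hz
    have h1 : HasDerivAt (fun z : ℂ => (starRingEnd ℂ) g * z - (starRingEnd ℂ) f)
        ((starRingEnd ℂ) g) z := by
      simpa using ((hasDerivAt_id z).const_mul ((starRingEnd ℂ) g)).sub_const ((starRingEnd ℂ) f)
    have h2 : HasDerivAt (fun z : ℂ => z * f + g) f z := by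
      simpa using ((hasDerivAt_id z).mul_const f).add_const g
    have h3 := h1.div h2 hz
    have h5 : (starRingEnd ℂ) g * (z * f + g) - ((starRingEnd ℂ) g * z - (starRingEnd ℂ) f) * f = 1 := by
      linear_combination hfg
    rw [h5] at h3
    have h4 : HasDerivAt φ (1 / (z * f + g) ^ 2) z := h3
    exact (h4.hasFDerivAt.restrictScalars ℝ).hasFDerivWithinAt
  have hinj : Set.InjOn φ s := by
    intro z hz w hw hzw
    have hz' : z * f + g ≠ 0 := hz
    have hw' : w * f + g ≠ 0 := hw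
    simp only [hφ] at hzw
    rw [div_eq_div_iff hz' hw'] at hzw
    linear_combination hzw - (z - w) * hfg
  have hcs : volume sᶜ = 0 := by
    apply Set.Subsingleton.measure_zero
    intro z hz w hw
    have hz' : z * f + g = 0 := by simpa [hs] using hz
    have hw' : w * f + g = 0 := by simpa [hs] using hw
    have hf : f ≠ 0 := by
      rintro rfl
      have : g = 0 := by simpa using hz'
      rw [this] at h
      simp at h
    have : (z - w) * f = 0 := by linear_combination hz' - hw'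
    rcases mul_eq_zero.1 this with h1 | h1
    · exact sub_eq_zero.1 h1
    · exact absurd h1 hf
  have hci : volume (φ '' s)ᶜ = 0 := by
    have : (φ '' s)ᶜ ⊆ {w | (starRingEnd ℂ) g - w * f = 0} := by
      intro w hw
      by_contra hne
      have hne' : (starRingEnd ℂ) g - w * f ≠ 0 := hne
      apply hw
      have e1 : ((starRingEnd ℂ) f + w * g) / ((starRingEnd ℂ) g - w * f) * f + g =
          1 / ((starRingEnd ℂ) g - w * f) := by
        rw [div_mul_eq_mul_div, div_add' _ _ _ hne']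
        congr 1
        linear_combination hfg
      refine ⟨((starRingEnd ℂ) f + w * g) / ((starRingEnd ℂ) g - w * f), ?_, ?_⟩
      · show _ ≠ _
        rw [e1]
        exact one_div_ne_zero hne'
      · simp only [hφ]
        rw [e1]
        rw [div_div_eq_mul_div, div_one]
        rw [mul_div_assoc', div_sub' hne', div_mul_cancel₀ _ hne']
        linear_combination w * hfg
    refine measure_mono_null this ?_
    apply Set.Subsingleton.measure_zero
    intro z hz w hw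
    have hz' : (starRingEnd ℂ) g - z * f = 0 := hz
    have hw' : (starRingEnd ℂ) g - w * f = 0 := hw
    have hf : f ≠ 0 := by
      rintro rfl
      have : g = 0 := by simpa using hz'
      rw [this] at h
      simp at h
    have : (z - w) * f = 0 := by linear_combination hw' - hz'
    rcases mul_eq_zero.1 this with h1 | h1
    · exact sub_eq_zero.1 h1
    · exact absurd h1 hf
  have key := integral_image_eq_integral_abs_det_fderiv_smul volume hsm hder hinj (wt p 1)
  have l1 : ∫ x in φ '' s, wt p 1 x = ∫ x, wt p 1 x := by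
    have := Measure.restrict_eq_self_of_ae_mem (μ := (volume : Measure ℂ)) (s := φ '' s)
      (by rw [ae_iff]; exact hci)
    rw [this]
  have l2 : ∀ F : ℂ → ℝ, ∫ x in s, F x = ∫ x, F x := by
    intro F
    have := Measure.restrict_eq_self_of_ae_mem (μ := (volume : Measure ℂ)) (s := s)
      (by rw [ae_iff]; exact hcs)
    rw [this]
  rw [← l1, key, ← l2]
  refine setIntegral_congr_fun hsm fun z hz => ?_
  have hz' : z * f + g ≠ 0 := hz
  have hn : 0 < ‖z * f + g‖ := norm_pos_iff.2 hz'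
  simp only [smul_eq_mul]
  rw [det_aux]
  have e2 : 1 + ‖φ z‖ ^ 2 = (1 + ‖z‖ ^ 2) / ‖z * f + g‖ ^ 2 := by
    simp only [hφ]
    rw [norm_div, div_pow, eq_div_iff (by positivity), add_mul, div_mul_cancel₀ _ (by positivity)]
    have : ((‖z * f + g‖ ^ 2 : ℝ) : ℂ) + ((‖(starRingEnd ℂ) g * z - (starRingEnd ℂ) f‖ ^ 2 : ℝ) : ℂ) =
        ((1 + ‖z‖ ^ 2 : ℝ) : ℂ) := by
      rw [← Complex.normSq_eq_norm_sq, ← Complex.normSq_eq_norm_sq, ← Complex.normSq_eq_norm_sq]
      push_cast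
      rw [Complex.normSq_eq_conj_mul_self, Complex.normSq_eq_conj_mul_self,
        Complex.normSq_eq_conj_mul_self]
      simp only [map_add, map_mul, map_sub, Complex.conj_conj]
      linear_combination (1 + (starRingEnd ℂ) z * z) * hfg
    have h5 : ‖z * f + g‖ ^ 2 + ‖(starRingEnd ℂ) g * z - (starRingEnd ℂ) f‖ ^ 2 = 1 + ‖z‖ ^ 2 := by
      exact_mod_cast this
    linarith
  unfold wt
  rw [e2, Real.div_rpow (by positivity) (by positivity), norm_div, norm_pow, norm_one,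
    abs_of_nonneg (by positivity)]
  have e3 : (‖z * f + g‖ ^ 2) ^ (-(2 + p / 2)) = (‖z * f + g‖ ^ p)⁻¹ * (‖z * f + g‖ ^ 4)⁻¹ := by
    rw [← Real.rpow_natCast, ← Real.rpow_mul hn.le, ← Real.rpow_natCast, ← Real.rpow_neg hn.le,
      ← Real.rpow_neg hn.le, ← Real.rpow_add hn]
    congr 1
    push_cast
    ring
  rw [e3]
  have h6 : ‖z * f + g‖ ^ p ≠ 0 := (Real.rpow_pos_of_pos hn p).ne'
  have h7 : ‖z * f + g‖ ≠ 0 := hn.ne'
  field_simp

/-- the constant `C_p` -/
noncomputable def cp (p : ℝ) : ℝ := ∫ z : ℂ, wt p 1 z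

theorem ki_unit (p : ℝ) (f g : ℂ) (hp : 0 < p) :
    ∫ z : ℂ, ‖z * f + g‖ ^ p * wt p 1 z = cp p * (‖f‖ ^ 2 + ‖g‖ ^ 2) ^ (p / 2) := by
  rcases eq_or_ne (‖f‖ ^ 2 + ‖g‖ ^ 2) 0 with h0 | h0
  · have hf : f = 0 := by
      have : ‖f‖ ^ 2 = 0 := by nlinarith [sq_nonneg ‖f‖, sq_nonneg ‖g‖]
      simpa using this
    have hg : g = 0 := by
      have : ‖g‖ ^ 2 = 0 := by nlinarith [sq_nonneg ‖f‖, sq_nonneg ‖g‖]
      simpa using this
    rw [h0, Real.zero_rpow (by positivity), hf, hg]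
    simp [Real.zero_rpow hp.ne']
  · have hN : 0 < ‖f‖ ^ 2 + ‖g‖ ^ 2 := lt_of_le_of_ne (by positivity) (Ne.symm h0)
    set N := Real.sqrt (‖f‖ ^ 2 + ‖g‖ ^ 2) with hNdef
    have hNp : 0 < N := Real.sqrt_pos.2 hN
    have hN2 : N ^ 2 = ‖f‖ ^ 2 + ‖g‖ ^ 2 := Real.sq_sqrt hN.le
    have hnn : ‖(N : ℂ)‖ = N := by rw [Complex.norm_real, Real.norm_of_nonneg hNp.le]
    have h1 := mobius p (f / N) (g / N) (by
      rw [norm_div, norm_div, hnn, div_pow, div_pow, ← add_div, hN2, div_self h0])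
    have h2 : ∀ z : ℂ, ‖z * f + g‖ ^ p * wt p 1 z =
        N ^ p * (‖z * (f / N) + g / N‖ ^ p * wt p 1 z) := by
      intro z
      have : z * f + g = N * (z * (f / N) + g / N) := by
        have : (N : ℂ) ≠ 0 := by exact_mod_cast hNp.ne'
        field_simp
      rw [this, norm_mul, hnn, Real.mul_rpow hNp.le (norm_nonneg _)]
      ring
    simp_rw [h2]
    rw [integral_const_mul, h1, ← hN2, ← Real.rpow_natCast, ← Real.rpow_mul hNp.le]
    unfold cp
    rw [mul_comm]
    congr 2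
    push_cast
    ring

theorem wt_scale (p : ℝ) {a : ℝ} (ha : 0 < a) (z : ℂ) :
    wt p a (Real.sqrt a • z) = a ^ (-(2 + p / 2)) * wt p 1 z := by
  unfold wt
  rw [norm_smul, Real.norm_of_nonneg (Real.sqrt_nonneg a), mul_pow, Real.sq_sqrt ha.le,
    ← Real.mul_rpow ha.le (by positivity)]
  congr 1
  ring

theorem ki (p : ℝ) (f g : ℂ) (hp : 0 < p) {a : ℝ} (ha : 0 < a) :
    ∫ z : ℂ, ‖z * f + g‖ ^ p * wt p a z =
      cp p * a ^ (-(1 + p / 2)) * (a * ‖f‖ ^ 2 + ‖g‖ ^ 2) ^ (p / 2) := by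
  have hs : 0 < Real.sqrt a := Real.sqrt_pos.2 ha
  have h1 := Measure.integral_comp_smul (volume : Measure ℂ)
    (fun z : ℂ => ‖z * f + g‖ ^ p * wt p a z) (Real.sqrt a)
  have h2 : ∀ z : ℂ, ‖(Real.sqrt a • z) * f + g‖ ^ p * wt p a (Real.sqrt a • z) =
      a ^ (-(2 + p / 2)) * (‖z * (Real.sqrt a • f) + g‖ ^ p * wt p 1 z) := by
    intro z
    rw [wt_scale p ha]
    have : (Real.sqrt a • z) * f = z * (Real.sqrt a • f) := by
      simp only [Complex.real_smul]; ring
    rw [this]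
    ring
  simp_rw [h2] at h1
  rw [integral_const_mul, ki_unit p _ _ hp, Complex.finrank_real_complex, Real.sq_sqrt ha.le,
    norm_smul, Real.norm_of_nonneg hs.le, mul_pow, Real.sq_sqrt ha.le,
    abs_of_nonneg (by positivity), smul_eq_mul] at h1
  have h3 : ∫ z : ℂ, ‖z * f + g‖ ^ p * wt p a z =
      a * (a ^ (-(2 + p / 2)) * (cp p * (a * ‖f‖ ^ 2 + ‖g‖ ^ 2) ^ (p / 2))) := by
    rw [h1, ← mul_assoc, mul_inv_cancel₀ ha.ne', one_mul]
  rw [h3]
  have h4 : a * a ^ (-(2 + p / 2)) = a ^ (-(1 + p / 2)) := by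
    nth_rw 1 [← Real.rpow_one a]
    rw [← Real.rpow_add ha]
    congr 1
    ring
  rw [← h4]
  ring

end Pool.Agent.K9h78.LP
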