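import Pool.Agent.K9h78.LP.FN

/-! The `L_p` side. -/

set_option autoImplicit false
open MeasureTheory Finset Filter Topology

namespace Pool.Agent.K9h78.LP

theorem dd_le (k : ℕ) (hk : 0 < k) {q : ℝ} (hq : 0 < q) (hqk : q ≤ k) {u v : ℝ} (hu : 0 ≤ u)
    (hv : 0 ≤ v) : |dd k q u v| ≤ |ffr q k| * u ^ q := by
  rcases hu.eq_or_lt with h | h
  · rw [← h, dd_zero k hk, Real.zero_rpow hq.ne']
    simp
  · obtain ⟨ξ, h1, h2⟩ := dd_mvt k q h hv
    have hξ : 0 < ξ := by linarith
    rw [h2, abs_mul, abs_mul, abs_of_pos (Real.rpow_pos_of_pos hξ _), abs_of_pos (by positivity)]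
    have h3 : ξ ^ (q - k) ≤ u ^ (q - k) :=
      Real.rpow_le_rpow_of_nonpos h (by linarith) (by linarith)
    have h4 : u ^ k * u ^ (q - k) = u ^ q := by
      rw [← Real.rpow_natCast, ← Real.rpow_add h]
      congr 1
      ring
    calc u ^ k * |ffr q k| * ξ ^ (q - k) ≤ u ^ k * |ffr q k| * u ^ (q - k) :=
          mul_le_mul_of_nonneg_left h3 (by positivity)
      _ = |ffr q k| * (u ^ k * u ^ (q - k)) := by ring
      _ = _ := by rw [h4]

theorem dd_cont (k : ℕ) {q : ℝ} (hq : 0 < q) : Continuous fun x : ℝ × ℝ => dd k q x.1 x.2 := by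
  unfold dd
  refine continuous_finset_sum _ fun i _ => continuous_const.mul ?_
  exact Continuous.rpow_const (by fun_prop) fun _ => Or.inr hq.le

variable {μ : Measure ℝ} {f g : ℝ → ℂ} {p : ℝ}

theorem int_pow (hp : 1 ≤ p) {h : ℝ → ℂ} (hh : MemLp h (ENNReal.ofReal p) μ) :
    Integrable (fun t => ‖h t‖ ^ p) μ := by
  have h1 := hh.integrable_norm_rpow (by
    simp only [ne_eq, ENNReal.ofReal_eq_zero, not_le]; linarith) ENNReal.ofReal_ne_top
  rwa [ENNReal.toReal_ofReal (by linarith)] at h1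

/-- Fubini -/
theorem lp_side [SFinite μ] (hp : 1 ≤ p) (hf : MemLp f (ENNReal.ofReal p) μ)
    (hg : MemLp g (ENNReal.ofReal p) μ) (k : ℕ) (ε : ℝ) (δ : ℂ) :
    ∫ z, ph p k z * (∫ t, ‖(ε • (z + δ)) * f t + g t‖ ^ p ∂μ) =
      ∫ t, cp p * dd k (p / 2) (‖ε • f t‖ ^ 2) (‖(ε • δ) * f t + g t‖ ^ 2) ∂μ := by
  have hp0 : 0 < p := by linarith
  have e1 : ∀ z t, (ε • (z + δ)) * f t + g t = z * (ε • f t) + ((ε • δ) * f t + g t) := by
    intro z t
    simp only [Complex.real_smul]
    ring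
  have hf1 : MemLp (fun t => ε • f t) (ENNReal.ofReal p) μ := hf.const_smul ε
  have hg1 : MemLp (fun t => (ε • δ) * f t + g t) (ENNReal.ofReal p) μ :=
    (hf.const_mul (ε • δ)).add hg
  have hint : Integrable (Function.uncurry fun (z : ℂ) (t : ℝ) =>
      ph p k z * ‖z * (ε • f t) + ((ε • δ) * f t + g t)‖ ^ p) ((volume : Measure ℂ).prod μ) := by
    have h1 : Integrable (fun z : ℂ => |ph p k z| * (1 + ‖z‖) ^ p) volume := by
      have := int_ph hp0 k (G := fun z => (1 + ‖z‖) ^ p) (C := 1) (τ := p)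
        ((Continuous.rpow_const (by fun_prop) fun _ => Or.inr hp0.le).aestronglyMeasurable)
        (by linarith) (fun z => by rw [one_mul, abs_of_nonneg (by positivity)])
      refine this.abs.congr (Eventually.of_forall fun z => ?_)
      simp only
      rw [abs_mul, abs_of_nonneg (a := (1 + ‖z‖) ^ p) (by positivity)]
    have h2 : Integrable (fun t => (‖ε • f t‖ + ‖(ε • δ) * f t + g t‖) ^ p) μ := by
      have hh : MemLp (fun t => ((‖ε • f t‖ + ‖(ε • δ) * f t + g t‖ : ℝ) : ℂ))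
          (ENNReal.ofReal p) μ := (hf1.norm.add hg1.norm).ofReal
      refine (int_pow hp hh).congr (Eventually.of_forall fun t => ?_)
      simp only
      rw [Complex.norm_real, Real.norm_of_nonneg (by positivity)]
    refine (h1.mul_prod h2).mono' ?_ (Eventually.of_forall fun x => ?_)
    · refine AEStronglyMeasurable.mul ?_ ?_
      · exact ((ph_cont p k).measurable.comp measurable_fst).aestronglyMeasurable
      · have a1 : AEStronglyMeasurable (fun x : ℂ × ℝ =>
            x.1 * (ε • f x.2) + ((ε • δ) * f x.2 + g x.2)) ((volume : Measure ℂ).prod μ) :=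
          (measurable_fst.aestronglyMeasurable.mul hf1.1.comp_snd).add hg1.1.comp_snd
        exact (a1.norm.aemeasurable.pow_const p).aestronglyMeasurable
    · simp only [Function.uncurry]
      rw [norm_mul, Real.norm_eq_abs, Real.norm_eq_abs]
      have := pow_bound hp0 (ε • f x.2) ((ε • δ) * f x.2 + g x.2) x.1
      calc _ ≤ |ph p k x.1| * ((‖ε • f x.2‖ + ‖(ε • δ) * f x.2 + g x.2‖) ^ p * (1 + ‖x.1‖) ^ p) :=
            mul_le_mul_of_nonneg_left this (abs_nonneg _)
        _ = _ := by ring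
  have h1 := integral_integral_swap hint
  have h2 : ∀ z, ph p k z * (∫ t, ‖(ε • (z + δ)) * f t + g t‖ ^ p ∂μ) =
      ∫ t, ph p k z * ‖z * (ε • f t) + ((ε • δ) * f t + g t)‖ ^ p ∂μ := by
    intro z
    rw [integral_const_mul]
    simp_rw [e1]
  simp_rw [h2]
  rw [h1]
  refine integral_congr_ae (Eventually.of_forall fun t => ?_)
  exact ph_kernel hp0 k _ _

/-- the integrand is integrable -/
theorem int_dd (hp : 1 ≤ p) (hf : MemLp f (ENNReal.ofReal p) μ)
    (hg : MemLp g (ENNReal.ofReal p) μ) {k : ℕ} (hk : p + 2 ≤ 2 * k) (ε : ℝ) (δ : ℂ) :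
    Integrable (fun t => dd k (p / 2) (‖ε • f t‖ ^ 2) (‖(ε • δ) * f t + g t‖ ^ 2)) μ := by
  have hf1 : MemLp (fun t => ε • f t) (ENNReal.ofReal p) μ := hf.const_smul ε
  have hg1 : MemLp (fun t => (ε • δ) * f t + g t) (ENNReal.ofReal p) μ :=
    (hf.const_mul (ε • δ)).add hg
  have hk0 : 0 < k := by
    have : (0:ℝ) < k := by linarith
    exact_mod_cast this
  refine ((int_pow hp hf1).const_mul |ffr (p / 2) k|).mono' ?_ (Eventually.of_forall fun t => ?_)
  · have m1 : AEMeasurable (fun t => ‖ε • f t‖ ^ 2) μ := hf1.1.norm.aemeasurable.pow_const 2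
    have m2 : AEMeasurable (fun t => ‖(ε • δ) * f t + g t‖ ^ 2) μ :=
      hg1.1.norm.aemeasurable.pow_const 2
    have m3 : AEMeasurable (fun t => (‖ε • f t‖ ^ 2, ‖(ε • δ) * f t + g t‖ ^ 2)) μ := m1.prodMk m2
    have m4 : Measurable fun x : ℝ × ℝ => dd k (p / 2) x.1 x.2 :=
      (dd_cont k (by linarith : 0 < p / 2)).measurable
    exact (m4.comp_aemeasurable m3).aestronglyMeasurable
  · rw [Real.norm_eq_abs]
    refine (dd_le k hk0 (by linarith) (by linarith) (by positivity) (by positivity)).trans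
      (le_of_eq ?_)
    rw [← Real.rpow_natCast, ← Real.rpow_mul (norm_nonneg _)]
    congr 2
    push_cast
    ring

/-- the mass at `0` -/
noncomputable def rho (p : ℝ) (f g : ℝ → ℂ) (t : ℝ) : ℝ := if g t = 0 then ‖f t‖ ^ p else 0

theorem rho_meas (hf : AEStronglyMeasurable f μ) (hg : AEStronglyMeasurable g μ) :
    AEStronglyMeasurable (rho p f g) μ := by
  obtain ⟨f', hf', hff⟩ := hf
  obtain ⟨g', hg', hgg⟩ := hg
  have h1 : AEStronglyMeasurable (rho p f' g') μ := by
    unfold rho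
    exact (Measurable.ite (hg'.measurable (measurableSet_singleton 0))
      (hf'.measurable.norm.pow_const p) measurable_const).aestronglyMeasurable
  refine h1.congr ?_
  filter_upwards [hff, hgg] with t h2 h3
  unfold rho
  rw [h2, h3]

theorem int_rho (hp : 1 ≤ p) (hf : MemLp f (ENNReal.ofReal p) μ)
    (hg : MemLp g (ENNReal.ofReal p) μ) : Integrable (rho p f g) μ := by
  refine (int_pow hp hf).mono' (rho_meas hf.1 hg.1) (Eventually.of_forall fun t => ?_)
  unfold rho
  split_ifs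
  · rw [Real.norm_of_nonneg (by positivity)]
  · rw [norm_zero]
    positivity

theorem sq_rpow_half {x : ℝ} (hx : 0 ≤ x) (p : ℝ) : (x ^ 2) ^ (p / 2) = x ^ p := by
  rw [← Real.rpow_natCast, ← Real.rpow_mul hx]
  congr 1
  push_cast
  ring

theorem dd_atom {k : ℕ} {ε : ℝ} (hε : 0 ≤ ε) (δ a : ℂ) :
    dd k (p / 2) (‖ε • a‖ ^ 2) (‖(ε • δ) * a‖ ^ 2) = ε ^ p * ‖a‖ ^ p * dd k (p / 2) 1 (‖δ‖ ^ 2) := by
  have e1 : ‖ε • a‖ ^ 2 = (ε * ‖a‖) ^ 2 * 1 := by
    rw [norm_smul, Real.norm_of_nonneg hε, mul_one]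
  have e2 : ‖(ε • δ) * a‖ ^ 2 = (ε * ‖a‖) ^ 2 * ‖δ‖ ^ 2 := by
    rw [norm_mul, norm_smul, Real.norm_of_nonneg hε]
    ring
  rw [e1, e2, dd_hom k _ (by positivity) zero_le_one (by positivity),
    sq_rpow_half (by positivity), Real.mul_rpow hε (norm_nonneg _)]

/-- lower bound by the atom -/
theorem atom_le (hp : 1 ≤ p) (hf : MemLp f (ENNReal.ofReal p) μ)
    (hg : MemLp g (ENNReal.ofReal p) μ) {k : ℕ} (hk : p + 2 ≤ 2 * k) {ε : ℝ} (hε : 0 ≤ ε) (δ : ℂ) :
    ffr (p / 2) k * (ε ^ p * dd k (p / 2) 1 (‖δ‖ ^ 2) * ∫ t, rho p f g t ∂μ) ≤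
      ffr (p / 2) k * ∫ t, dd k (p / 2) (‖ε • f t‖ ^ 2) (‖(ε • δ) * f t + g t‖ ^ 2) ∂μ := by
  have hk0 : 0 < k := by
    have : (0:ℝ) < k := by linarith
    exact_mod_cast this
  rw [← integral_const_mul, ← integral_const_mul, ← integral_const_mul]
  refine integral_mono (((int_rho hp hf hg).const_mul _).const_mul _)
    ((int_dd hp hf hg hk ε δ).const_mul _) fun t => ?_
  simp only
  unfold rho
  split_ifs with h
  · rw [h, add_zero, dd_atom hε]
    exact le_of_eq (by ring)
  · rw [mul_zero, mul_zero]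
    exact dd_sign k hk0 _ (by positivity) (by positivity)

/-- the limit at `δ = 0` -/
theorem atom_lim (hp : 1 ≤ p) (hf : MemLp f (ENNReal.ofReal p) μ)
    (hg : MemLp g (ENNReal.ofReal p) μ) {k : ℕ} (hk : p + 2 ≤ 2 * k) :
    Tendsto (fun ε : ℝ => ε ^ (-p) *
      ∫ t, dd k (p / 2) (‖ε • f t‖ ^ 2) (‖g t‖ ^ 2) ∂μ) (𝓝[>] 0)
      (𝓝 (dd k (p / 2) 1 0 * ∫ t, rho p f g t ∂μ)) := by
  have hk0 : 0 < k := by
    have : (0:ℝ) < k := by linarith
    exact_mod_cast this
  have hq : 0 < p / 2 := by linarith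
  have e1 : ∀ ε : ℝ, 0 < ε → ∀ t, ε ^ (-p) * dd k (p / 2) (‖ε • f t‖ ^ 2) (‖g t‖ ^ 2) =
      ‖f t‖ ^ p * dd k (p / 2) 1 (‖g t‖ ^ 2 / (ε * ‖f t‖) ^ 2) := by
    intro ε hε t
    rcases eq_or_ne (f t) 0 with h | h
    · rw [h, norm_zero, Real.zero_rpow (by linarith), zero_mul, smul_zero, norm_zero]
      rw [show (0:ℝ) ^ 2 = 0 by norm_num, dd_zero k hk0, mul_zero]
    · have hn : 0 < ‖f t‖ := norm_pos_iff.2 h
      have a1 : ‖ε • f t‖ ^ 2 = (ε * ‖f t‖) ^ 2 * 1 := by
        rw [norm_smul, Real.norm_of_nonneg hε.le, mul_one]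
      have a2 : ‖g t‖ ^ 2 = (ε * ‖f t‖) ^ 2 * (‖g t‖ ^ 2 / (ε * ‖f t‖) ^ 2) := by
        field_simp
      rw [a1]
      nth_rw 1 [a2]
      rw [dd_hom k _ (by positivity) zero_le_one (by positivity),
        sq_rpow_half (by positivity), Real.mul_rpow hε.le (norm_nonneg _)]
      have a3 : ε ^ (-p) * ε ^ p = 1 := by
        rw [← Real.rpow_add hε]
        simp
      calc _ = (ε ^ (-p) * ε ^ p) * (‖f t‖ ^ p * dd k (p / 2) 1 (‖g t‖ ^ 2 / (ε * ‖f t‖) ^ 2)) := by
            ring
        _ = _ := by rw [a3, one_mul]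
  have key : Tendsto (fun ε : ℝ => ∫ t, ε ^ (-p) * dd k (p / 2) (‖ε • f t‖ ^ 2) (‖g t‖ ^ 2) ∂μ)
      (𝓝[>] 0) (𝓝 (∫ t, dd k (p / 2) 1 0 * rho p f g t ∂μ)) := by
    refine tendsto_integral_filter_of_dominated_convergence
      (fun t => |ffr (p / 2) k| * ‖f t‖ ^ p) ?_ ?_ ((int_pow hp hf).const_mul _) ?_
    · filter_upwards with ε
      have := (int_dd hp hf hg hk ε 0).1
      simp only [smul_zero, zero_mul, zero_add] at this
      exact this.const_mul _
    · filter_upwards [self_mem_nhdsWithin] with ε hε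
      have hε' : 0 < ε := hε
      filter_upwards with t
      rw [e1 ε hε' t, norm_mul, Real.norm_of_nonneg (by positivity), mul_comm, Real.norm_eq_abs]
      refine mul_le_mul_of_nonneg_right ?_ (by positivity)
      refine (dd_bound k (by linarith) (by positivity)).trans ?_
      refine mul_le_of_le_one_right (abs_nonneg _) ?_
      refine Real.rpow_le_one_of_one_le_of_nonpos ?_ (by linarith)
      have : 0 ≤ ‖g t‖ ^ 2 / (ε * ‖f t‖) ^ 2 := by positivity
      linarith
    · filter_upwards with t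
      have e2 : (fun ε : ℝ => ε ^ (-p) * dd k (p / 2) (‖ε • f t‖ ^ 2) (‖g t‖ ^ 2)) =ᶠ[𝓝[>] 0]
          fun ε => ‖f t‖ ^ p * dd k (p / 2) 1 (‖g t‖ ^ 2 / (ε * ‖f t‖) ^ 2) := by
        filter_upwards [self_mem_nhdsWithin] with ε hε
        exact e1 ε hε t
      refine Tendsto.congr' e2.symm ?_
      unfold rho
      split_ifs with hgt
      · rw [hgt]
        simp only [norm_zero]
        have : ∀ ε : ℝ, ‖f t‖ ^ p * dd k (p / 2) 1 ((0:ℝ) ^ 2 / (ε * ‖f t‖) ^ 2) =
            dd k (p / 2) 1 0 * ‖f t‖ ^ p := by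
          intro ε
          rw [show (0:ℝ) ^ 2 = 0 by norm_num, zero_div]
          ring
        simp_rw [this]
        exact tendsto_const_nhds
      · rw [mul_zero]
        rcases eq_or_ne (f t) 0 with h | h
        · rw [h, norm_zero, Real.zero_rpow (by linarith)]
          simp only [zero_mul]
          exact tendsto_const_nhds
        · have hn : 0 < ‖f t‖ := norm_pos_iff.2 h
          have hgn : 0 < ‖g t‖ := norm_pos_iff.2 hgt
          have b1 : Tendsto (fun ε : ℝ => ‖g t‖ ^ 2 / (ε * ‖f t‖) ^ 2) (𝓝[>] 0) atTop := by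
            have c1 : Tendsto (fun ε : ℝ => (ε * ‖f t‖) ^ 2) (𝓝[>] 0) (𝓝[>] 0) := by
              refine tendsto_nhdsWithin_iff.2 ⟨?_, ?_⟩
              · have : Tendsto (fun ε : ℝ => (ε * ‖f t‖) ^ 2) (𝓝 0) (𝓝 ((0 * ‖f t‖) ^ 2)) := by
                  apply Continuous.tendsto
                  fun_prop
                rw [zero_mul, show (0:ℝ) ^ 2 = 0 by norm_num] at this
                exact this.mono_left nhdsWithin_le_nhds
              · filter_upwards [self_mem_nhdsWithin] with ε hε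
                have hε' : 0 < ε := hε
                show 0 < (ε * ‖f t‖) ^ 2
                positivity
            have c2 := c1.inv_tendsto_nhdsGT_zero
            have c3 := c2.const_mul_atTop (by positivity : 0 < ‖g t‖ ^ 2)
            refine c3.congr fun ε => ?_
            simp only [Pi.inv_apply]
            rw [div_eq_mul_inv]
          have b2 : Tendsto (fun v : ℝ => dd k (p / 2) 1 v) atTop (𝓝 0) := by
            have d1 : Tendsto (fun v : ℝ => |ffr (p / 2) k| * (1 + v) ^ (-((k : ℝ) - p / 2))) atTop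
                (𝓝 0) := by
              rw [← mul_zero |ffr (p / 2) k|]
              refine Tendsto.const_mul _ ?_
              have d2 : Tendsto (fun v : ℝ => 1 + v) atTop atTop :=
                tendsto_atTop_add_const_left _ _ tendsto_id
              exact (tendsto_rpow_neg_atTop (by linarith : 0 < (k : ℝ) - p / 2)).comp d2
            refine squeeze_zero_norm' ?_ d1
            filter_upwards [eventually_ge_atTop 0] with v hv
            rw [Real.norm_eq_abs]
            have := dd_bound k (by linarith : p / 2 ≤ k) hv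
            have e3 : p / 2 - (k : ℝ) = -((k : ℝ) - p / 2) := by ring
            rwa [e3] at this
          have b3 := (b2.comp b1).const_mul (‖f t‖ ^ p)
          rw [mul_zero] at b3
          exact b3
  rw [← integral_const_mul]
  refine key.congr fun ε => ?_
  rw [integral_const_mul]

end Pool.Agent.K9h78.LP
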