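import Pool.Agent.K9h78.LP.LP1
import Pool.Agent.K9h78.LP.EX2

/-! The first order term. -/

set_option autoImplicit false
open MeasureTheory Finset Filter Topology

namespace Pool.Agent.K9h78.LP

/-- the first order term -/
noncomputable def TL (p : ℝ) (k : ℕ) (L : ℂ →L[ℝ] ℝ) (δ : ℂ) : ℝ :=
  ∫ z, ph p k z * (‖z + δ‖ ^ p * L (z + δ))

theorem TL_neg (p : ℝ) (k : ℕ) (L : ℂ →L[ℝ] ℝ) (δ : ℂ) : TL p k L (-δ) = -TL p k L δ := by
  unfold TL
  rw [← integral_neg_eq_self (fun z : ℂ => ph p k z * (‖z + -δ‖ ^ p * L (z + -δ))) volume,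
    ← integral_neg]
  congr 1
  ext z
  have e : -z + -δ = -(z + δ) := by ring
  rw [ph_neg, e, norm_neg, map_neg]
  ring

theorem cp_pos {p : ℝ} (hp : 0 < p) : 0 < cp p := by
  unfold cp
  have hint : Integrable (wt p 1) volume := by
    have := int_wt hp le_rfl (G := fun _ => 1) (C := 1) (τ := 0)
      aestronglyMeasurable_const (by linarith) (fun z => by simp)
    simpa using this
  rw [integral_pos_iff_support_of_nonneg (fun z => wt_nonneg p zero_le_one z) hint]
  have : Function.support (wt p 1) = Set.univ := by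
    ext z
    simp only [Function.mem_support, Set.mem_univ, iff_true]
    unfold wt
    positivity
  rw [this]
  simp

theorem rot_int (F : ℂ → ℝ) : ∫ z : ℂ, F (Complex.I * z) = ∫ z, F z := by
  have hI : ‖Complex.I‖ = 1 := by simp
  set a : Circle := Circle.exp (Real.pi / 2) with ha
  have ha' : (a : ℂ) = Complex.I := by
    rw [ha, Circle.coe_exp]
    push_cast
    exact Complex.exp_pi_div_two_mul_I
  have h1 := (rotation a).measurePreserving.integral_comp
    (rotation a).toHomeomorph.measurableEmbedding F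
  rw [← h1]
  congr 1
  ext z
  rw [rotation_apply, ha']

theorem L_eq (L : ℂ →L[ℝ] ℝ) (z : ℂ) : L z = z.re * L 1 + z.im * L Complex.I := by
  have : z = z.re • (1 : ℂ) + z.im • Complex.I := by
    simp only [Complex.real_smul, mul_one]
    exact (Complex.re_add_im z).symm
  conv_lhs => rw [this]
  rw [map_add, map_smul, map_smul, smul_eq_mul, smul_eq_mul]

theorem two_bound (z : ℂ) {t : ℝ} (ht : |t| ≤ 1) : ‖z + t‖ ≤ 1 + ‖z‖ := by
  refine (norm_add_le _ _).trans ?_
  rw [Complex.norm_real, Real.norm_eq_abs]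
  linarith

/-- the derivative of the integrand in the direction `1` -/
noncomputable def DF (p : ℝ) (L : ℂ →L[ℝ] ℝ) (t : ℝ) (z : ℂ) : ℝ :=
  p * ‖z + t‖ ^ (p - 2) * (z.re + t) * L (z + t) + ‖z + t‖ ^ p * L 1

theorem DF_bound {p : ℝ} (hp : 0 < p) (L : ℂ →L[ℝ] ℝ) {t : ℝ} (ht : |t| ≤ 1) (z : ℂ) :
    |DF p L t z| ≤ ((p + 1) * ‖L‖) * (1 + ‖z‖) ^ p := by
  unfold DF
  set w := z + t with hw
  have hwn := two_bound z ht
  have hre : z.re + t = w.re := by simp [hw]
  rw [hre]
  have h1 : ‖w‖ ^ p ≤ (1 + ‖z‖) ^ p := Real.rpow_le_rpow (norm_nonneg _) hwn hp.le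
  have h2 : |L w| ≤ ‖L‖ * ‖w‖ := by
    have := L.le_opNorm w
    rwa [Real.norm_eq_abs] at this
  have h3 : |L 1| ≤ ‖L‖ := by
    have := L.le_opNorm 1
    rwa [Real.norm_eq_abs, norm_one, mul_one] at this
  have h4 : |w.re| ≤ ‖w‖ := Complex.abs_re_le_norm w
  have h5 : ‖w‖ ^ (p - 2) * ‖w‖ ^ 2 = ‖w‖ ^ p := by
    rcases eq_or_ne w 0 with h | h
    · rw [h, norm_zero, Real.zero_rpow hp.ne']
      simp
    · have : 0 < ‖w‖ := norm_pos_iff.2 h
      rw [← Real.rpow_natCast, ← Real.rpow_add this]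
      congr 1
      push_cast
      ring
  have h6 : |p * ‖w‖ ^ (p - 2) * w.re * L w| ≤ p * ‖L‖ * ‖w‖ ^ p := by
    rw [abs_mul, abs_mul, abs_mul, abs_of_pos hp, abs_of_nonneg (a := ‖w‖ ^ (p - 2)) (by positivity)]
    calc p * ‖w‖ ^ (p - 2) * |w.re| * |L w| ≤ p * ‖w‖ ^ (p - 2) * ‖w‖ * (‖L‖ * ‖w‖) := by
          refine mul_le_mul (mul_le_mul_of_nonneg_left h4 (by positivity)) h2 (abs_nonneg _)
            (by positivity)
      _ = p * ‖L‖ * (‖w‖ ^ (p - 2) * ‖w‖ ^ 2) := by ring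
      _ = _ := by rw [h5]
  have h7 : |‖w‖ ^ p * L 1| ≤ ‖L‖ * ‖w‖ ^ p := by
    rw [abs_mul, abs_of_nonneg (a := ‖w‖ ^ p) (by positivity), mul_comm]
    exact mul_le_mul_of_nonneg_right h3 (by positivity)
  calc _ ≤ p * ‖L‖ * ‖w‖ ^ p + ‖L‖ * ‖w‖ ^ p := (abs_add_le _ _).trans (add_le_add h6 h7)
    _ = ((p + 1) * ‖L‖) * ‖w‖ ^ p := by ring
    _ ≤ _ := mul_le_mul_of_nonneg_left h1 (by positivity)

theorem DF_meas (p : ℝ) (L : ℂ →L[ℝ] ℝ) (t : ℝ) : Measurable (DF p L t) := by
  unfold DF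
  have h1 : Measurable fun z : ℂ => ‖z + t‖ := by fun_prop
  have h2 : Measurable fun z : ℂ => L (z + t) := by fun_prop
  have h3 : Measurable fun z : ℂ => z.re + t := by fun_prop
  exact ((((h1.pow_const (p - 2)).const_mul p).mul h3).mul h2).add ((h1.pow_const p).mul_const _)

theorem DF_hasDeriv {p : ℝ} (L : ℂ →L[ℝ] ℝ) {z : ℂ} (hz : z.im ≠ 0) (t : ℝ) :
    HasDerivAt (fun t : ℝ => ‖z + t‖ ^ p * L (z + t)) (DF p L t z) t := by
  have e1 : ∀ t : ℝ, ‖z + t‖ ^ p = ((z.re + t) ^ 2 + z.im ^ 2) ^ (p / 2) := by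
    intro t
    rw [← sq_rpow_half (norm_nonneg _) p, norm_sq_re_im]
    simp
  have hpos : 0 < (z.re + t) ^ 2 + z.im ^ 2 := by positivity
  have h1 : HasDerivAt (fun t : ℝ => (z.re + t) ^ 2 + z.im ^ 2) (2 * (z.re + t)) t := by
    have h2 : HasDerivAt (fun t : ℝ => z.re + t) 1 t := (hasDerivAt_id t).const_add _
    have h3 : HasDerivAt (fun t : ℝ => (z.re + t) ^ 2 + z.im ^ 2)
        (((2:ℕ) : ℝ) * (z.re + t) ^ (2 - 1) * 1) t := (h2.pow 2).add_const _
    exact h3.congr_deriv (by norm_num)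
  have h4 := h1.rpow_const (p := p / 2) (Or.inl hpos.ne')
  have h5 : HasDerivAt (fun t : ℝ => L (z + t)) (L 1) t := by
    have h6 : HasDerivAt (fun t : ℝ => z + (t : ℂ)) 1 t :=
      (Complex.ofRealCLM.hasDerivAt (x := t)).const_add z
    exact L.hasFDerivAt.comp_hasDerivAt t h6
  have h7 := h4.mul h5
  have e2 : (fun t : ℝ => ‖z + t‖ ^ p * L (z + t)) =
      fun t : ℝ => ((z.re + t) ^ 2 + z.im ^ 2) ^ (p / 2) * L (z + t) := by
    ext t
    rw [e1]
  rw [e2]
  refine HasDerivAt.congr_deriv h7 ?_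
  unfold DF
  have e3 : ‖z + t‖ ^ (p - 2) = ((z.re + t) ^ 2 + z.im ^ 2) ^ (p / 2 - 1) := by
    rw [← sq_rpow_half (norm_nonneg _) (p - 2), norm_sq_re_im]
    simp only [Complex.add_re, Complex.ofReal_re, Complex.add_im, Complex.ofReal_im, add_zero]
    congr 1
    ring
  rw [e1, e3]
  ring

theorem im_ne_zero_ae : ∀ᵐ z : ℂ, z.im ≠ 0 := by
  have h1 : volume {z : ℂ | z.im = 0} = 0 := by
    have h2 : {z : ℂ | z.im = 0} = (LinearMap.ker Complex.imLm : Set ℂ) := by
      ext z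
      simp
    rw [h2]
    refine Measure.addHaar_submodule volume _ fun h => ?_
    have : Complex.I ∈ LinearMap.ker Complex.imLm := by rw [h]; trivial
    simp at this
  rw [ae_iff]
  simpa using h1

theorem TL_deriv {p : ℝ} (hp : 0 < p) (k : ℕ) (L : ℂ →L[ℝ] ℝ) :
    HasDerivAt (fun t : ℝ => TL p k L (t : ℂ)) (∫ z, ph p k z * DF p L 0 z) 0 := by
  have hF : ∀ t : ℝ, Continuous fun z : ℂ => ‖z + t‖ ^ p * L (z + t) := fun t =>
    (Continuous.rpow_const (by fun_prop) fun _ => Or.inr hp.le).mul (by fun_prop)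
  have hbd : Integrable (fun z : ℂ => |ph p k z| * (((p + 1) * ‖L‖) * (1 + ‖z‖) ^ p)) volume := by
    have := int_ph hp k (G := fun z => ((p + 1) * ‖L‖) * (1 + ‖z‖) ^ p) (C := (p + 1) * ‖L‖) (τ := p)
      ((continuous_const.mul
        (Continuous.rpow_const (by fun_prop) fun _ => Or.inr hp.le)).aestronglyMeasurable)
      (by linarith) (fun z => by rw [abs_of_nonneg (by positivity)])
    refine this.abs.congr (Eventually.of_forall fun z => ?_)
    simp only
    rw [abs_mul, abs_of_nonneg (a := (p + 1) * ‖L‖ * (1 + ‖z‖) ^ p) (by positivity)]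
  refine (hasDerivAt_integral_of_dominated_loc_of_deriv_le (s := Metric.ball 0 1)
    (F := fun (t : ℝ) (z : ℂ) => ph p k z * (‖z + t‖ ^ p * L (z + t)))
    (F' := fun t z => ph p k z * DF p L t z) (Metric.ball_mem_nhds _ one_pos)
    (Eventually.of_forall fun t => ((ph_cont p k).mul (hF t)).aestronglyMeasurable) ?_ ?_ ?_ hbd
    ?_).2
  · refine int_ph hp k (hF 0).aestronglyMeasurable (C := ‖L‖) (τ := p + 1) (by linarith)
      fun z => ?_
    simp only [Complex.ofReal_zero, add_zero]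
    have h2 : |L z| ≤ ‖L‖ * ‖z‖ := by
      have := L.le_opNorm z
      rwa [Real.norm_eq_abs] at this
    rw [abs_mul, abs_of_nonneg (a := ‖z‖ ^ p) (by positivity), Real.rpow_add (by positivity),
      Real.rpow_one]
    have h3 : ‖z‖ ^ p ≤ (1 + ‖z‖) ^ p := Real.rpow_le_rpow (norm_nonneg _) (by linarith) hp.le
    calc ‖z‖ ^ p * |L z| ≤ (1 + ‖z‖) ^ p * (‖L‖ * (1 + ‖z‖)) :=
          mul_le_mul h3 (h2.trans (mul_le_mul_of_nonneg_left (by linarith) (norm_nonneg _)))
            (abs_nonneg _) (by positivity)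
      _ = _ := by ring
  · exact ((ph_cont p k).measurable.mul (DF_meas p L 0)).aestronglyMeasurable
  · filter_upwards with z t ht
    have ht' : |t| ≤ 1 := by
      have : |t| < 1 := by simpa using ht
      exact this.le
    rw [norm_mul, Real.norm_eq_abs, Real.norm_eq_abs]
    exact mul_le_mul_of_nonneg_left (DF_bound hp L ht' z) (abs_nonneg _)
  · filter_upwards [im_ne_zero_ae] with z hz t _
    exact (DF_hasDeriv L hz t).const_mul _

theorem DF_int {p : ℝ} (hp : 0 < p) (k : ℕ) (L : ℂ →L[ℝ] ℝ) :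
    ∫ z, ph p k z * DF p L 0 z = (1 + p / 2) * L 1 * (cp p * dd k (p / 2) 1 0) := by
  have hker : ∫ z, ph p k z * ‖z‖ ^ p = cp p * dd k (p / 2) 1 0 := by
    have := ph_kernel hp k 1 0
    simpa using this
  have hint0 : Integrable (fun z => ph p k z * DF p L 0 z) volume :=
    int_ph hp k (DF_meas p L 0).aestronglyMeasurable (C := (p + 1) * ‖L‖) (τ := p) (by linarith)
      (fun z => DF_bound hp L (by simp) z)
  have hint1 : Integrable (fun z => ph p k z * DF p L 0 (Complex.I * z)) volume := by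
    refine int_ph hp k ((DF_meas p L 0).comp (measurable_const_mul _)).aestronglyMeasurable
      (C := (p + 1) * ‖L‖) (τ := p) (by linarith) fun z => ?_
    have := DF_bound hp L (t := 0) (by simp) (Complex.I * z)
    rw [norm_mul, Complex.norm_I, one_mul] at this
    exact this
  have h1 : ∫ z, ph p k z * DF p L 0 (Complex.I * z) = ∫ z, ph p k z * DF p L 0 z := by
    rw [← rot_int (fun z => ph p k z * DF p L 0 z)]
    congr 1
    ext z
    rw [ph_norm p k (z := Complex.I * z) (w := z) (by rw [norm_mul, Complex.norm_I, one_mul])]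
  have h2 : ∫ z, (ph p k z * DF p L 0 z + ph p k z * DF p L 0 (Complex.I * z)) =
      ∫ z, ((p + 2) * L 1) * (ph p k z * ‖z‖ ^ p) := by
    congr 1
    ext z
    unfold DF
    simp only [Complex.ofReal_zero, add_zero]
    rw [norm_mul, Complex.norm_I, one_mul, L_eq L z, L_eq L (Complex.I * z)]
    simp only [Complex.mul_re, Complex.I_re, Complex.I_im, Complex.mul_im, zero_mul, one_mul,
      zero_sub, zero_add]
    have h5 : ‖z‖ ^ (p - 2) * (z.re ^ 2 + z.im ^ 2) = ‖z‖ ^ p := by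
      rw [← norm_sq_re_im]
      rcases eq_or_ne z 0 with h | h
      · rw [h, norm_zero, Real.zero_rpow hp.ne']
        simp
      · have : 0 < ‖z‖ := norm_pos_iff.2 h
        rw [← Real.rpow_natCast, ← Real.rpow_add this]
        congr 1
        push_cast
        ring
    linear_combination (ph p k z * p * L 1) * h5
  rw [integral_add hint0 hint1, h1, integral_const_mul, hker] at h2
  linarith

end Pool.Agent.K9h78.LP
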