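import Mathlib

/-!
# Limits of sums of `|α u + β v|^(2k)` (for the passage from matrices to operators)
-/

set_option autoImplicit false

open MeasureTheory Matrix Filter Topology

namespace Pool.Agent.K9h78.LP

/-- the convex hull of a compact set in a finite-dimensional space is compact -/
theorem ops_hull {E : Type*} [NormedAddCommGroup E] [NormedSpace ℝ E] [FiniteDimensional ℝ E]
    {K : Set E} (hK : IsCompact K) : IsCompact (convexHull ℝ K) := by
  have h : convexHull ℝ K = ⋃ m ∈ Set.Iic (Module.finrank ℝ E + 1),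
      (fun p : (Fin m → ℝ) × (Fin m → E) => ∑ i, p.1 i • p.2 i) ''
        (stdSimplex ℝ (Fin m) ×ˢ Set.pi Set.univ (fun _ => K)) := by
    apply Set.Subset.antisymm
    · intro x hx
      obtain ⟨ι, _, z, w, hz, hind, hw, hsum, hx⟩ := eq_pos_convex_span_of_mem_convexHull hx
      have hcard : Fintype.card ι ≤ Module.finrank ℝ E + 1 := by
        refine hind.card_le_finrank_succ.trans ?_
        exact Nat.add_le_add_right (Submodule.finrank_le _) 1
      let e := Fintype.equivFin ι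
      refine Set.mem_biUnion (show Fintype.card ι ∈ Set.Iic (Module.finrank ℝ E + 1) from hcard) ?_
      refine ⟨(fun i => w (e.symm i), fun i => z (e.symm i)), ⟨⟨fun i => (hw _).le, ?_⟩, ?_⟩, ?_⟩
      · rw [← hsum]
        exact Equiv.sum_comp e.symm w
      · intro i _
        exact hz ⟨_, rfl⟩
      · simp only
        rw [← hx]
        exact Equiv.sum_comp e.symm (fun i => w i • z i)
    · intro x hx
      simp only [Set.mem_iUnion] at hx
      obtain ⟨m, -, p, ⟨hp1, hp2⟩, hx⟩ := hx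
      rw [← hx]
      refine (convex_convexHull ℝ K).sum_mem (fun i _ => hp1.1 i) hp1.2 fun i _ => ?_
      exact subset_convexHull ℝ K (hp2 i (Set.mem_univ i))
  rw [h]
  refine (Set.finite_Iic _).isCompact_biUnion fun m _ => ?_
  exact ((isCompact_stdSimplex ℝ (Fin m)).prod (isCompact_univ_pi fun _ => hK)).image (by fun_prop)

/-- the vector of the products of the coefficients -/
noncomputable def opsPhi (k : ℕ) (x : ℂ × ℂ) : Fin (k + 1) × Fin (k + 1) → ℂ :=
  fun p => (x.1 ^ (p.1 : ℕ) * x.2 ^ (k - p.1)) * star (x.1 ^ (p.2 : ℕ) * x.2 ^ (k - p.2))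

/-- the linear functional belonging to `(α, β)` -/
noncomputable def opsL (k : ℕ) (α β : ℂ) (e : Fin (k + 1) × Fin (k + 1) → ℂ) : ℝ :=
  (∑ p, ((k.choose p.1 : ℂ) * (α ^ (p.1 : ℕ) * β ^ (k - p.1))) *
    star ((k.choose p.2 : ℂ) * (α ^ (p.2 : ℕ) * β ^ (k - p.2))) * e p).re

theorem opsL_phi (k : ℕ) (α β : ℂ) (x : ℂ × ℂ) :
    opsL k α β (opsPhi k x) = ‖α * x.1 + β * x.2‖ ^ (2 * k) := by
  have h1 : (α * x.1 + β * x.2) ^ k = ∑ j : Fin (k + 1),
      ((k.choose j : ℂ) * (α ^ (j : ℕ) * β ^ (k - j))) * (x.1 ^ (j : ℕ) * x.2 ^ (k - j)) := by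
    rw [add_pow, Finset.sum_range]
    refine Finset.sum_congr rfl fun j _ => ?_
    rw [mul_pow, mul_pow]
    ring
  have h2 : (((α * x.1 + β * x.2) ^ k) * star ((α * x.1 + β * x.2) ^ k) : ℂ) =
      ((‖α * x.1 + β * x.2‖ ^ (2 * k) : ℝ) : ℂ) := by
    rw [Complex.star_def, Complex.mul_conj, Complex.normSq_eq_norm_sq, norm_pow]
    push_cast
    ring
  have h3 : opsL k α β (opsPhi k x) =
      (((α * x.1 + β * x.2) ^ k) * star ((α * x.1 + β * x.2) ^ k)).re := by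
    unfold opsL
    congr 1
    rw [h1, star_sum, Finset.sum_mul_sum, Fintype.sum_prod_type]
    refine Finset.sum_congr rfl fun i _ => Finset.sum_congr rfl fun j _ => ?_
    unfold opsPhi
    simp only [star_mul']
    ring
  rw [h3, h2, Complex.ofReal_re]

theorem opsL_smul (k : ℕ) (α β : ℂ) (c : ℝ) (e : Fin (k + 1) × Fin (k + 1) → ℂ) :
    opsL k α β (c • e) = c * opsL k α β e := by
  unfold opsL
  rw [← Complex.re_ofReal_mul, Finset.mul_sum]
  congr 1
  refine Finset.sum_congr rfl fun p _ => ?_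
  rw [Pi.smul_apply, Complex.real_smul]
  ring

theorem opsL_sum (k : ℕ) (α β : ℂ) {ι : Type*} (s : Finset ι)
    (e : ι → Fin (k + 1) × Fin (k + 1) → ℂ) :
    opsL k α β (∑ i ∈ s, e i) = ∑ i ∈ s, opsL k α β (e i) := by
  unfold opsL
  rw [← Complex.re_sum, Finset.sum_comm]
  congr 1
  refine Finset.sum_congr rfl fun p _ => ?_
  rw [Finset.sum_apply, Finset.mul_sum]

theorem opsL_cont (k : ℕ) (α β : ℂ) : Continuous (opsL k α β) := by
  unfold opsL
  fun_prop

theorem opsPhi_cont (k : ℕ) : Continuous (opsPhi k) := by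
  unfold opsPhi
  fun_prop

theorem opsPhi_scale (k : ℕ) (r : ℝ) (x : ℂ × ℂ) :
    opsPhi k ((r : ℂ) * x.1, (r : ℂ) * x.2) = (r ^ (2 * k)) • opsPhi k x := by
  ext p
  rw [Pi.smul_apply, Complex.real_smul]
  unfold opsPhi
  simp only [mul_pow, star_mul', star_pow, Complex.star_def, Complex.conj_ofReal]
  have h1 : ((p.1 : ℕ) + (k - p.1)) = k := by have := p.1.2; omega
  have h2 : ((p.2 : ℕ) + (k - p.2)) = k := by have := p.2.2; omega
  have e1 : (r : ℂ) ^ (p.1 : ℕ) * (r : ℂ) ^ (k - p.1) = (r : ℂ) ^ k := by rw [← pow_add, h1]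
  have e2 : (r : ℂ) ^ (p.2 : ℕ) * (r : ℂ) ^ (k - p.2) = (r : ℂ) ^ k := by rw [← pow_add, h2]
  have e3 : ((r ^ (2 * k) : ℝ) : ℂ) = (r : ℂ) ^ k * (r : ℂ) ^ k := by push_cast; ring
  rw [e3]
  nth_rewrite 1 [← e1]
  rw [← e2]
  ring

/-- the compact set of the normalised pairs -/
def opsK (k : ℕ) : Set (ℂ × ℂ) := {x | ‖x.1‖ ^ (2 * k) + ‖x.2‖ ^ (2 * k) ≤ 1}

theorem opsK_compact (k : ℕ) (hk : k ≠ 0) : IsCompact (opsK k) := by
  apply Metric.isCompact_of_isClosed_isBounded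
  · exact isClosed_le (by fun_prop) continuous_const
  · refine (Metric.isBounded_closedBall (x := (0 : ℂ × ℂ)) (r := 1)).subset ?_
    intro x hx
    rw [mem_closedBall_zero_iff, Prod.norm_def, max_le_iff]
    have h0 : 2 * k ≠ 0 := by omega
    have h1 : 0 ≤ ‖x.1‖ ^ (2 * k) := by positivity
    have h2 : 0 ≤ ‖x.2‖ ^ (2 * k) := by positivity
    have hx' : ‖x.1‖ ^ (2 * k) + ‖x.2‖ ^ (2 * k) ≤ 1 := hx
    constructor
    · exact (pow_le_one_iff_of_nonneg (norm_nonneg _) h0).1 (by linarith)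
    · exact (pow_le_one_iff_of_nonneg (norm_nonneg _) h0).1 (by linarith)

theorem ops_root (k : ℕ) (hk : k ≠ 0) (s : ℝ) (hs : 0 ≤ s) : ∃ r : ℝ, 0 ≤ r ∧ r ^ (2 * k) = s := by
  refine ⟨s ^ (1 / ((2 * k : ℕ) : ℝ)), by positivity, ?_⟩
  rw [← Real.rpow_natCast, ← Real.rpow_mul hs, one_div, inv_mul_cancel₀, Real.rpow_one]
  have : (2 * k : ℕ) ≠ 0 := by omega
  exact_mod_cast this

theorem opsPhi_norm (k : ℕ) (hk : k ≠ 0) (x : ℂ × ℂ) : ∃ y ∈ opsK k,
    opsPhi k x = (‖x.1‖ ^ (2 * k) + ‖x.2‖ ^ (2 * k)) • opsPhi k y := by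
  have h0 : 2 * k ≠ 0 := by omega
  have h1 : 0 ≤ ‖x.1‖ ^ (2 * k) := by positivity
  have h2 : 0 ≤ ‖x.2‖ ^ (2 * k) := by positivity
  obtain ⟨r, hr, hrs⟩ := ops_root k hk (‖x.1‖ ^ (2 * k) + ‖x.2‖ ^ (2 * k)) (by linarith)
  rcases eq_or_lt_of_le hr with h | h
  · refine ⟨0, ?_, ?_⟩
    · change ‖(0 : ℂ × ℂ).1‖ ^ (2 * k) + ‖(0 : ℂ × ℂ).2‖ ^ (2 * k) ≤ 1
      simp [h0]
    · rw [← h, zero_pow h0] at hrs
      have e1 : ‖x.1‖ ^ (2 * k) = 0 := by linarith
      have e2 : ‖x.2‖ ^ (2 * k) = 0 := by linarith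
      have e3 : x.1 = 0 := norm_eq_zero.1 (pow_eq_zero_iff h0 |>.1 e1)
      have e4 : x.2 = 0 := norm_eq_zero.1 (pow_eq_zero_iff h0 |>.1 e2)
      have e5 : x = ((0 : ℝ) * x.1, (0 : ℝ) * x.2) := by
        apply Prod.ext
        · simp [e3]
        · simp [e4]
      rw [← hrs, zero_smul]
      have e6 := opsPhi_scale k 0 x
      rw [zero_pow h0, zero_smul] at e6
      rw [← e6]
      congr 1
  · refine ⟨((r⁻¹ : ℝ) * x.1, (r⁻¹ : ℝ) * x.2), ?_, ?_⟩
    · change ‖((r⁻¹ : ℝ) : ℂ) * x.1‖ ^ (2 * k) + ‖((r⁻¹ : ℝ) : ℂ) * x.2‖ ^ (2 * k) ≤ 1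
      rw [norm_mul, norm_mul, mul_pow, mul_pow, ← mul_add, ← hrs, Complex.norm_real,
        Real.norm_eq_abs, abs_of_pos (inv_pos.2 h), ← mul_pow, inv_mul_cancel₀ h.ne', one_pow]
    · rw [opsPhi_scale, smul_smul, ← hrs, ← mul_pow, mul_inv_cancel₀ h.ne', one_pow, one_smul]

/-- limits of sums of `|α u + β v|^(2k)` are of the same form -/
theorem ops_lc (k : ℕ) (hk : k ≠ 0) (N : ℕ → ℂ → ℂ → ℝ) (C : ℝ)
    (hN : ∀ n, ∃ (m : ℕ) (u v : Fin m → ℂ), ∀ α β : ℂ,
      N n α β = ∑ i, ‖α * u i + β * v i‖ ^ (2 * k))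
    (hC : ∀ n, N n 1 0 ≤ C ∧ N n 0 1 ≤ C) :
    ∃ (m : ℕ) (u v : Fin m → ℂ), ∃ φ : ℕ → ℕ, StrictMono φ ∧
      ∀ α β : ℂ, Tendsto (fun n => N (φ n) α β) atTop
        (𝓝 (∑ i, ‖α * u i + β * v i‖ ^ (2 * k))) := by
  have h0 : 2 * k ≠ 0 := by omega
  choose m u v huv using hN
  have hC0 : 0 ≤ C := by
    refine le_trans ?_ (hC 0).1
    rw [huv]
    positivity
  set R : ℝ := 2 * C + 1 with hR
  have hR0 : 0 < R := by linarith
  set S : Set (Fin (k + 1) × Fin (k + 1) → ℂ) := convexHull ℝ (opsPhi k '' opsK k) with hS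
  have hScomp : IsCompact S := ops_hull ((opsK_compact k hk).image (opsPhi_cont k))
  set E : ℕ → (Fin (k + 1) × Fin (k + 1) → ℂ) :=
    fun n => R⁻¹ • ∑ i, opsPhi k (u n i, v n i) with hE
  have hzero : (0 : Fin (k + 1) × Fin (k + 1) → ℂ) ∈ S := by
    refine subset_convexHull ℝ _ ⟨0, ?_, ?_⟩
    · change ‖(0 : ℂ × ℂ).1‖ ^ (2 * k) + ‖(0 : ℂ × ℂ).2‖ ^ (2 * k) ≤ 1
      simp [h0]
    · have e6 := opsPhi_scale k 0 0
      rw [zero_pow h0, zero_smul] at e6
      rw [← e6]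
      congr 1
      simp
      rfl
  have hmem : ∀ n, E n ∈ S := by
    intro n
    choose y hy hyx using fun i => opsPhi_norm k hk (u n i, v n i)
    have e1 : E n = ∑ i, (R⁻¹ * (‖u n i‖ ^ (2 * k) + ‖v n i‖ ^ (2 * k))) • opsPhi k (y i) := by
      rw [hE]
      simp only
      rw [Finset.smul_sum]
      refine Finset.sum_congr rfl fun i _ => ?_
      rw [hyx i, smul_smul]
    have e2 : ∑ i, (‖u n i‖ ^ (2 * k) + ‖v n i‖ ^ (2 * k)) ≤ 2 * C := by
      have := hC n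
      rw [huv, huv] at this
      simp only [one_mul, zero_mul, add_zero, zero_add] at this
      rw [Finset.sum_add_distrib]
      linarith [this.1, this.2]
    have e3 : ∑ i, (R⁻¹ * (‖u n i‖ ^ (2 * k) + ‖v n i‖ ^ (2 * k))) ≤ 1 := by
      rw [← Finset.mul_sum, inv_mul_le_iff₀ hR0]
      linarith
    rw [e1]
    have e4 := (convex_convexHull ℝ (opsPhi k '' opsK k)).sum_mem
      (t := (Finset.univ : Finset (Option (Fin (m n)))))
      (w := fun o => o.elim (1 - ∑ i, (R⁻¹ * (‖u n i‖ ^ (2 * k) + ‖v n i‖ ^ (2 * k))))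
        (fun i => R⁻¹ * (‖u n i‖ ^ (2 * k) + ‖v n i‖ ^ (2 * k))))
      (z := fun o => o.elim 0 (fun i => opsPhi k (y i)))
      (by
        intro o _
        cases o with
        | none => simp only [Option.elim]; linarith
        | some i => simp only [Option.elim]; positivity)
      (by
        rw [Fintype.sum_option]
        simp only [Option.elim]
        ring)
      (by
        intro o _
        cases o with
        | none => exact hzero
        | some i => exact subset_convexHull ℝ _ ⟨y i, hy i, rfl⟩)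
    rw [Fintype.sum_option] at e4
    simp only [Option.elim, smul_zero, zero_add] at e4
    exact e4
  obtain ⟨e, heS, φ, hφ, hlim⟩ := hScomp.tendsto_subseq hmem
  rw [hS, mem_convexHull_iff_exists_fintype] at heS
  obtain ⟨ι, _, w, z, hw, -, hz, hez⟩ := heS
  choose y hy hyz using hz
  choose r hr hrw using fun i => ops_root k hk (R * w i) (mul_nonneg hR0.le (hw i))
  let eq := Fintype.equivFin ι
  refine ⟨Fintype.card ι, fun i => (r (eq.symm i) : ℂ) * (y (eq.symm i)).1,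
    fun i => (r (eq.symm i) : ℂ) * (y (eq.symm i)).2, φ, hφ, fun α β => ?_⟩
  have f1 : ∀ n, N n α β = R * opsL k α β (E n) := by
    intro n
    rw [← opsL_smul, hE]
    simp only
    rw [smul_smul, mul_inv_cancel₀ hR0.ne', one_smul, opsL_sum, huv]
    refine Finset.sum_congr rfl fun i _ => ?_
    rw [opsL_phi]
  have f2 : ∑ i, ‖α * ((r (eq.symm i) : ℂ) * (y (eq.symm i)).1) +
      β * ((r (eq.symm i) : ℂ) * (y (eq.symm i)).2)‖ ^ (2 * k) = R * opsL k α β e := by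
    rw [Equiv.sum_comp eq.symm (fun i => ‖α * ((r i : ℂ) * (y i).1) +
      β * ((r i : ℂ) * (y i).2)‖ ^ (2 * k)), ← opsL_smul, ← hez, Finset.smul_sum, opsL_sum]
    refine Finset.sum_congr rfl fun i _ => ?_
    have := opsL_phi k α β ((r i : ℂ) * (y i).1, (r i : ℂ) * (y i).2)
    simp only at this
    rw [← this, opsPhi_scale, hrw, ← hyz i, smul_smul]
  rw [f2]
  have f3 : Tendsto (fun n => R * opsL k α β (E (φ n))) atTop (𝓝 (R * opsL k α β e)) :=
    (((opsL_cont k α β).tendsto e).comp hlim).const_mul R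
  exact f3.congr fun n => (f1 (φ n)).symm

end Pool.Agent.K9h78.LP
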