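import Pool.Agent.R260.SC.Defs2

/-!
# `tr |M|^6` is the limit over the corners
-/

set_option autoImplicit false

open MeasureTheory Matrix Filter Topology
open scoped ComplexOrder

namespace Pool.Agent.K9h78.LP

open Pool.Agent.R260.SC (corner)

/-- a Jensen inequality for unit vectors -/
theorem ops_jensen {H : Type*} [NormedAddCommGroup H] [InnerProductSpace ℂ H] [CompleteSpace H]
    (M : H →L[ℂ] H) (v : H) (hv : ‖v‖ ≤ 1) :
    ‖M v‖ ^ 6 ≤ ‖M ((ContinuousLinearMap.adjoint M) (M v))‖ ^ 2 := by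
  have h1 : ‖M v‖ ^ 2 ≤ ‖(ContinuousLinearMap.adjoint M) (M v)‖ := by
    have e1 : (‖M v‖ ^ 2 : ℝ) = (inner ℂ v ((ContinuousLinearMap.adjoint M) (M v)) : ℂ).re := by
      rw [ContinuousLinearMap.adjoint_inner_right, inner_self_eq_norm_sq_to_K]
      norm_cast
    rw [e1]
    calc (inner ℂ v ((ContinuousLinearMap.adjoint M) (M v)) : ℂ).re
        ≤ ‖(inner ℂ v ((ContinuousLinearMap.adjoint M) (M v)) : ℂ)‖ := Complex.re_le_norm _
      _ ≤ ‖v‖ * ‖(ContinuousLinearMap.adjoint M) (M v)‖ := norm_inner_le_norm _ _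
      _ ≤ 1 * ‖(ContinuousLinearMap.adjoint M) (M v)‖ :=
          mul_le_mul_of_nonneg_right hv (norm_nonneg _)
      _ = _ := one_mul _
  have h2 : ‖(ContinuousLinearMap.adjoint M) (M v)‖ ^ 2 ≤
      ‖M v‖ * ‖M ((ContinuousLinearMap.adjoint M) (M v))‖ := by
    have e1 : (‖(ContinuousLinearMap.adjoint M) (M v)‖ ^ 2 : ℝ) =
        (inner ℂ (M v) (M ((ContinuousLinearMap.adjoint M) (M v))) : ℂ).re := by
      rw [← ContinuousLinearMap.adjoint_inner_left, inner_self_eq_norm_sq_to_K]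
      norm_cast
    rw [e1]
    exact (Complex.re_le_norm _).trans (norm_inner_le_norm _ _)
  generalize ‖M ((ContinuousLinearMap.adjoint M) (M v))‖ = c at *
  have hc0 : 0 ≤ ‖(ContinuousLinearMap.adjoint M) (M v)‖ := norm_nonneg _
  generalize ‖(ContinuousLinearMap.adjoint M) (M v)‖ = b' at *
  have ha0 : 0 ≤ ‖M v‖ := norm_nonneg _
  generalize ‖M v‖ = a at *
  rcases eq_or_lt_of_le ha0 with h | h
  · rw [← h]
    have : (0 : ℝ) ^ 6 = 0 := by norm_num
    rw [this]
    positivity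
  · have h3 : a ^ 4 ≤ a * c := by
      calc a ^ 4 = (a ^ 2) ^ 2 := by ring
        _ ≤ b' ^ 2 := pow_le_pow_left₀ (by positivity) h1 2
        _ ≤ a * c := h2
    have h4 : a ^ 3 ≤ c := by
      have : a * a ^ 3 ≤ a * c := by
        calc a * a ^ 3 = a ^ 4 := by ring
          _ ≤ _ := h3
      exact le_of_mul_le_mul_left this h
    calc a ^ 6 = (a ^ 3) ^ 2 := by ring
      _ ≤ c ^ 2 := pow_le_pow_left₀ (by positivity) h4 2

/-- spectral decomposition of a Hermitian matrix -/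
theorem ops_spec {n : ℕ} (X : Matrix (Fin n) (Fin n) ℂ) (hX : X.IsHermitian) :
    ∃ (U : Matrix (Fin n) (Fin n) ℂ) (l : Fin n → ℝ), U * Uᴴ = 1 ∧ Uᴴ * U = 1 ∧
      X = U * diagonal (fun i => (l i : ℂ)) * Uᴴ := by
  refine ⟨(hX.eigenvectorUnitary : Matrix (Fin n) (Fin n) ℂ), hX.eigenvalues, ?_, ?_, ?_⟩
  · have := Matrix.mem_unitaryGroup_iff.1 hX.eigenvectorUnitary.2
    rwa [Matrix.star_eq_conjTranspose] at this
  · have := Matrix.mem_unitaryGroup_iff'.1 hX.eigenvectorUnitary.2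
    rwa [Matrix.star_eq_conjTranspose] at this
  · have := hX.spectral_theorem
    rw [Unitary.conjStarAlgAut_apply] at this
    exact this

/-- the corners have a smaller `tr |M|^6` -/
theorem ops_iu {H : Type*} [NormedAddCommGroup H] [InnerProductSpace ℂ H] [CompleteSpace H]
    (b : HilbertBasis ℕ ℂ H) (M : H →L[ℂ] H) (n : ℕ) :
    ENNReal.ofReal ((((corner b M n)ᴴ * corner b M n) ^ 3).trace).re ≤
      ∑' i, ENNReal.ofReal (‖M ((ContinuousLinearMap.adjoint M) (M (b i)))‖ ^ 2) := by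
  classical
  set C : Matrix (Fin n) (Fin n) ℂ := corner b M n with hC
  have hb : Orthonormal ℂ (fun k : Fin n => b (k : ℕ)) :=
    b.orthonormal.comp (fun k : Fin n => (k : ℕ)) Fin.val_injective
  obtain ⟨U, l, h1, h2, h3⟩ := ops_spec (Cᴴ * C) (isHermitian_conjTranspose_mul_self C)
  set W : H →L[ℂ] H := M.comp ((ContinuousLinearMap.adjoint M).comp M) with hW
  let v : Fin n → H := fun k => ∑ i : Fin n, U i k • b (i : ℕ)
  -- unit vectors
  have hUk : ∀ i j : Fin n, ∑ k, (starRingEnd ℂ) (U k i) * U k j = if i = j then 1 else 0 := by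
    intro i j
    have := congrFun (congrFun h2 i) j
    rw [Matrix.mul_apply, Matrix.one_apply] at this
    simpa [Matrix.conjTranspose_apply] using this
  have hUk' : ∀ i j : Fin n, ∑ k, (starRingEnd ℂ) (U i k) * U j k = if i = j then 1 else 0 := by
    intro i j
    have := congrFun (congrFun h1 j) i
    rw [Matrix.mul_apply, Matrix.one_apply] at this
    simp only [Matrix.conjTranspose_apply] at this
    rw [show (if i = j then (1 : ℂ) else 0) = if j = i then 1 else 0 by simp [eq_comm], ← this]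
    exact Finset.sum_congr rfl fun k _ => by rw [mul_comm]; rfl
  have hv : ∀ k, ‖v k‖ = 1 := by
    intro k
    have e1 : inner ℂ (v k) (v k) = (1 : ℂ) := by
      simp only [v]
      rw [hb.inner_sum, hUk]
      simp
    have e0 : ((‖v k‖ ^ 2 : ℝ) : ℂ) = inner ℂ (v k) (v k) := by
      rw [inner_self_eq_norm_sq_to_K]
      norm_cast
    rw [e1] at e0
    have e2 : ‖v k‖ ^ 2 = 1 := by exact_mod_cast e0
    have := norm_nonneg (v k)
    nlinarith
  -- the eigenvalues
  have hCU : ∀ j k, (C * U) j k = inner ℂ (b (j : ℕ)) (M (v k)) := by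
    intro j k
    simp only [v]
    rw [map_sum, inner_sum, Matrix.mul_apply]
    refine Finset.sum_congr rfl fun i _ => ?_
    rw [map_smul, inner_smul_right, mul_comm, hC]
    rfl
  have hl : ∀ k, l k = ∑ j : Fin n, ‖(inner ℂ (b (j : ℕ)) (M (v k)) : ℂ)‖ ^ 2 := by
    intro k
    have e1 : (C * U)ᴴ * (C * U) = diagonal (fun i => (l i : ℂ)) := by
      calc (C * U)ᴴ * (C * U) = Uᴴ * (Cᴴ * C) * U := by
            rw [Matrix.conjTranspose_mul]; simp only [Matrix.mul_assoc]
        _ = Uᴴ * (U * diagonal (fun i => (l i : ℂ)) * Uᴴ) * U := by rw [h3]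
        _ = (Uᴴ * U) * diagonal (fun i => (l i : ℂ)) * (Uᴴ * U) := by
            simp only [Matrix.mul_assoc]
        _ = _ := by rw [h2, Matrix.one_mul, Matrix.mul_one]
    have e2 := congrFun (congrFun e1 k) k
    rw [Matrix.mul_apply, Matrix.diagonal_apply_eq] at e2
    have e3 : ((∑ j : Fin n, ‖(inner ℂ (b (j : ℕ)) (M (v k)) : ℂ)‖ ^ 2 : ℝ) : ℂ) = (l k : ℂ) := by
      rw [← e2]
      push_cast
      refine Finset.sum_congr rfl fun j _ => ?_
      rw [Matrix.conjTranspose_apply, hCU, RCLike.star_def, ← Complex.normSq_eq_conj_mul_self,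
        Complex.normSq_eq_norm_sq]
      push_cast
      rfl
    exact_mod_cast e3.symm
  have hl0 : ∀ k, 0 ≤ l k := fun k => by rw [hl]; positivity
  have hl1 : ∀ k, l k ≤ ‖M (v k)‖ ^ 2 := by
    intro k
    rw [hl]
    exact hb.sum_inner_products_le _
  have hl3 : ∀ k, l k ^ 3 ≤ ‖W (v k)‖ ^ 2 := by
    intro k
    calc l k ^ 3 ≤ (‖M (v k)‖ ^ 2) ^ 3 := pow_le_pow_left₀ (hl0 k) (hl1 k) 3
      _ = ‖M (v k)‖ ^ 6 := by ring
      _ ≤ _ := ops_jensen M (v k) (hv k).le
  -- the trace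
  have htr : ((Cᴴ * C) ^ 3).trace.re = ∑ k, l k ^ 3 := by
    have e1 : (Cᴴ * C) ^ 3 = U * (diagonal (fun i => (l i : ℂ))) ^ 3 * Uᴴ := by
      rw [h3]
      set D := diagonal (fun i => (l i : ℂ))
      calc (U * D * Uᴴ) ^ 3 = U * D * (Uᴴ * U) * D * (Uᴴ * U) * D * Uᴴ := by
            rw [pow_succ, pow_two]; simp only [Matrix.mul_assoc]
        _ = U * D ^ 3 * Uᴴ := by
            rw [h2, pow_succ, pow_two]; simp only [Matrix.mul_one, Matrix.mul_assoc]
    rw [e1, Matrix.mul_assoc, Matrix.trace_mul_comm, Matrix.mul_assoc, h2, Matrix.mul_one,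
      Matrix.diagonal_pow, Matrix.trace_diagonal, Complex.re_sum]
    refine Finset.sum_congr rfl fun k _ => ?_
    rw [Pi.pow_apply, ← Complex.ofReal_pow, Complex.ofReal_re]
  have hsum : ∑ k, ‖W (v k)‖ ^ 2 = ∑ i : Fin n, ‖W (b (i : ℕ))‖ ^ 2 := by
    have e1 : ∀ x : H, ((‖x‖ ^ 2 : ℝ) : ℂ) = inner ℂ x x := by
      intro x
      rw [inner_self_eq_norm_sq_to_K]
      norm_cast
    have e2 : ((∑ k, ‖W (v k)‖ ^ 2 : ℝ) : ℂ) = ((∑ i : Fin n, ‖W (b (i : ℕ))‖ ^ 2 : ℝ) : ℂ) := by
      rw [Complex.ofReal_sum, Complex.ofReal_sum]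
      simp only [e1]
      have e3 : ∀ k, inner ℂ (W (v k)) (W (v k)) = ∑ i : Fin n, ∑ j : Fin n,
          ((starRingEnd ℂ) (U i k) * U j k) * inner ℂ (W (b (i : ℕ))) (W (b (j : ℕ))) := by
        intro k
        simp only [v]
        rw [map_sum, sum_inner]
        refine Finset.sum_congr rfl fun i _ => ?_
        rw [inner_sum]
        refine Finset.sum_congr rfl fun j _ => ?_
        rw [map_smul, map_smul, inner_smul_left, inner_smul_right]
        ring
      simp only [e3]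
      rw [Finset.sum_comm]
      refine Finset.sum_congr rfl fun i _ => ?_
      rw [Finset.sum_comm]
      simp only [← Finset.sum_mul, hUk', ite_mul, one_mul, zero_mul]
      simp
    exact_mod_cast e2
  calc ENNReal.ofReal ((Cᴴ * C) ^ 3).trace.re
      ≤ ENNReal.ofReal (∑ i : Fin n, ‖W (b (i : ℕ))‖ ^ 2) := by
        apply ENNReal.ofReal_le_ofReal
        rw [htr, ← hsum]
        exact Finset.sum_le_sum fun k _ => hl3 k
    _ = ∑ i : Fin n, ENNReal.ofReal (‖W (b (i : ℕ))‖ ^ 2) :=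
        ENNReal.ofReal_sum_of_nonneg fun i _ => by positivity
    _ = ∑ i ∈ Finset.range n, ENNReal.ofReal (‖W (b i)‖ ^ 2) :=
        Fin.sum_univ_eq_sum_range (fun i => ENNReal.ofReal (‖W (b i)‖ ^ 2)) n
    _ ≤ ∑' i, ENNReal.ofReal (‖W (b i)‖ ^ 2) := ENNReal.sum_le_tsum _

/-- partial sums of the expansion -/
noncomputable def opsP {H : Type*} [NormedAddCommGroup H] [InnerProductSpace ℂ H]
    (b : HilbertBasis ℕ ℂ H) (n : ℕ) (y : H) : H := ∑ l ∈ Finset.range n, (inner ℂ (b l) y : ℂ) • b l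

theorem opsP_tendsto {H : Type*} [NormedAddCommGroup H] [InnerProductSpace ℂ H] [CompleteSpace H]
    (b : HilbertBasis ℕ ℂ H) (y : H) : Tendsto (fun n => opsP b n y) atTop (𝓝 y) := by
  have h := (b.hasSum_repr y).tendsto_sum_nat
  simp only [b.repr_apply_apply] at h
  exact h

theorem opsP_norm {H : Type*} [NormedAddCommGroup H] [InnerProductSpace ℂ H] [CompleteSpace H]
    (b : HilbertBasis ℕ ℂ H) (n : ℕ) (y : H) : ‖opsP b n y‖ ≤ ‖y‖ := by
  have h1 : ‖opsP b n y‖ ^ 2 = ∑ l ∈ Finset.range n, ‖(inner ℂ (b l) y : ℂ)‖ ^ 2 := by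
    have e1 : inner ℂ (opsP b n y) (opsP b n y) =
        ((∑ l ∈ Finset.range n, ‖(inner ℂ (b l) y : ℂ)‖ ^ 2 : ℝ) : ℂ) := by
      unfold opsP
      rw [b.orthonormal.inner_sum]
      push_cast
      refine Finset.sum_congr rfl fun l _ => ?_
      rw [← Complex.normSq_eq_conj_mul_self, Complex.normSq_eq_norm_sq]
      push_cast
      rfl
    have e0 : ((‖opsP b n y‖ ^ 2 : ℝ) : ℂ) = inner ℂ (opsP b n y) (opsP b n y) := by
      rw [inner_self_eq_norm_sq_to_K]
      norm_cast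
    rw [e1] at e0
    exact_mod_cast e0
  have h2 : ‖opsP b n y‖ ^ 2 ≤ ‖y‖ ^ 2 := by
    rw [h1]
    exact b.orthonormal.sum_inner_products_le y
  exact le_of_sq_le_sq h2 (norm_nonneg _)

theorem opsP_sub {H : Type*} [NormedAddCommGroup H] [InnerProductSpace ℂ H] [CompleteSpace H]
    (b : HilbertBasis ℕ ℂ H) (n : ℕ) (x y : H) : opsP b n (x - y) = opsP b n x - opsP b n y := by
  unfold opsP
  rw [← Finset.sum_sub_distrib]
  refine Finset.sum_congr rfl fun l _ => ?_
  rw [inner_sub_right, sub_smul]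

theorem opsP_tendsto' {H : Type*} [NormedAddCommGroup H] [InnerProductSpace ℂ H] [CompleteSpace H]
    (b : HilbertBasis ℕ ℂ H) {y : ℕ → H} {y₀ : H} (hy : Tendsto y atTop (𝓝 y₀)) :
    Tendsto (fun n => opsP b n (y n)) atTop (𝓝 y₀) := by
  have h1 : Tendsto (fun n => opsP b n (y n - y₀)) atTop (𝓝 0) := by
    rw [tendsto_zero_iff_norm_tendsto_zero]
    have h2 : Tendsto (fun n => ‖y n - y₀‖) atTop (𝓝 0) := by
      rw [← tendsto_zero_iff_norm_tendsto_zero]
      have := hy.sub_const y₀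
      rwa [sub_self] at this
    exact squeeze_zero (fun n => norm_nonneg _) (fun n => opsP_norm b n _) h2
  have h3 := h1.add (opsP_tendsto b y₀)
  rw [zero_add] at h3
  refine h3.congr fun n => ?_
  rw [opsP_sub]
  abel

theorem opsP_inner {H : Type*} [NormedAddCommGroup H] [InnerProductSpace ℂ H] [CompleteSpace H]
    (b : HilbertBasis ℕ ℂ H) (n : ℕ) (x y : H) :
    inner ℂ x (opsP b n y) = ∑ l : Fin n, inner ℂ x (b (l : ℕ)) * inner ℂ (b (l : ℕ)) y := by
  unfold opsP
  rw [inner_sum, Finset.sum_range]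
  refine Finset.sum_congr rfl fun l _ => ?_
  rw [inner_smul_right, mul_comm]

/-- `tr |M|^6` is at most the lower limit over the corners -/
theorem ops_iw {H : Type*} [NormedAddCommGroup H] [InnerProductSpace ℂ H] [CompleteSpace H]
    (b : HilbertBasis ℕ ℂ H) (M : H →L[ℂ] H) :
    ∑' i, ENNReal.ofReal (‖M ((ContinuousLinearMap.adjoint M) (M (b i)))‖ ^ 2) ≤
      Filter.liminf (fun n => ENNReal.ofReal
        ((((corner b M n)ᴴ * corner b M n) ^ 3).trace).re) Filter.atTop := by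
  classical
  set W : H →L[ℂ] H := M.comp ((ContinuousLinearMap.adjoint M).comp M) with hW
  set Y : ℕ → ℕ → ℕ → ℂ := fun n i j =>
    inner ℂ (b i) (M (opsP b n ((ContinuousLinearMap.adjoint M) (opsP b n (M (b j)))))) with hYd
  have hY : ∀ i j, Tendsto (fun n => Y n i j) atTop (𝓝 (inner ℂ (b i) (W (b j)))) := by
    intro i j
    have t1 : Tendsto (fun n => (ContinuousLinearMap.adjoint M) (opsP b n (M (b j)))) atTop
        (𝓝 ((ContinuousLinearMap.adjoint M) (M (b j)))) :=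
      ((ContinuousLinearMap.adjoint M).continuous.tendsto _).comp (opsP_tendsto b (M (b j)))
    have t2 := (M.continuous.tendsto _).comp (opsP_tendsto' b t1)
    exact (tendsto_const_nhds (x := b i)).inner t2
  have hX : ∀ n (i j : Fin n), (corner b M n * ((corner b M n)ᴴ * corner b M n)) i j = Y n i j := by
    intro n i j
    simp only [hYd]
    rw [Matrix.mul_apply]
    have e1 : inner ℂ (b (i : ℕ)) (M (opsP b n ((ContinuousLinearMap.adjoint M)
        (opsP b n (M (b (j : ℕ))))))) = inner ℂ ((ContinuousLinearMap.adjoint M) (b (i : ℕ)))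
          (opsP b n ((ContinuousLinearMap.adjoint M) (opsP b n (M (b (j : ℕ)))))) := by
      rw [ContinuousLinearMap.adjoint_inner_left]
    rw [e1, opsP_inner]
    refine Finset.sum_congr rfl fun k _ => ?_
    rw [ContinuousLinearMap.adjoint_inner_left, ContinuousLinearMap.adjoint_inner_right,
      opsP_inner, Matrix.mul_apply]
    congr 1
    refine Finset.sum_congr rfl fun l _ => ?_
    rw [Matrix.conjTranspose_apply]
    unfold corner
    rw [← inner_conj_symm (M (b k)) (b l)]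
    rfl
  have htr : ∀ n, ((((corner b M n)ᴴ * corner b M n) ^ 3).trace).re =
      ∑ i ∈ Finset.range n, ∑ j ∈ Finset.range n, ‖Y n i j‖ ^ 2 := by
    intro n
    have e0 : ((corner b M n)ᴴ * corner b M n) ^ 3 =
        (corner b M n * ((corner b M n)ᴴ * corner b M n))ᴴ *
          (corner b M n * ((corner b M n)ᴴ * corner b M n)) := by
      rw [pow_succ, pow_two, Matrix.conjTranspose_mul, Matrix.conjTranspose_mul,
        Matrix.conjTranspose_conjTranspose]
      simp only [Matrix.mul_assoc]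
    rw [e0, Matrix.trace, Complex.re_sum, Finset.sum_comm, Finset.sum_range]
    refine Finset.sum_congr rfl fun j _ => ?_
    rw [Matrix.diag_apply, Matrix.mul_apply, Complex.re_sum, Finset.sum_range]
    refine Finset.sum_congr rfl fun i _ => ?_
    rw [Matrix.conjTranspose_apply, hX, RCLike.star_def, ← Complex.normSq_eq_conj_mul_self,
      Complex.ofReal_re, Complex.normSq_eq_norm_sq]
  have hlim : ∀ p : ℕ × ℕ, Tendsto (fun n => ENNReal.ofReal (‖Y n p.1 p.2‖ ^ 2)) atTop
      (𝓝 (ENNReal.ofReal (‖(inner ℂ (b p.1) (W (b p.2)) : ℂ)‖ ^ 2))) := by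
    intro p
    exact (ENNReal.continuous_ofReal.tendsto _).comp (((hY p.1 p.2).norm).pow 2)
  have hfat : ∀ s : Finset (ℕ × ℕ),
      ∑ p ∈ s, ENNReal.ofReal (‖(inner ℂ (b p.1) (W (b p.2)) : ℂ)‖ ^ 2) ≤
      Filter.liminf (fun n => ENNReal.ofReal
        ((((corner b M n)ᴴ * corner b M n) ^ 3).trace).re) Filter.atTop := by
    intro s
    have h1 : Tendsto (fun n => ∑ p ∈ s, ENNReal.ofReal (‖Y n p.1 p.2‖ ^ 2)) atTop
        (𝓝 (∑ p ∈ s, ENNReal.ofReal (‖(inner ℂ (b p.1) (W (b p.2)) : ℂ)‖ ^ 2))) :=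
      tendsto_finsetSum _ fun p _ => hlim p
    rw [← h1.liminf_eq]
    refine liminf_le_liminf ?_
    · have h2 : ∀ᶠ n : ℕ in atTop, ∀ p ∈ s, p.1 < n ∧ p.2 < n := by
        rw [Finset.eventually_all]
        intro p _
        exact (eventually_gt_atTop p.1).and (eventually_gt_atTop p.2)
      filter_upwards [h2] with n hn
      rw [htr n, ← Finset.sum_product', ENNReal.ofReal_sum_of_nonneg (fun _ _ => by positivity)]
      apply Finset.sum_le_sum_of_subset
      intro p hp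
      rw [Finset.mem_product, Finset.mem_range, Finset.mem_range]
      exact hn p hp
  have hpars : ∀ j, ENNReal.ofReal (‖W (b j)‖ ^ 2) =
      ∑' i, ENNReal.ofReal (‖(inner ℂ (b i) (W (b j)) : ℂ)‖ ^ 2) := by
    intro j
    set x := W (b j) with hx
    have h1 := b.hasSum_inner_mul_inner x x
    have h2 : ∀ i, inner ℂ x (b i) * inner ℂ (b i) x =
        ((‖(inner ℂ (b i) x : ℂ)‖ ^ 2 : ℝ) : ℂ) := by
      intro i
      rw [← inner_conj_symm x (b i), ← Complex.normSq_eq_conj_mul_self, Complex.normSq_eq_norm_sq]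
    simp only [h2] at h1
    have h3 : inner ℂ x x = ((‖x‖ ^ 2 : ℝ) : ℂ) := by
      rw [inner_self_eq_norm_sq_to_K]
      norm_cast
    rw [h3] at h1
    have h4 : HasSum (fun i => ‖(inner ℂ (b i) x : ℂ)‖ ^ 2) (‖x‖ ^ 2) := by
      exact_mod_cast h1
    rw [← h4.tsum_eq]
    exact ENNReal.ofReal_tsum_of_nonneg (fun _ => by positivity) h4.summable
  change ∑' i, ENNReal.ofReal (‖W (b i)‖ ^ 2) ≤ _
  simp only [hpars]
  rw [ENNReal.tsum_comm, ← ENNReal.tsum_prod, ENNReal.tsum_eq_iSup_sum]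
  exact iSup_le hfat

theorem ops_il {H : Type*} [NormedAddCommGroup H] [InnerProductSpace ℂ H] [CompleteSpace H]
    (b : HilbertBasis ℕ ℂ H) (M : H →L[ℂ] H) :
    Tendsto (fun n => ENNReal.ofReal ((((corner b M n)ᴴ * corner b M n) ^ 3).trace).re) atTop
      (𝓝 (∑' i, ENNReal.ofReal (‖M ((ContinuousLinearMap.adjoint M) (M (b i)))‖ ^ 2))) := by
  apply tendsto_of_le_liminf_of_limsup_le (ops_iw b M)
  apply Filter.limsup_le_of_le
  · isBoundedDefault
  · exact Filter.Eventually.of_forall (fun n => ops_iu b M n)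

end Pool.Agent.K9h78.LP
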