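import Mathlib

/-! Finitely many vectors give functions on `(0,1)`. -/

set_option autoImplicit false
open MeasureTheory

namespace Pool.Agent.K9h78.LP

/-- `P(α, β) = ∑ ‖α f_i + β g_i‖^p` for finitely many vectors -/
def Rep (p : ℝ) (P : ℂ → ℂ → ℝ) : Prop :=
  ∃ (m : ℕ) (f g : Fin m → ℂ), ∀ α β : ℂ, P α β = ∑ i, ‖α * f i + β * g i‖ ^ p

theorem int_floor' (m : ℕ) (hm : 0 < m) (φ : ℕ → ℝ) :
    ∫ t in Set.Ioo (0:ℝ) 1, φ ⌊(m : ℝ) * t⌋₊ = (∑ i ∈ Finset.range m, φ i) / m := by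
  have hm' : (m : ℝ) ≠ 0 := by positivity
  have hloc : ∀ (i : ℕ), Set.EqOn (fun s : ℝ => φ ⌊s⌋₊) (fun _ => φ i)
      (Set.Ioo (i : ℝ) ((i + 1 : ℕ) : ℝ)) := by
    intro i s hs
    have : ⌊s⌋₊ = i := by
      rw [Nat.floor_eq_iff (le_trans (Nat.cast_nonneg i) hs.1.le)]
      refine ⟨hs.1.le, ?_⟩
      have := hs.2
      push_cast at this
      exact this
    simp only [this]
  have hle : ∀ i : ℕ, (i : ℝ) ≤ ((i + 1 : ℕ) : ℝ) := fun i => by push_cast; linarith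
  have hint : ∀ i : ℕ, IntervalIntegrable (fun s : ℝ => φ ⌊s⌋₊) volume (i : ℝ)
      ((i + 1 : ℕ) : ℝ) := by
    intro i
    rw [intervalIntegrable_iff_integrableOn_Ioo_of_le (hle i)]
    refine IntegrableOn.congr_fun ?_ (hloc i).symm measurableSet_Ioo
    exact integrableOn_const (by simp)
  have hval : ∀ i : ℕ, ∫ s in (i : ℝ)..((i + 1 : ℕ) : ℝ), φ ⌊s⌋₊ = φ i := by
    intro i
    rw [intervalIntegral.integral_of_le (hle i), integral_Ioc_eq_integral_Ioo,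
      setIntegral_congr_fun measurableSet_Ioo (hloc i), setIntegral_const]
    simp
  have h1 : ∫ s in ((0 : ℕ) : ℝ)..(m : ℝ), φ ⌊s⌋₊ = ∑ i ∈ Finset.range m, φ i := by
    rw [← intervalIntegral.sum_integral_adjacent_intervals (a := fun k : ℕ => (k : ℝ))
      (fun k _ => hint k)]
    exact Finset.sum_congr rfl (fun i _ => hval i)
  have h2 : ∫ t in (0:ℝ)..1, φ ⌊(m : ℝ) * t⌋₊ = (m : ℝ)⁻¹ • ∫ s in (m : ℝ) * 0..(m : ℝ) * 1,
      φ ⌊s⌋₊ := intervalIntegral.integral_comp_mul_left (fun s => φ ⌊s⌋₊) hm'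
  rw [← integral_Ioc_eq_integral_Ioo, ← intervalIntegral.integral_of_le zero_le_one, h2, mul_zero,
    mul_one]
  rw [Nat.cast_zero] at h1
  rw [h1, smul_eq_mul]
  ring

/-- the step function -/
noncomputable def stp (m : ℕ) (p : ℝ) (f : Fin m → ℂ) (n : ℕ) : ℂ :=
  if h : n < m then (((m : ℝ) ^ (1 / p) : ℝ) : ℂ) * f ⟨n, h⟩ else 0

theorem stp_memLp (m : ℕ) (p : ℝ) (f : Fin m → ℂ) :
    MemLp (fun t : ℝ => stp m p f ⌊(m : ℝ) * t⌋₊) (ENNReal.ofReal p)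
      (volume.restrict (Set.Ioo (0:ℝ) 1)) := by
  have : IsFiniteMeasure (volume.restrict (Set.Ioo (0:ℝ) 1)) := ⟨by simp⟩
  refine MemLp.of_bound ?_ (∑ i : Fin m, ‖(((m : ℝ) ^ (1 / p) : ℝ) : ℂ) * f i‖) ?_
  · apply Measurable.aestronglyMeasurable
    exact (measurable_from_nat (f := stp m p f)).comp
      (Nat.measurable_floor.comp (measurable_const_mul (m : ℝ)))
  · refine Filter.Eventually.of_forall ?_
    intro t
    unfold stp
    split_ifs with h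
    · exact Finset.single_le_sum
        (f := fun i : Fin m => ‖(((m : ℝ) ^ (1 / p) : ℝ) : ℂ) * f i‖)
        (fun i _ => norm_nonneg _) (Finset.mem_univ (⟨_, h⟩ : Fin m))
    · rw [norm_zero]
      exact Finset.sum_nonneg (fun i _ => norm_nonneg _)

theorem embed_of_rep {p : ℝ} (hp : 0 < p) {P : ℂ → ℂ → ℝ} (h : Rep p P) :
    ∃ F G : ℝ → ℂ, MemLp F (ENNReal.ofReal p) (volume.restrict (Set.Ioo (0:ℝ) 1)) ∧
      MemLp G (ENNReal.ofReal p) (volume.restrict (Set.Ioo (0:ℝ) 1)) ∧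
      ∀ α β : ℂ, P α β = ∫ t in Set.Ioo (0:ℝ) 1, ‖α * F t + β * G t‖ ^ p := by
  obtain ⟨m, f, g, h⟩ := h
  refine ⟨fun t => stp m p f ⌊(m : ℝ) * t⌋₊, fun t => stp m p g ⌊(m : ℝ) * t⌋₊, stp_memLp m p f,
    stp_memLp m p g, ?_⟩
  intro α β
  rw [h]
  rcases Nat.eq_zero_or_pos m with rfl | hm
  · simp [stp, Real.zero_rpow hp.ne']
  have hm' : (0 : ℝ) < m := by exact_mod_cast hm
  have hc : ((m : ℝ) ^ (1 / p)) ^ p = m := by
    rw [← Real.rpow_mul hm'.le, one_div, inv_mul_cancel₀ hp.ne', Real.rpow_one]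
  have hc0 : 0 ≤ (m : ℝ) ^ (1 / p) := by positivity
  rw [int_floor' m hm (fun n => ‖α * stp m p f n + β * stp m p g n‖ ^ p)]
  rw [Finset.sum_range, Finset.sum_div]
  apply Finset.sum_congr rfl
  intro i _
  have h2 : α * stp m p f i + β * stp m p g i =
      (((m : ℝ) ^ (1 / p) : ℝ) : ℂ) * (α * f i + β * g i) := by
    unfold stp
    rw [dif_pos i.2, dif_pos i.2]
    simp only [Fin.eta]
    ring
  rw [h2, norm_mul, Complex.norm_real, Real.norm_eq_abs, abs_of_nonneg hc0,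
    Real.mul_rpow hc0 (norm_nonneg _), hc]
  field_simp

theorem Rep.add {p : ℝ} {P Q : ℂ → ℂ → ℝ} (hP : Rep p P) (hQ : Rep p Q) :
    Rep p (fun α β => P α β + Q α β) := by
  obtain ⟨m, f, g, h⟩ := hP
  obtain ⟨n, f', g', h'⟩ := hQ
  refine ⟨m + n, Fin.append f f', Fin.append g g', fun α β => ?_⟩
  show P α β + Q α β = _
  rw [Fin.sum_univ_add, h, h']
  simp

theorem Rep.single {p : ℝ} (hp : 0 < p) {w : ℝ} (hw : 0 ≤ w) (f g : ℂ) :
    Rep p (fun α β => w * ‖α * f + β * g‖ ^ p) := by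
  refine ⟨1, fun _ => ((w ^ (1 / p) : ℝ) : ℂ) * f, fun _ => ((w ^ (1 / p) : ℝ) : ℂ) * g,
    fun α β => ?_⟩
  have hc0 : 0 ≤ w ^ (1 / p) := by positivity
  have hc : (w ^ (1 / p)) ^ p = w := by
    rw [← Real.rpow_mul hw, one_div, inv_mul_cancel₀ hp.ne', Real.rpow_one]
  have h2 : α * (((w ^ (1 / p) : ℝ) : ℂ) * f) + β * (((w ^ (1 / p) : ℝ) : ℂ) * g) =
      ((w ^ (1 / p) : ℝ) : ℂ) * (α * f + β * g) := by ring
  simp only [Finset.univ_unique, Finset.sum_const, Finset.card_singleton, one_smul]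
  rw [h2, norm_mul, Complex.norm_real, Real.norm_eq_abs, abs_of_nonneg hc0,
    Real.mul_rpow hc0 (norm_nonneg _), hc]

theorem Rep.comp {p : ℝ} {P : ℂ → ℂ → ℝ} (hP : Rep p P) (a b c d : ℂ) :
    Rep p (fun α β => P (a * α + b * β) (c * α + d * β)) := by
  obtain ⟨m, f, g, h⟩ := hP
  refine ⟨m, fun i => a * f i + c * g i, fun i => b * f i + d * g i, fun α β => ?_⟩
  show P (a * α + b * β) (c * α + d * β) = _
  rw [h]
  refine Finset.sum_congr rfl fun i _ => ?_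
  congr 2
  ring

end Pool.Agent.K9h78.LP
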