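import Pool.Agent.K9h78.LP.Ops1
import Pool.Agent.K9h78.LP.Ops2
import Pool.Agent.K9h78.LP.SF

/-!
# Operators of the Schatten class `S_6`, from the case of matrices
-/

set_option autoImplicit false

open MeasureTheory Matrix Filter Topology

namespace Pool.Agent.K9h78.LP

open Pool.Agent.R260.SC (corner)

/-- the case of matrices -/
def FIN6 : Prop := ∀ (n : ℕ) (A B : Matrix (Fin n) (Fin n) ℂ), ∃ (m : ℕ) (u : Fin m → ℂ × ℂ),
  ∀ α β : ℂ, ((((α • A + β • B)ᴴ * (α • A + β • B)) ^ 3).trace).re =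
    ∑ i, ‖α * (u i).1 + β * (u i).2‖ ^ 6

variable {H : Type*} [NormedAddCommGroup H] [InnerProductSpace ℂ H] [CompleteSpace H]

omit [CompleteSpace H] in
theorem ops_corner_lin (b : HilbertBasis ℕ ℂ H) (A B : H →L[ℂ] H) (n : ℕ) (α β : ℂ) :
    corner b (α • A + β • B) n = α • corner b A n + β • corner b B n := by
  ext i j
  simp [corner]

theorem six_yes (hfin : FIN6) (b : HilbertBasis ℕ ℂ H) (A B : H →L[ℂ] H)
    (hA : Summable (fun i => ‖A ((ContinuousLinearMap.adjoint A) (A (b i)))‖ ^ 2))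
    (hB : Summable (fun i => ‖B ((ContinuousLinearMap.adjoint B) (B (b i)))‖ ^ 2)) :
    ∃ (m : ℕ) (u v : Fin m → ℂ), ∀ α β : ℂ, HasSum (fun i => ‖(α • A + β • B)
      ((ContinuousLinearMap.adjoint (α • A + β • B)) ((α • A + β • B) (b i)))‖ ^ 2)
        (∑ i, ‖α * u i + β * v i‖ ^ 6) := by
  set N : ℕ → ℂ → ℂ → ℝ := fun n α β =>
    ((((corner b (α • A + β • B) n)ᴴ * corner b (α • A + β • B) n) ^ 3).trace).re with hN
  have h1 : ∀ n, ∃ (m : ℕ) (u v : Fin m → ℂ), ∀ α β : ℂ,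
      N n α β = ∑ i, ‖α * u i + β * v i‖ ^ (2 * 3) := by
    intro n
    obtain ⟨m, u, h⟩ := hfin n (corner b A n) (corner b B n)
    refine ⟨m, fun i => (u i).1, fun i => (u i).2, fun α β => ?_⟩
    have := h α β
    rw [← ops_corner_lin] at this
    exact this
  -- bounds
  have hbd : ∀ (M : H →L[ℂ] H),
      Summable (fun i => ‖M ((ContinuousLinearMap.adjoint M) (M (b i)))‖ ^ 2) → ∀ n,
      ((((corner b M n)ᴴ * corner b M n) ^ 3).trace).re ≤
        ∑' i, ‖M ((ContinuousLinearMap.adjoint M) (M (b i)))‖ ^ 2 := by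
    intro M hM n
    have h := ops_iu b M n
    rw [← ENNReal.ofReal_tsum_of_nonneg (fun _ => by positivity) hM] at h
    exact (ENNReal.ofReal_le_ofReal_iff (tsum_nonneg fun _ => by positivity)).mp h
  have h2 : ∀ n, N n 1 0 ≤ max (∑' i, ‖A ((ContinuousLinearMap.adjoint A) (A (b i)))‖ ^ 2)
        (∑' i, ‖B ((ContinuousLinearMap.adjoint B) (B (b i)))‖ ^ 2) ∧
      N n 0 1 ≤ max (∑' i, ‖A ((ContinuousLinearMap.adjoint A) (A (b i)))‖ ^ 2)
        (∑' i, ‖B ((ContinuousLinearMap.adjoint B) (B (b i)))‖ ^ 2) := by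
    intro n
    constructor
    · apply le_max_of_le_left
      have := hbd A hA n
      rw [hN]
      simpa only [one_smul, zero_smul, add_zero] using this
    · apply le_max_of_le_right
      have := hbd B hB n
      rw [hN]
      simpa only [one_smul, zero_smul, zero_add] using this
  obtain ⟨m, u, v, φ, hφ, hlim⟩ := ops_lc 3 (by norm_num) N _ h1 h2
  refine ⟨m, u, v, fun α β => ?_⟩
  have hlim' : Tendsto (fun n => N (φ n) α β) atTop (𝓝 (∑ i, ‖α * u i + β * v i‖ ^ 6)) :=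
    hlim α β
  set L : ℝ := ∑ i, ‖α * u i + β * v i‖ ^ 6 with hL
  have hL0 : 0 ≤ L := Finset.sum_nonneg fun _ _ => by positivity
  have e2 : ∑' i, ENNReal.ofReal (‖(α • A + β • B) ((ContinuousLinearMap.adjoint (α • A + β • B))
      ((α • A + β • B) (b i)))‖ ^ 2) = ENNReal.ofReal L := by
    have t1 := (ops_il b (α • A + β • B)).comp hφ.tendsto_atTop
    have t2 := ENNReal.tendsto_ofReal hlim'
    exact tendsto_nhds_unique t1 t2
  have hs : Summable (fun i => ‖(α • A + β • B) ((ContinuousLinearMap.adjoint (α • A + β • B))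
      ((α • A + β • B) (b i)))‖ ^ 2) := by
    have := ENNReal.summable_toReal (e2 ▸ ENNReal.ofReal_ne_top)
    refine this.congr (fun i => ?_)
    rw [ENNReal.toReal_ofReal (by positivity)]
  rw [← ENNReal.ofReal_tsum_of_nonneg (fun _ => by positivity) hs,
    ENNReal.ofReal_eq_ofReal_iff (tsum_nonneg fun _ => by positivity) hL0] at e2
  rw [← e2]
  exact hs.hasSum

/-- `tr |M|^6` exists in `ℝ` and equals `t`: in the orthonormal basis `b`, the series of the numbers
`⟨b_i, (M* M)³ b_i⟩` converges (they are nonnegative) and has the sum `t`. -/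
def HasTrSix (b : HilbertBasis ℕ ℂ H) (M : H →L[ℂ] H) (t : ℝ) : Prop :=
  HasSum (fun i => (inner ℂ (b i) (ContinuousLinearMap.adjoint M (M (ContinuousLinearMap.adjoint M
    (M (ContinuousLinearMap.adjoint M (M (b i)))))))).re) t

theorem hasTrSix_iff (b : HilbertBasis ℕ ℂ H) (M : H →L[ℂ] H) (t : ℝ) :
    HasTrSix b M t ↔
      HasSum (fun i => ‖M ((ContinuousLinearMap.adjoint M) (M (b i)))‖ ^ 2) t := by
  unfold HasTrSix
  have : (fun i => (inner ℂ (b i) (ContinuousLinearMap.adjoint M (M (ContinuousLinearMap.adjoint M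
      (M (ContinuousLinearMap.adjoint M (M (b i)))))))).re) =
      fun i => ‖M ((ContinuousLinearMap.adjoint M) (M (b i)))‖ ^ 2 := by
    ext i
    rw [ContinuousLinearMap.adjoint_inner_right, ← ContinuousLinearMap.adjoint_inner_left,
      ContinuousLinearMap.adjoint_inner_right, inner_self_eq_norm_sq_to_K]
    norm_cast
  rw [this]

/-- operators of `S_6` -/
theorem ops_six (hfin : FIN6) (b : HilbertBasis ℕ ℂ H) (A B : H →L[ℂ] H)
    (hA : ∃ t, HasTrSix b A t) (hB : ∃ t, HasTrSix b B t) :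
    ∃ f g : ℝ → ℂ, MemLp f 6 (volume.restrict (Set.Ioo (0:ℝ) 1)) ∧
      MemLp g 6 (volume.restrict (Set.Ioo (0:ℝ) 1)) ∧
      ∀ α β : ℂ, HasTrSix b (α • A + β • B)
        (∫ t in Set.Ioo (0:ℝ) 1, ‖α * f t + β * g t‖ ^ (6:ℝ)) := by
  obtain ⟨t, hA⟩ := hA
  obtain ⟨s, hB⟩ := hB
  rw [hasTrSix_iff] at hA hB
  obtain ⟨m, u, v, h⟩ := six_yes hfin b A B hA.summable hB.summable
  have hrep : Rep 6 (fun α β => ∑ i, ‖α * u i + β * v i‖ ^ 6) :=
    ⟨m, u, v, fun α β => Finset.sum_congr rfl fun i _ => by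
      exact_mod_cast (Real.rpow_natCast (‖α * u i + β * v i‖) 6).symm⟩
  obtain ⟨F, G, hF, hG, hFG⟩ := embed_of_rep (by norm_num : (0 : ℝ) < 6) hrep
  have h6 : ENNReal.ofReal 6 = 6 := by norm_num
  rw [h6] at hF hG
  refine ⟨F, G, hF, hG, fun α β => ?_⟩
  rw [hasTrSix_iff, ← hFG]
  exact h α β

end Pool.Agent.K9h78.LP
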