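import Pool.Agent.K9h78.LP.SF

/-! Explicit representations of `N`, `N² - 2 Q`, `N³ - 3 N Q`, where `N = |x|² + |y|²` and
`Q = |s x² - r y²|²`, as sums of powers of linear forms. -/

set_option autoImplicit false

namespace Pool.Agent.K9h78.LP

theorem nf (x y : ℂ) (a b : ℝ) :
    ‖x * (a : ℂ) + y * (b : ℂ)‖ ^ 2 =
      a ^ 2 * ‖x‖ ^ 2 + b ^ 2 * ‖y‖ ^ 2 + 2 * a * b * (x.re * y.re + x.im * y.im) := by
  simp only [Complex.sq_norm, Complex.normSq_apply, Complex.add_re, Complex.add_im, Complex.mul_re,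
    Complex.mul_im, Complex.ofReal_re, Complex.ofReal_im]
  ring

theorem nfI (x y : ℂ) (a b : ℝ) :
    ‖x * (Complex.I * (a : ℂ)) + y * (b : ℂ)‖ ^ 2 =
      a ^ 2 * ‖x‖ ^ 2 + b ^ 2 * ‖y‖ ^ 2 + 2 * a * b * (x.re * y.im - x.im * y.re) := by
  simp only [Complex.sq_norm, Complex.normSq_apply, Complex.add_re, Complex.add_im, Complex.mul_re,
    Complex.mul_im, Complex.ofReal_re, Complex.ofReal_im, Complex.I_re, Complex.I_im]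
  ring

theorem nq (x y : ℂ) (s r : ℝ) :
    ‖(s : ℂ) * x ^ 2 - (r : ℂ) * y ^ 2‖ ^ 2 = s ^ 2 * (‖x‖ ^ 2) ^ 2 + r ^ 2 * (‖y‖ ^ 2) ^ 2 -
      2 * s * r * ((x.re * y.re + x.im * y.im) ^ 2 - (x.re * y.im - x.im * y.re) ^ 2) := by
  rw [pow_two x, pow_two y]
  simp only [Complex.sq_norm, Complex.normSq_apply, Complex.sub_re, Complex.sub_im, Complex.mul_re,
    Complex.mul_im, Complex.ofReal_re, Complex.ofReal_im]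
  ring

theorem ri (x y : ℂ) : (x.re * y.re + x.im * y.im) ^ 2 + (x.re * y.im - x.im * y.re) ^ 2 =
    ‖x‖ ^ 2 * ‖y‖ ^ 2 := by
  simp only [Complex.sq_norm, Complex.normSq_apply]
  ring

theorem id6 (s r W ρ V σ : ℝ) (h2 : W * ρ ^ 2 = (1 - r ^ 2 + 3 * s * r) / 6)
    (h4 : W * ρ ^ 4 = (1 - s ^ 2 + 3 * s * r) / 6) (k2 : V * σ ^ 2 = (1 - r ^ 2 - 3 * s * r) / 6)
    (k4 : V * σ ^ 4 = (1 - s ^ 2 - 3 * s * r) / 6) (x y : ℂ) :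
    (‖x‖ ^ 2 + ‖y‖ ^ 2) ^ 3 -
        3 * (‖x‖ ^ 2 + ‖y‖ ^ 2) * ‖(s : ℂ) * x ^ 2 - (r : ℂ) * y ^ 2‖ ^ 2 =
      (W / 2) * ‖x * (ρ : ℂ) + y * ((1 : ℝ) : ℂ)‖ ^ 6 +
      (W / 2) * ‖x * ((-ρ : ℝ) : ℂ) + y * ((1 : ℝ) : ℂ)‖ ^ 6 +
      (V / 2) * ‖x * (Complex.I * (σ : ℂ)) + y * ((1 : ℝ) : ℂ)‖ ^ 6 +
      (V / 2) * ‖x * (Complex.I * ((-σ : ℝ) : ℂ)) + y * ((1 : ℝ) : ℂ)‖ ^ 6 +
      (1 - 3 * s ^ 2 - W * ρ ^ 6 - V * σ ^ 6) * ‖x * ((1 : ℝ) : ℂ) + y * ((0 : ℝ) : ℂ)‖ ^ 6 +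
      (1 - 3 * r ^ 2 - W - V) * ‖x * ((0 : ℝ) : ℂ) + y * ((1 : ℝ) : ℂ)‖ ^ 6 := by
  have e : ∀ z : ℂ, ‖z‖ ^ 6 = (‖z‖ ^ 2) ^ 3 := fun z => by ring
  simp only [e, nf, nfI, nq]
  have h := ri x y
  generalize ‖x‖ ^ 2 = a at *
  generalize ‖y‖ ^ 2 = b at *
  generalize x.re * y.re + x.im * y.im = R at *
  generalize x.re * y.im - x.im * y.re = I at *
  linear_combination (-(3 * a * b ^ 2 + 12 * b * R ^ 2)) * h2 +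
    (-(3 * a ^ 2 * b + 12 * a * R ^ 2)) * h4 + (-(3 * a * b ^ 2 + 12 * b * I ^ 2)) * k2 +
    (-(3 * a ^ 2 * b + 12 * a * I ^ 2)) * k4 -
    (2 * a * (1 - s ^ 2) + 2 * b * (1 - r ^ 2)) * h

theorem id4 (s r : ℝ) (x y : ℂ) :
    (‖x‖ ^ 2 + ‖y‖ ^ 2) ^ 2 - 2 * ‖(s : ℂ) * x ^ 2 - (r : ℂ) * y ^ 2‖ ^ 2 =
      ((1 + 4 * s * r) / 8) * ‖x * ((1 : ℝ) : ℂ) + y * ((1 : ℝ) : ℂ)‖ ^ 4 +
      ((1 + 4 * s * r) / 8) * ‖x * ((-1 : ℝ) : ℂ) + y * ((1 : ℝ) : ℂ)‖ ^ 4 +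
      ((1 - 4 * s * r) / 8) * ‖x * (Complex.I * ((1 : ℝ) : ℂ)) + y * ((1 : ℝ) : ℂ)‖ ^ 4 +
      ((1 - 4 * s * r) / 8) * ‖x * (Complex.I * ((-1 : ℝ) : ℂ)) + y * ((1 : ℝ) : ℂ)‖ ^ 4 +
      (1 / 2 - 2 * s ^ 2) * ‖x * ((1 : ℝ) : ℂ) + y * ((0 : ℝ) : ℂ)‖ ^ 4 +
      (1 / 2 - 2 * r ^ 2) * ‖x * ((0 : ℝ) : ℂ) + y * ((1 : ℝ) : ℂ)‖ ^ 4 := by
  have e : ∀ z : ℂ, ‖z‖ ^ 4 = (‖z‖ ^ 2) ^ 2 := fun z => by ring
  simp only [e, nf, nfI, nq]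
  have h := ri x y
  generalize ‖x‖ ^ 2 = a at *
  generalize ‖y‖ ^ 2 = b at *
  generalize x.re * y.re + x.im * y.im = R at *
  generalize x.re * y.im - x.im * y.re = I at *
  linear_combination (-1) * h

/-- the inequality for the weights -/
theorem wt_ineq {s r : ℝ} (hs : 0 ≤ s) (hs' : s ≤ 1 / 2) (hr : 0 ≤ r) (hr' : r ≤ 1 / 2) :
    (1 - r ^ 2 + 3 * s * r) ^ 2 * (1 - s ^ 2 - 3 * s * r) +
      (1 - r ^ 2 - 3 * s * r) ^ 2 * (1 - s ^ 2 + 3 * s * r) ≤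
      6 * (1 - 3 * r ^ 2) * ((1 - s ^ 2) ^ 2 - (3 * s * r) ^ 2) := by
  have hx : 0 ≤ 1 - 4 * r ^ 2 := by nlinarith
  have hx1 : 1 - 4 * r ^ 2 ≤ 1 := by nlinarith
  have hy : 0 ≤ 1 - 4 * s ^ 2 := by nlinarith
  have key : 6 * (1 - 3 * r ^ 2) * ((1 - s ^ 2) ^ 2 - (3 * s * r) ^ 2) -
      ((1 - r ^ 2 + 3 * s * r) ^ 2 * (1 - s ^ 2 - 3 * s * r) +
      (1 - r ^ 2 - 3 * s * r) ^ 2 * (1 - s ^ 2 + 3 * s * r)) =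
      2 * ((15 / 16) * (1 - 4 * r ^ 2) ^ 2 + (15 / 8) * ((1 - 4 * r ^ 2) * (1 - 4 * s ^ 2)) +
        (3 / 16) * (1 - 4 * s ^ 2) ^ 2 - (1 - 4 * r ^ 2) ^ 2 * (1 - 4 * s ^ 2)) := by ring
  have h1 : (1 - 4 * r ^ 2) ^ 2 * (1 - 4 * s ^ 2) ≤ (1 - 4 * r ^ 2) * (1 - 4 * s ^ 2) := by
    nlinarith [mul_nonneg hx hy, mul_nonneg (mul_nonneg hx hy) (sub_nonneg.2 hx1)]
  nlinarith [mul_nonneg hx hy, sq_nonneg (1 - 4 * r ^ 2), sq_nonneg (1 - 4 * s ^ 2)]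

theorem wts {s r : ℝ} (hs : 0 ≤ s) (hs' : s ≤ 1 / 2) (hr : 0 ≤ r) (hr' : r ≤ 1 / 2) :
    ∃ W ρ V σ : ℝ, 0 ≤ W ∧ 0 ≤ V ∧ W * ρ ^ 2 = (1 - r ^ 2 + 3 * s * r) / 6 ∧
      W * ρ ^ 4 = (1 - s ^ 2 + 3 * s * r) / 6 ∧ V * σ ^ 2 = (1 - r ^ 2 - 3 * s * r) / 6 ∧
      V * σ ^ 4 = (1 - s ^ 2 - 3 * s * r) / 6 ∧ 0 ≤ 1 - 3 * s ^ 2 - W * ρ ^ 6 - V * σ ^ 6 ∧
      0 ≤ 1 - 3 * r ^ 2 - W - V := by
  have hsr : 0 ≤ s * r := mul_nonneg hs hr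
  have hss : s ^ 2 ≤ 1 / 4 := by nlinarith
  have hrr : r ^ 2 ≤ 1 / 4 := by nlinarith
  have hsr' : s * r ≤ 1 / 4 := by nlinarith
  have I1 := wt_ineq hs hs' hr hr'
  have I2 := wt_ineq hr hr' hs hs'
  obtain ⟨A, hA⟩ : ∃ A, A = 1 - r ^ 2 + 3 * s * r := ⟨_, rfl⟩
  obtain ⟨B, hB⟩ : ∃ B, B = 1 - s ^ 2 + 3 * s * r := ⟨_, rfl⟩
  obtain ⟨C, hC⟩ : ∃ C, C = 1 - r ^ 2 - 3 * s * r := ⟨_, rfl⟩
  obtain ⟨D, hD⟩ : ∃ D, D = 1 - s ^ 2 - 3 * s * r := ⟨_, rfl⟩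
  have hA0 : 0 < A := by rw [hA]; nlinarith
  have hB0 : 0 < B := by rw [hB]; nlinarith
  have hC0 : 0 ≤ C := by rw [hC]; nlinarith
  have hD0 : 0 ≤ D := by rw [hD]; nlinarith
  have J1 : A ^ 2 * D + C ^ 2 * B ≤ 6 * (1 - 3 * r ^ 2) * (B * D) := by
    have : B * D = (1 - s ^ 2) ^ 2 - (3 * s * r) ^ 2 := by rw [hB, hD]; ring
    rw [this, hA, hB, hC, hD]
    exact I1
  have J2 : B ^ 2 * C + D ^ 2 * A ≤ 6 * (1 - 3 * s ^ 2) * (A * C) := by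
    have : A * C = (1 - r ^ 2) ^ 2 - (3 * r * s) ^ 2 := by rw [hA, hC]; ring
    rw [this, hA, hB, hC, hD]
    have e1 : 3 * s * r = 3 * r * s := by ring
    rw [e1]
    exact I2
  rw [← hA, ← hB, ← hC, ← hD]
  have hρ : (Real.sqrt (B / A)) ^ 2 = B / A := Real.sq_sqrt (by positivity)
  have hρ4 : (Real.sqrt (B / A)) ^ 4 = (B / A) ^ 2 := by
    rw [show (4 : ℕ) = 2 * 2 from rfl, pow_mul, hρ]
  have hρ6 : (Real.sqrt (B / A)) ^ 6 = (B / A) ^ 3 := by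
    rw [show (6 : ℕ) = 2 * 3 from rfl, pow_mul, hρ]
  rcases hD0.eq_or_lt with hD1 | hD1
  · -- `s = r = 1/2`
    have hs2 : s = 1 / 2 := by
      by_contra hne
      have : s < 1 / 2 := lt_of_le_of_ne hs' hne
      nlinarith
    have hr2 : r = 1 / 2 := by
      rw [hs2] at hD
      linarith
    have hA2 : A = 3 / 2 := by rw [hA, hs2, hr2]; norm_num
    have hB2 : B = 3 / 2 := by rw [hB, hs2, hr2]; norm_num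
    have hC2 : C = 0 := by rw [hC, hs2, hr2]; norm_num
    refine ⟨1 / 4, 1, 0, 0, by norm_num, le_refl _, ?_, ?_, ?_, ?_, ?_, ?_⟩
    · rw [hA2]; norm_num
    · rw [hB2]; norm_num
    · rw [hC2]; norm_num
    · rw [← hD1]; norm_num
    · rw [hs2]; norm_num
    · rw [hr2]; norm_num
  · rcases hC0.eq_or_lt with hC1 | hC1
    · exfalso
      have hr2 : r = 1 / 2 := by
        by_contra hne
        have : r < 1 / 2 := lt_of_le_of_ne hr' hne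
        nlinarith
      have hs2 : s = 1 / 2 := by
        rw [hr2] at hC
        linarith
      rw [hs2, hr2] at hD
      norm_num at hD
      linarith
    · have hσ : (Real.sqrt (D / C)) ^ 2 = D / C := Real.sq_sqrt (by positivity)
      have hσ4 : (Real.sqrt (D / C)) ^ 4 = (D / C) ^ 2 := by
        rw [show (4 : ℕ) = 2 * 2 from rfl, pow_mul, hσ]
      have hσ6 : (Real.sqrt (D / C)) ^ 6 = (D / C) ^ 3 := by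
        rw [show (6 : ℕ) = 2 * 3 from rfl, pow_mul, hσ]
      refine ⟨A ^ 2 / (6 * B), Real.sqrt (B / A), C ^ 2 / (6 * D), Real.sqrt (D / C),
        by positivity, by positivity, ?_, ?_, ?_, ?_, ?_, ?_⟩
      · rw [hρ]; field_simp
      · rw [hρ4]; field_simp
      · rw [hσ]; field_simp
      · rw [hσ4]; field_simp
      · rw [hρ6, hσ6]
        have e1 : A ^ 2 / (6 * B) * (B / A) ^ 3 + C ^ 2 / (6 * D) * (D / C) ^ 3 =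
            (B ^ 2 * C + D ^ 2 * A) / (6 * (A * C)) := by
          field_simp
        have e2 : (B ^ 2 * C + D ^ 2 * A) / (6 * (A * C)) ≤ 1 - 3 * s ^ 2 := by
          rw [div_le_iff₀ (by positivity)]
          linarith
        linarith
      · have e1 : A ^ 2 / (6 * B) + C ^ 2 / (6 * D) =
            (A ^ 2 * D + C ^ 2 * B) / (6 * (B * D)) := by
          field_simp
        have e2 : (A ^ 2 * D + C ^ 2 * B) / (6 * (B * D)) ≤ 1 - 3 * r ^ 2 := by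
          rw [div_le_iff₀ (by positivity)]
          linarith
        linarith

theorem Rep.congr {p : ℝ} {P Q : ℂ → ℂ → ℝ} (hP : Rep p P) (h : ∀ x y, Q x y = P x y) :
    Rep p Q := by
  obtain ⟨m, f, g, hh⟩ := hP
  exact ⟨m, f, g, fun x y => by rw [h, hh]⟩

theorem rep6 {s r : ℝ} (hs : 0 ≤ s) (hs' : s ≤ 1 / 2) (hr : 0 ≤ r) (hr' : r ≤ 1 / 2) :
    Rep 6 (fun x y => (‖x‖ ^ 2 + ‖y‖ ^ 2) ^ 3 -
        3 * (‖x‖ ^ 2 + ‖y‖ ^ 2) * ‖(s : ℂ) * x ^ 2 - (r : ℂ) * y ^ 2‖ ^ 2) := by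
  obtain ⟨W, ρ, V, σ, hW, hV, h2, h4, k2, k4, c1, c2⟩ := wts hs hs' hr hr'
  have p6 : (0 : ℝ) < 6 := by norm_num
  have hW2 : 0 ≤ W / 2 := by positivity
  have hV2 : 0 ≤ V / 2 := by positivity
  have e : ∀ t : ℝ, t ^ (6 : ℝ) = t ^ 6 := fun t => by exact_mod_cast Real.rpow_natCast t 6
  refine Rep.congr (((((Rep.single p6 hW2 (ρ : ℂ) ((1 : ℝ) : ℂ)).add
    (Rep.single p6 hW2 ((-ρ : ℝ) : ℂ) ((1 : ℝ) : ℂ))).add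
    (Rep.single p6 hV2 (Complex.I * (σ : ℂ)) ((1 : ℝ) : ℂ))).add
    (Rep.single p6 hV2 (Complex.I * ((-σ : ℝ) : ℂ)) ((1 : ℝ) : ℂ))).add
    (Rep.single p6 c1 ((1 : ℝ) : ℂ) ((0 : ℝ) : ℂ)) |>.add
    (Rep.single p6 c2 ((0 : ℝ) : ℂ) ((1 : ℝ) : ℂ))) fun x y => ?_
  simp only [e]
  exact id6 s r W ρ V σ h2 h4 k2 k4 x y

theorem rep4 {s r : ℝ} (hs : 0 ≤ s) (hs' : s ≤ 1 / 2) (hr : 0 ≤ r) (hr' : r ≤ 1 / 2) :
    Rep 4 (fun x y => (‖x‖ ^ 2 + ‖y‖ ^ 2) ^ 2 -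
        2 * ‖(s : ℂ) * x ^ 2 - (r : ℂ) * y ^ 2‖ ^ 2) := by
  have p4 : (0 : ℝ) < 4 := by norm_num
  have hsr : s * r ≤ 1 / 4 := by nlinarith
  have hW2 : 0 ≤ (1 + 4 * s * r) / 8 := by positivity
  have hV2 : 0 ≤ (1 - 4 * s * r) / 8 := by linarith
  have c1 : 0 ≤ 1 / 2 - 2 * s ^ 2 := by nlinarith
  have c2 : 0 ≤ 1 / 2 - 2 * r ^ 2 := by nlinarith
  have e : ∀ t : ℝ, t ^ (4 : ℝ) = t ^ 4 := fun t => by exact_mod_cast Real.rpow_natCast t 4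
  refine Rep.congr (((((Rep.single p4 hW2 ((1 : ℝ) : ℂ) ((1 : ℝ) : ℂ)).add
    (Rep.single p4 hW2 ((-1 : ℝ) : ℂ) ((1 : ℝ) : ℂ))).add
    (Rep.single p4 hV2 (Complex.I * ((1 : ℝ) : ℂ)) ((1 : ℝ) : ℂ))).add
    (Rep.single p4 hV2 (Complex.I * ((-1 : ℝ) : ℂ)) ((1 : ℝ) : ℂ))).add
    (Rep.single p4 c1 ((1 : ℝ) : ℂ) ((0 : ℝ) : ℂ)) |>.add
    (Rep.single p4 c2 ((0 : ℝ) : ℂ) ((1 : ℝ) : ℂ))) fun x y => ?_
  simp only [e]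
  exact id4 s r x y

theorem rep2 : Rep 2 (fun x y => ‖x‖ ^ 2 + ‖y‖ ^ 2) := by
  have p2 : (0 : ℝ) < 2 := by norm_num
  have e : ∀ t : ℝ, t ^ (2 : ℝ) = t ^ 2 := fun t => by exact_mod_cast Real.rpow_natCast t 2
  refine Rep.congr ((Rep.single p2 zero_le_one 1 0).add (Rep.single p2 zero_le_one 0 1))
    fun x y => ?_
  simp only [e, mul_one, mul_zero, add_zero, zero_add, one_mul]

end Pool.Agent.K9h78.LP
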