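import Mathlib
set_option autoImplicit false
namespace Pool.Agent.K9h78.LP

/-- a Hermitian form on ℂ² -/
noncomputable def TF (t11 t22 : ℝ) (t12 : ℂ) (α β : ℂ) : ℝ :=
  t11 * ‖α‖ ^ 2 + t22 * ‖β‖ ^ 2 + 2 * (α * (starRingEnd ℂ) β * t12).re

/-- a binary quadratic form -/
noncomputable def QF (q11 q12 q22 : ℂ) (α β : ℂ) : ℂ := q11 * α ^ 2 + q12 * (α * β) + q22 * β ^ 2

/-- simultaneous diagonalisation (Takagi): if `|q| ≤ T / 2` then `T = |ξ|² + |η|²` and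
`|q| = |s ξ² - r η²|` in suitable linear forms `ξ, η`, `0 ≤ s, r ≤ 1/2`. -/
def S_TK : Prop := ∀ (t11 t22 : ℝ) (t12 q11 q12 q22 : ℂ),
  (∀ α β : ℂ, ‖QF q11 q12 q22 α β‖ ≤ TF t11 t22 t12 α β / 2) →
  ∃ (a b c d : ℂ) (s r : ℝ), 0 ≤ s ∧ s ≤ 1 / 2 ∧ 0 ≤ r ∧ r ≤ 1 / 2 ∧ ∀ α β : ℂ,
    TF t11 t22 t12 α β = ‖a * α + b * β‖ ^ 2 + ‖c * α + d * β‖ ^ 2 ∧
    ‖QF q11 q12 q22 α β‖ = ‖(s : ℂ) * (a * α + b * β) ^ 2 - (r : ℂ) * (c * α + d * β) ^ 2‖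

end Pool.Agent.K9h78.LP
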