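import Pool.Agent.K9h78.LP.P6
import Pool.Agent.K9h78.LP.TKS
import Pool.Agent.K9h78.LP.EX

/-! Pairs of `2 × 2` matrices embed for `p = 2, 4, 6`. -/

set_option autoImplicit false
open MeasureTheory Finset Matrix

namespace Pool.Agent.K9h78.LP

/-- the square of the Hilbert-Schmidt norm -/
noncomputable def frob (X : Matrix (Fin 2) (Fin 2) ℂ) : ℝ :=
  ‖X 0 0‖ ^ 2 + ‖X 0 1‖ ^ 2 + ‖X 1 0‖ ^ 2 + ‖X 1 1‖ ^ 2

theorem eig2 (X : Matrix (Fin 2) (Fin 2) ℂ) :
    (isHermitian_conjTranspose_mul_self X).eigenvalues 0 +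
      (isHermitian_conjTranspose_mul_self X).eigenvalues 1 = frob X ∧
    (isHermitian_conjTranspose_mul_self X).eigenvalues 0 *
      (isHermitian_conjTranspose_mul_self X).eigenvalues 1 = ‖X.det‖ ^ 2 := by
  set hH := isHermitian_conjTranspose_mul_self X with hHdef
  have htr := hH.trace_eq_sum_eigenvalues
  have hdet := hH.det_eq_prod_eigenvalues
  rw [Fin.sum_univ_two] at htr
  rw [Fin.prod_univ_two] at hdet
  set a := hH.eigenvalues 0
  set b := hH.eigenvalues 1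
  constructor
  · have e1 : (Xᴴ * X).trace = ((frob X : ℝ) : ℂ) := by
      simp only [Matrix.trace, Matrix.diag, Fin.sum_univ_two, Matrix.mul_apply,
        Matrix.conjTranspose_apply]
      unfold frob
      simp only [← Complex.normSq_eq_norm_sq]
      push_cast
      simp only [Complex.normSq_eq_conj_mul_self, RCLike.star_def]
      ring
    rw [e1] at htr
    have : ((frob X : ℝ) : ℂ) = ((a + b : ℝ) : ℂ) := by
      rw [htr]
      push_cast
      rfl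
    exact_mod_cast this.symm
  · have e1 : (Xᴴ * X).det = ((‖X.det‖ ^ 2 : ℝ) : ℂ) := by
      rw [Matrix.det_mul, Matrix.det_conjTranspose]
      rw [← Complex.normSq_eq_norm_sq, Complex.normSq_eq_conj_mul_self]
      simp
    rw [e1] at hdet
    have : ((‖X.det‖ ^ 2 : ℝ) : ℂ) = ((a * b : ℝ) : ℂ) := by
      rw [hdet]
      push_cast
      rfl
    exact_mod_cast this.symm

theorem tr2 (X : Matrix (Fin 2) (Fin 2) ℂ) : trPow 2 X = frob X := by
  obtain ⟨h1, -⟩ := eig2 X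
  unfold trPow
  rw [Fin.sum_univ_two, ← h1]
  norm_num

theorem tr4 (X : Matrix (Fin 2) (Fin 2) ℂ) : trPow 4 X = frob X ^ 2 - 2 * ‖X.det‖ ^ 2 := by
  obtain ⟨h1, h2⟩ := eig2 X
  have e : ∀ t : ℝ, t ^ ((4 : ℝ) / 2) = t ^ 2 := fun t => by
    rw [show (4 : ℝ) / 2 = ((2 : ℕ) : ℝ) by norm_num, Real.rpow_natCast]
  unfold trPow
  rw [Fin.sum_univ_two, ← h1, ← h2, e, e]
  ring

theorem tr6 (X : Matrix (Fin 2) (Fin 2) ℂ) :
    trPow 6 X = frob X ^ 3 - 3 * frob X * ‖X.det‖ ^ 2 := by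
  obtain ⟨h1, h2⟩ := eig2 X
  have e : ∀ t : ℝ, t ^ ((6 : ℝ) / 2) = t ^ 3 := fun t => by
    rw [show (6 : ℝ) / 2 = ((3 : ℕ) : ℝ) by norm_num, Real.rpow_natCast]
  unfold trPow
  rw [Fin.sum_univ_two, ← h1, ← h2, e, e]
  ring

theorem det_le (X : Matrix (Fin 2) (Fin 2) ℂ) : ‖X.det‖ ≤ frob X / 2 := by
  rw [Matrix.det_fin_two]
  unfold frob
  have h := norm_sub_le (X 0 0 * X 1 1) (X 0 1 * X 1 0)
  rw [norm_mul, norm_mul] at h
  nlinarith [sq_nonneg (‖X 0 0‖ - ‖X 1 1‖), sq_nonneg (‖X 0 1‖ - ‖X 1 0‖)]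

theorem frob_lin (A B : Matrix (Fin 2) (Fin 2) ℂ) (α β : ℂ) :
    frob (α • A + β • B) = TF (frob A) (frob B)
      (A 0 0 * (starRingEnd ℂ) (B 0 0) + A 0 1 * (starRingEnd ℂ) (B 0 1) +
        A 1 0 * (starRingEnd ℂ) (B 1 0) + A 1 1 * (starRingEnd ℂ) (B 1 1)) α β := by
  unfold frob TF
  simp only [Matrix.add_apply, Matrix.smul_apply, smul_eq_mul]
  simp only [Complex.sq_norm, Complex.normSq_apply, Complex.add_re, Complex.add_im, Complex.mul_re,
    Complex.mul_im, Complex.conj_re, Complex.conj_im]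
  ring

theorem det_lin (A B : Matrix (Fin 2) (Fin 2) ℂ) (α β : ℂ) :
    (α • A + β • B).det = QF A.det (A 0 0 * B 1 1 + A 1 1 * B 0 0 - A 0 1 * B 1 0 - A 1 0 * B 0 1)
      B.det α β := by
  unfold QF
  simp only [Matrix.det_fin_two, Matrix.add_apply, Matrix.smul_apply, smul_eq_mul]
  ring

theorem rep_of_tk (htk : S_TK) (A B : Matrix (Fin 2) (Fin 2) ℂ) {p : ℝ}
    (hp : p = 2 ∨ p = 4 ∨ p = 6) : Rep p (fun α β => trPow p (α • A + β • B)) := by
  obtain ⟨a, b, c, d, s, r, hs, hs', hr, hr', h⟩ := htk (frob A) (frob B)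
    (A 0 0 * (starRingEnd ℂ) (B 0 0) + A 0 1 * (starRingEnd ℂ) (B 0 1) +
        A 1 0 * (starRingEnd ℂ) (B 1 0) + A 1 1 * (starRingEnd ℂ) (B 1 1))
    A.det (A 0 0 * B 1 1 + A 1 1 * B 0 0 - A 0 1 * B 1 0 - A 1 0 * B 0 1) B.det
    (fun α β => by
      rw [← frob_lin, ← det_lin]
      exact det_le _)
  rcases hp with rfl | rfl | rfl
  · refine Rep.congr (rep2.comp a b c d) fun α β => ?_
    rw [tr2, frob_lin, (h α β).1]
  · refine Rep.congr ((rep4 hs hs' hr hr').comp a b c d) fun α β => ?_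
    rw [tr4, frob_lin, det_lin, (h α β).1, (h α β).2]
  · refine Rep.congr ((rep6 hs hs' hr hr').comp a b c d) fun α β => ?_
    rw [tr6, frob_lin, det_lin, (h α β).1, (h α β).2]

end Pool.Agent.K9h78.LP
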