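import Pool.Agent.K9h78.LP.OpStm

/-! Leaf UNI: uniqueness of the value of `HasTr`. -/

set_option autoImplicit false

open MeasureTheory Filter Topology

namespace Pool.Agent.K9h78.LP

/-- Parseval in `[0, ∞]` -/
theorem uni_pars {H ι : Type} [NormedAddCommGroup H] [InnerProductSpace ℂ H] [CompleteSpace H]
    (b : HilbertBasis ι ℂ H) (x : H) :
    ENNReal.ofReal (‖x‖ ^ 2) = ∑' i, ENNReal.ofReal (‖(inner ℂ (b i) x : ℂ)‖ ^ 2) := by
  have h1 := b.hasSum_inner_mul_inner x x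
  have h2 : ∀ i, inner ℂ x (b i) * inner ℂ (b i) x =
      ((‖(inner ℂ (b i) x : ℂ)‖ ^ 2 : ℝ) : ℂ) := by
    intro i
    rw [← inner_conj_symm x (b i), ← Complex.normSq_eq_conj_mul_self, Complex.normSq_eq_norm_sq]
  simp only [h2] at h1
  have h3 : inner ℂ x x = ((‖x‖ ^ 2 : ℝ) : ℂ) := by
    rw [inner_self_eq_norm_sq_to_K]
    norm_cast
  rw [h3] at h1
  have h4 : HasSum (fun i => ‖(inner ℂ (b i) x : ℂ)‖ ^ 2) (‖x‖ ^ 2) := by
    exact_mod_cast h1
  rw [← h4.tsum_eq]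
  exact ENNReal.ofReal_tsum_of_nonneg (fun _ => by positivity) h4.summable

theorem uni_le {H : Type} [NormedAddCommGroup H] [InnerProductSpace ℂ H] [CompleteSpace H]
    (M : H →L[ℂ] H) {ι κ : Type} (e : HilbertBasis ι ℂ H) (e' : HilbertBasis κ ℂ H)
    (s : ι → ℝ) (s' : κ → ℝ)
    (h : ∀ i, ContinuousLinearMap.adjoint M (M (e i)) = (s i : ℂ) • e i)
    (h' : ∀ i, ContinuousLinearMap.adjoint M (M (e' i)) = (s' i : ℂ) • e' i)
    (i : ι) (j : κ) (hij : (inner ℂ (e' j) (e i) : ℂ) ≠ 0) : s i = s' j := by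
  have h1 : inner ℂ (e' j) (ContinuousLinearMap.adjoint M (M (e i))) =
      inner ℂ (ContinuousLinearMap.adjoint M (M (e' j))) (e i) := by
    rw [ContinuousLinearMap.adjoint_inner_right, ContinuousLinearMap.adjoint_inner_left]
  rw [h, h', inner_smul_right, inner_smul_left, Complex.conj_ofReal] at h1
  have h2 := mul_right_cancel₀ hij h1
  exact_mod_cast h2

theorem uni : S_UNI := by
  rintro H _ _ _ p M t t' ⟨ι, e, s, he, hs⟩ ⟨κ, e', s', he', hs'⟩
  have key : ∑' i, ENNReal.ofReal (s i ^ (p / 2)) = ∑' j, ENNReal.ofReal (s' j ^ (p / 2)) := by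
    have h1 : ∀ i, ENNReal.ofReal (s i ^ (p / 2)) =
        ∑' j, ENNReal.ofReal (s i ^ (p / 2)) * ENNReal.ofReal (‖(inner ℂ (e' j) (e i) : ℂ)‖ ^ 2) := by
      intro i
      rw [ENNReal.tsum_mul_left, ← uni_pars e' (e i), e.orthonormal.1 i]
      simp
    have h2 : ∀ j, ENNReal.ofReal (s' j ^ (p / 2)) =
        ∑' i, ENNReal.ofReal (s' j ^ (p / 2)) * ENNReal.ofReal (‖(inner ℂ (e i) (e' j) : ℂ)‖ ^ 2) := by
      intro j
      rw [ENNReal.tsum_mul_left, ← uni_pars e (e' j), e'.orthonormal.1 j]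
      simp
    rw [tsum_congr h1, ENNReal.tsum_comm, tsum_congr h2]
    refine tsum_congr fun j => tsum_congr fun i => ?_
    by_cases hij : (inner ℂ (e' j) (e i) : ℂ) = 0
    · have h3 : (inner ℂ (e i) (e' j) : ℂ) = 0 := by
        rw [← inner_conj_symm, hij, map_zero]
      rw [hij, h3]
      simp
    · have h3 := uni_le M e e' s s' (fun i => (he i).2) (fun i => (he' i).2) i j hij
      have h4 : ‖(inner ℂ (e' j) (e i) : ℂ)‖ = ‖(inner ℂ (e i) (e' j) : ℂ)‖ := norm_inner_symm _ _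
      rw [h3, h4]
  have h0 : ∀ i, 0 ≤ s i ^ (p / 2) := fun i => Real.rpow_nonneg (he i).1 _
  have h0' : ∀ i, 0 ≤ s' i ^ (p / 2) := fun i => Real.rpow_nonneg (he' i).1 _
  have e1 : ENNReal.ofReal t = ∑' i, ENNReal.ofReal (s i ^ (p / 2)) := by
    rw [← hs.tsum_eq]
    exact ENNReal.ofReal_tsum_of_nonneg h0 hs.summable
  have e2 : ENNReal.ofReal t' = ∑' i, ENNReal.ofReal (s' i ^ (p / 2)) := by
    rw [← hs'.tsum_eq]
    exact ENNReal.ofReal_tsum_of_nonneg h0' hs'.summable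
  have ht : 0 ≤ t := hs.nonneg h0
  have ht' : 0 ≤ t' := hs'.nonneg h0'
  rw [← ENNReal.toReal_ofReal ht, ← ENNReal.toReal_ofReal ht', e1, e2, key]

end Pool.Agent.K9h78.LP
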